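import Pool.Agent.H38.SK.N59.Sym
import Pool.Agent.H83.SK.Iface

/-!
# Bad events for sites: two clusters close to the same vertex of the sphere
-/

set_option autoImplicit false

open MeasureTheory ProbabilityTheory unitInterval

namespace Pool.Agent.H38.N59

open Pool.Agent.H89.Perc
open Pool.Agent.H61.NC hiding RSWreg
open Pool.Agent.H83.SK (sv sit sit_true RSWreg)
open Pool.Agent.H59.EX (LocS inE touch clus closeS Side T Mouth Fence dom CorrData CorrSep
  mem_clus_single clus_conn)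
open Pool.Agent.H29.Sep (LocTwo)

variable {s : Src} {w ρ ρ' : ℕ} {v v' : Vert} {d d' : Side} {Z Zy : Set Vert} {Nev Ny : Set Config}
  {q : I}

/-- The balls around a vertex of the sphere are far from the source. -/
private theorem bad_far {r : ℕ} {z : Vert} (hz : z ∈ sphere 0 (8 * w)) (hr : r + 2 < 8 * w)
    {a : Vert} (ha : a ∈ ball z r) : a ∉ ball 0 2 := by
  intro h
  obtain ⟨h1, h2⟩ := hz
  rw [mem_ball] at h1 ha h
  simp only [Prod.fst_zero, Prod.snd_zero, zero_sub, zero_add] at h1 h2 h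
  push_cast at h1 h2 h
  omega

/-- On sets far from the source the configuration is not cut. -/
private theorem bad_uncut {ω : Config} {S : Set Vert} {a b : Vert}
    (hS : ∀ p ∈ S, p ∉ ball 0 2) (h : Conn (sit ω) S a b) : Conn (sit (s.cut ω)) S a b := by
  refine conn_congr (fun g hg => ?_) h
  obtain ⟨h1, h2⟩ := hg
  have h3 : g = sv (src g) := by
    obtain ⟨x, y, t⟩ := g
    have h4 : t = false := h1
    simp [sv, src, h4]
  rw [h3]
  exact (cut_of_not_ball (hS _ h2)).symm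

private theorem cut_sub {ω : Config} {S S' : Set Vert} {a b : Vert} (hS : S ⊆ S')
    (h : Conn (sit (s.cut ω)) S a b) : Conn (sit ω) S' a b :=
  conn_mono hS (fun _ he => cut_le he) h

/-- If `x` lands near `v` and the cluster of `y` comes near `v`, then two distinct clusters cross
a half annulus. -/
theorem bad0 (hρ : 1 ≤ ρ) (hw : 64 * ρ ≤ w) (hv : v ∈ sphere 0 (8 * w)) {ω : Config}
    (hω : ω ∈ Four s (8 * w))
    (hx : ∃ u ∈ sphere 0 (8 * w), u ∈ ball v ρ ∧ Conn (sit (s.cut ω)) (ball 0 (8 * w)) s.x u)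
    (hy : ¬ Disjoint (SY s w ω) (ball v (11 * ρ))) :
    ω ∈ Four s (2 * w) ∧ ∃ z ∈ sphere 0 (8 * w),
      sit ω ∈ LocTwo (ball 0 (8 * w)) z (11 * ρ) (4 * w) := by
  refine ⟨four_mono' (by omega) (by omega) hω, v, hv, ?_⟩
  obtain ⟨u, -, huv, hxu⟩ := hx
  obtain ⟨p, hp, hpv⟩ := Set.not_disjoint_iff.1 hy
  have hyp : Conn (sit (s.cut ω)) (ball 0 (8 * w)) s.y p := mem_clus_single.1 hp
  have hfar : ∀ a ∈ ball v (4 * w), a ∉ ball 0 2 := fun a ha => bad_far hv (by omega) ha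
  have hu11 : u ∈ ball v (11 * ρ) := ball_mono' (by omega) huv
  have hsub : ball v (11 * ρ) ⊆ ball v (4 * w) := ball_mono' (by omega)
  obtain ⟨a, ha, hca⟩ := hxu.symm.to_sphere (v := v) (r := 4 * w) (hsub hu11)
    (Or.inl fun h => hfar _ h s.hx)
  obtain ⟨b, hb, hcb⟩ := hyp.symm.to_sphere (v := v) (r := 4 * w) (hsub hpv)
    (Or.inl fun h => hfar _ h s.hy)
  refine ⟨u, hu11, p, hpv, a, ha, b, hb, cut_sub le_rfl hca, cut_sub le_rfl hcb,
    fun h => hω.2.2 ?_⟩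
  have h1 : Conn (sit (s.cut ω)) (ball 0 (8 * w) ∩ ball v (4 * w)) u p :=
    bad_uncut (fun q hq => hfar q hq.2) h
  exact (hxu.trans (h1.mono_set Set.inter_subset_left)).trans hyp.symm

/-- If the clusters of `x` (after gluing) and of `y` come close to the same vertex, then two
distinct clusters cross a half annulus. -/
theorem bad12 (hK : CorrData w ρ v d Z Nev) (hρ' : 1 ≤ ρ') (h1 : 64 * ρ' ≤ ρ) (h2 : 64 * ρ ≤ w)
    {ω : Config} (hω : ω ∈ Ev0 s w ρ v)
    (hg : ω ∉ Good12 s w ρ' Z) :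
    ω ∈ Four s (2 * w) ∧ ∃ z ∈ sphere 0 (8 * w),
      sit ω ∈ LocTwo (ball 0 (8 * w)) z (12 * ρ') ρ := by
  obtain ⟨⟨u, hu, huv, hxu⟩, ⟨u', hu', hyu'⟩, hxy, hdis⟩ := hω
  refine ⟨four_mono' (by omega) (by omega) ⟨⟨u, hu, hxu⟩, ⟨u', hu', hyu'⟩, hxy⟩, ?_⟩
  simp only [Good12, Set.mem_ofPred_eq, not_forall, not_not] at hg
  obtain ⟨z, hz, ⟨a, ha1, haz⟩, ⟨b, hb1, hbz⟩⟩ := hg
  refine ⟨z, hz, ?_⟩
  have hfar : ∀ p ∈ ball z ρ, p ∉ ball 0 2 := fun p hp => bad_far hz (by omega) hp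
  have hsub : ball z (12 * ρ') ⊆ ball z ρ := ball_mono' (by omega)
  -- the corridor is far from `z`
  have hbv : b ∉ ball v (11 * ρ) := Set.disjoint_left.1 hdis hb1
  have hZ : ∀ p ∈ ball z ρ, p ∉ Z := by
    intro p hp hpZ
    have h3 : z ∈ ball v (5 * ρ) := hK.inter p hpZ z hz.1 (ball_symm' hp)
    apply hbv
    rw [mem_ball] at h3 hbz ⊢
    push_cast at h3 hbz ⊢
    omega
  have hca : Conn (sit (fillS Z (s.cut ω))) (ball 0 (8 * w) ∪ Z) s.x a := mem_clus_single.1 ha1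
  have hcb : Conn (sit (s.cut ω)) (ball 0 (8 * w)) s.y b := mem_clus_single.1 hb1
  obtain ⟨a', ha', haa'⟩ := hca.symm.to_sphere (v := z) (r := ρ) (hsub haz)
    (Or.inl fun h => hfar _ h s.hx)
  obtain ⟨b', hb', hbb'⟩ := hcb.symm.to_sphere (v := z) (r := ρ) (hsub hbz)
    (Or.inl fun h => hfar _ h s.hy)
  have hDa : Conn (sit ω) (ball 0 (8 * w) ∩ ball z ρ) a a' := by
    have h4 : Conn (sit (s.cut ω)) ((ball 0 (8 * w) ∪ Z) ∩ ball z ρ) a a' := by
      refine conn_congr (fun g hg => ?_) haa'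
      have h5 : g ∉ vE Z := fun h => hZ _ hg.2.2 h.2
      simp [fillS, h5]
    refine cut_sub ?_ h4
    rintro p ⟨hp | hp, hp'⟩
    · exact ⟨hp, hp'⟩
    · exact absurd hp (hZ p hp')
  refine ⟨a, haz, b, hbz, a', ha', b', hb', hDa, cut_sub le_rfl hbb', fun h => ?_⟩
  have h6 : Conn (sit (s.cut ω)) (ball 0 (8 * w) ∩ ball z ρ) a b :=
    bad_uncut (fun q hq => hfar q hq.2) h
  have h7 : b ∈ S1 s w Z ω := by
    refine clus_conn ha1 (conn_mono ?_ (fun e he => le_fillS he) h6)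
    exact Set.inter_subset_left.trans Set.subset_union_left
  exact Set.disjoint_left.1 (S1_disj_SY hK (by omega) hdis hxy) h7 hb1

/-- The bad event of the inner boundary. -/
def BadZ (w t ρ : ℕ) : Set Config :=
  {ω | ∃ z ∈ sphere 0 (8 * w), sit ω ∈ LocTwo (ball 0 (8 * w)) z t ρ}

/-- Independence of the inner four-arm event and of the events near the sphere. -/
theorem four_bad_indep {t ρ₁ : ℕ} (hρ₁ : ρ₁ ≤ 4 * w) (hw : 1 ≤ w) :
    Pr q (Four s (2 * w) ∩ BadZ w t ρ₁) = Pr q (Four s (2 * w)) * Pr q (BadZ w t ρ₁) := by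
  classical
  obtain ⟨Λ, hΛ⟩ := exists_fin (8 * w)
  have hsub : ball (0 : Vert) (2 * w) ⊆ ball 0 (8 * w) := ball_mono' (by omega)
  have hbad : LocS (vE (ball 0 (8 * w) \ ball 0 (2 * w))) (BadZ w t ρ₁) := by
    have key : ∀ z ∈ sphere (0 : Vert) (8 * w), ∀ ω ω' : Config,
        (∀ f ∈ vE (ball 0 (8 * w) \ ball 0 (2 * w)), ω f = ω' f) →
        ∀ u v : Vert, Conn (sit ω) (ball 0 (8 * w) ∩ ball z ρ₁) u v →
          Conn (sit ω') (ball 0 (8 * w) ∩ ball z ρ₁) u v := by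
      intro z hz ω ω' h u v hc
      refine conn_congr (fun f hf => h f ⟨hf.1, hf.2.1, fun h0 => ?_⟩) hc
      have hf2 := hf.2.2
      obtain ⟨hz1, hz2⟩ := hz
      simp only [mem_ball, Prod.fst_zero, Prod.snd_zero] at h0 hf2 hz1 hz2
      push_cast at h0 hf2 hz1 hz2
      omega
    rintro ω ω' h ⟨z, hz, u, hu, u', hu', p, hp, p', hp', h1, h2, h3⟩
    exact ⟨z, hz, u, hu, u', hu', p, hp, p', hp', key z hz _ _ h _ _ h1, key z hz _ _ h _ _ h2,
      fun h4 => h3 (key z hz _ _ (fun f hf => (h f hf).symm) _ _ h4)⟩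
  refine Pool.Agent.H59.EX.indep_cond (Λ := Λ) (t := vE (ball 0 (2 * w))) ?_ (locS_four s _) ?_ ?_
  · exact locS_localOn (locS_four s (2 * w)) fun e he => Finset.mem_coe.2 (hΛ e (vE_mono hsub he))
  · exact locS_localOn hbad fun e he => Finset.mem_coe.2 (hΛ e (vE_mono Set.sdiff_subset he))
  · exact locS_mono hbad fun e he h => he.2.2 h.2

end Pool.Agent.H38.N59
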