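import Pool.Agent.H38.SK.N59.Defs

/-!
# The corridor lemma for site percolation

`pb π w` is the configuration `g ↦ w (π g)`.  Given a separated four-arm event, increasing events of
the sites of the corridor `C` and arbitrary events `H` of the sites which are neither in `C` nor in
or adjacent (in the domain) to the two clusters (with filled targets) can be added at the cost of
constant factors.
-/

set_option autoImplicit false

open MeasureTheory ProbabilityTheory unitInterval

namespace Pool.Agent.H38.N59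

open Pool.Agent.H89.Perc
open Pool.Agent.H83.SK (sv sit sit_true RSWreg)
open Pool.Agent.H59.EX (LocS inE touch clus closeS Side T Mouth Fence dom pb sat fkg_cond
  markov_indep)

theorem locS_mono {t t' : Set Edge} {A : Set Config} (h : LocS t A) (ht : t ⊆ t') :
    LocS t' A := fun _ _ hw => h _ _ fun e he => hw e (ht he)

theorem locS_inter {t : Set Edge} {A B : Set Config} (h : LocS t A) (h' : LocS t B) :
    LocS t (A ∩ B) := fun w w' hw hm => ⟨h w w' hw hm.1, h' w w' hw hm.2⟩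

theorem locS_localOn {t : Set Edge} {Λ : Finset Edge} {A : Set Config} (h : LocS t A)
    (ht : t ⊆ ↑Λ) : LocalOn Λ A := fun w w' hw => h w w' fun e he => hw e (by exact_mod_cast ht he)

private theorem locS_pb {π : Edge → Edge} {t : Set Edge} {A : Set Config} (h : LocS t A) :
    LocS (π '' t) {w | pb π w ∈ A} := fun _ _ hw hm =>
  h _ _ (fun e he => hw (π e) ⟨e, he, rfl⟩) hm

private theorem incr_pb {π : Edge → Edge} {A : Set Config} (h : Incr A) :
    Incr {w | pb π w ∈ A} := fun _ _ hw hm => h _ _ (fun e he => hw (π e) he) hm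

theorem vE_finite {S : Set Vert} (hS : S.Finite) : (vE S).Finite := by
  refine (hS.image sv).subset ?_
  rintro ⟨a, b, t⟩ ⟨h1, h2⟩
  refine ⟨(a, b), h2, ?_⟩
  have h3 : t = false := h1
  simp [sv, h3]

private theorem rect_finite (a b c d : ℤ) : (rect a b c d).Finite := by
  refine Set.Finite.subset ((Set.finite_Icc a b).prod (Set.finite_Icc c d)) ?_
  rintro ⟨x, y⟩ ⟨h1, h2, h3, h4⟩
  exact ⟨⟨h1, h2⟩, ⟨h3, h4⟩⟩

private theorem T_finite (d : Side) (k : ℕ) : (T d k).Finite := by
  cases d <;> exact rect_finite _ _ _ _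

theorem dom_finite (d d' : Side) (k : ℕ) : (dom d d' k).Finite :=
  (rect_finite _ _ _ _).union ((T_finite d k).union (T_finite d' k))

private theorem touch_mono {D S S' : Set Vert} (h : S ⊆ S') : touch D S ⊆ touch D S' :=
  fun _ he => ⟨he.1, he.2.imp (fun x => h x) fun x => h x⟩

theorem rv_mono {D S S' : Set Vert} (h : S ⊆ S') : rv D S ⊆ rv D S' :=
  en_mono (touch_mono h)

/-- A path only looks at the sites determined by the cluster. -/
theorem conn_congr_rv {w w' : Config} {D : Set Vert} {x v : Vert}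
    (h : ∀ g ∈ rv D (clus (sit w) D {x}), w g = w' g) (hc : Conn (sit w) D x v) :
    Conn (sit w') D x v := by
  have h1 : v ∈ clus (sit w) D {x} := ⟨x, rfl, hc⟩
  have h2 : clus (sit w') D {x} = clus (sit w) D {x} :=
    locS_clus D {x} (clus (sit w) D {x}) w w' h rfl
  rw [← h2] at h1
  obtain ⟨y, hy, h3⟩ := h1
  rw [Set.mem_singleton_iff.1 hy] at h3
  exact h3

/-- A fence only looks at the sites of its target and at the sites determined by the cluster. -/
theorem fence_congr_rv {d : Side} {k : ℕ} {w w' : Config} {D : Set Vert} {x : Vert}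
    (h1 : ∀ g ∈ vE (T d k), w g = w' g) (h2 : ∀ g ∈ rv D (clus (sit w) D {x}), w g = w' g)
    (h : Fence d k (sit w) D x) : Fence d k (sit w') D x := by
  cases d <;> obtain ⟨u, v, hu, hv, k1, k2⟩ := h <;>
    exact ⟨u, v, hu, hv, conn_congr h1 k1, conn_congr_rv h2 k2⟩

private theorem fence_mono {d : Side} {k : ℕ} {w w' : Config} {D : Set Vert} {x : Vert}
    (h1 : ∀ g, w g = true → w' g = true) (h : Fence d k (sit w) D x) : Fence d k (sit w') D x :=
  Pool.Agent.H59.EX.fence_mono le_rfl (sit_mono h1) h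

/-- The part of `Sep` about the filled configuration. -/
private def SepA (s : Src) (d d' : Side) (k : ℕ) : Set Config :=
  {w | ¬ Conn (sit (s.ful d d' k w)) (dom d d' k) s.x s.y ∧
    (∀ v ∈ sphere 0 (32 * k), Conn (sit (s.ful d d' k w)) (dom d d' k) s.x v → v ∈ Mouth d k) ∧
    (∀ v ∈ sphere 0 (32 * k), Conn (sit (s.ful d d' k w)) (dom d d' k) s.y v → v ∈ Mouth d' k)}

/-- The increasing part of `Sep`. -/
private def SepG (s : Src) (d d' : Side) (k : ℕ) : Set Config :=
  {w | Fence d k (sit (s.cut w)) (dom d d' k) s.x ∧ Fence d' k (sit (s.cut w)) (dom d d' k) s.y}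

private theorem sep_eq (s : Src) (d d' : Side) (k : ℕ) :
    Sep s d d' k = SepA s d d' k ∩ SepG s d d' k := by
  ext w
  simp only [Sep, SepA, SepG, Set.mem_ofPred_eq, Set.mem_inter_iff]
  tauto

private theorem T_sub_dom (d d' : Side) (k : ℕ) : T d k ⊆ dom d d' k := fun _ h => Or.inr (Or.inl h)

private theorem T_sub_dom' (d d' : Side) (k : ℕ) : T d' k ⊆ dom d d' k :=
  fun _ h => Or.inr (Or.inr h)

private theorem locS_sepA (s : Src) (d d' : Side) (k : ℕ) :
    LocS (vE (dom d d' k) \ vE (T d k ∪ T d' k)) (SepA s d d' k) := by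
  rintro w w' h ⟨h1, h2, h3⟩
  have key : ∀ g ∈ vE (dom d d' k), s.ful d d' k w' g = s.ful d d' k w g := fun g hg =>
    fill_congr fun hne => (cut_congr (h g ⟨hg, hne⟩)).symm
  exact ⟨fun hc => h1 (conn_congr key hc), fun v hv hc => h2 v hv (conn_congr key hc),
    fun v hv hc => h3 v hv (conn_congr key hc)⟩

private theorem locS_sepG (s : Src) (d d' : Side) (k : ℕ) :
    LocS (vE (dom d d' k)) (SepG s d d' k) := by
  rintro w w' h ⟨h1, h2⟩
  have key : ∀ g ∈ vE (dom d d' k), s.cut w g = s.cut w' g := fun g hg => cut_congr (h g hg)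
  exact ⟨fence_congr (fun g hg => key g (vE_mono (T_sub_dom d d' k) hg)) key h1,
    fence_congr (fun g hg => key g (vE_mono (T_sub_dom' d d' k) hg)) key h2⟩

private theorem incr_sepG (s : Src) (d d' : Side) (k : ℕ) : Incr (SepG s d d' k) := by
  rintro w w' h ⟨h1, h2⟩
  exact ⟨fence_mono (cut_incr h) h1, fence_mono (cut_incr h) h2⟩

theorem locS_sep (s : Src) (d d' : Side) (k : ℕ) : LocS (vE (dom d d' k)) (Sep s d d' k) := by
  rw [sep_eq]
  exact locS_inter (locS_mono (locS_sepA s d d' k) Set.sdiff_subset) (locS_sepG s d d' k)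

theorem locS_FX (s : Src) (d d' : Side) (k : ℕ) (S : Set Vert) :
    LocS (rv (dom d d' k) S) {w | FX s d d' k w = S} :=
  fun _ _ h hw => clus_fill_congr (fun g hg _ => h g hg) hw

theorem locS_FY (s : Src) (d d' : Side) (k : ℕ) (S : Set Vert) :
    LocS (rv (dom d d' k) S) {w | FY s d d' k w = S} :=
  fun _ _ h hw => clus_fill_congr (fun g hg _ => h g hg) hw

private theorem clus_cut_sub {s : Src} {w : Config} {Z D X : Set Vert} :
    clus (sit (s.cut w)) D X ⊆ clus (sit (fillS Z (s.cut w))) D X := by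
  rintro v ⟨x, hx, hc⟩
  exact ⟨x, hx, conn_mono le_rfl (fun g hg => le_fillS hg) hc⟩

theorem mem_FX {s : Src} {d d' : Side} {k : ℕ} {w : Config} {v : Vert} :
    v ∈ FX s d d' k w ↔ Conn (sit (s.ful d d' k w)) (dom d d' k) s.x v := by
  simp [FX, clus]

theorem mem_FY {s : Src} {d d' : Side} {k : ℕ} {w : Config} {v : Vert} :
    v ∈ FY s d d' k w ↔ Conn (sit (s.ful d d' k w)) (dom d d' k) s.y v := by
  simp [FY, clus]

/-- Once the two clusters are known, `Sep` is decided by the sites of the clusters, their neighbours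
and the sites of the targets. -/
private theorem locS_sep_val (s : Src) (d d' : Side) (k : ℕ) {C : Set Vert}
    (hCT : T d k ∪ T d' k ⊆ C) (S S' : Set Vert) :
    LocS (rv (dom d d' k) (S ∪ S') ∪ vE C)
      {w | w ∈ Sep s d d' k ∧ FX s d d' k w = S ∧ FY s d d' k w = S'} := by
  rintro w w' h ⟨⟨h1, h2, h3, h4, h5⟩, hX, hY⟩
  have hX' : FX s d d' k w' = S := locS_FX s d d' k S w w'
    (fun e he => h e (Or.inl (rv_mono Set.subset_union_left he))) hX
  have hY' : FY s d d' k w' = S' := locS_FY s d d' k S' w w'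
    (fun e he => h e (Or.inl (rv_mono Set.subset_union_right he))) hY
  have cX : ∀ v, Conn (sit (s.ful d d' k w')) (dom d d' k) s.x v →
      Conn (sit (s.ful d d' k w)) (dom d d' k) s.x v := fun v hv => by
    rw [← mem_FX] at hv ⊢
    rw [hX]
    rw [hX'] at hv
    exact hv
  have cY : ∀ v, Conn (sit (s.ful d d' k w')) (dom d d' k) s.y v →
      Conn (sit (s.ful d d' k w)) (dom d d' k) s.y v := fun v hv => by
    rw [← mem_FY] at hv ⊢
    rw [hY]
    rw [hY'] at hv
    exact hv
  refine ⟨⟨?_, ?_, fun hc => h3 (cX _ hc), fun v hv hc => h4 v hv (cX _ hc),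
    fun v hv hc => h5 v hv (cY _ hc)⟩, hX', hY'⟩
  · refine fence_congr_rv (fun g hg => cut_congr (h g (Or.inr ?_))) (fun g hg => cut_congr
      (h g (Or.inl ?_))) h1
    · exact vE_mono (fun v hv => hCT (Or.inl hv)) hg
    · refine rv_mono (fun v hv => Or.inl ?_) hg
      rw [← hX]
      exact clus_cut_sub hv
  · refine fence_congr_rv (fun g hg => cut_congr (h g (Or.inr ?_))) (fun g hg => cut_congr
      (h g (Or.inl ?_))) h2
    · exact vE_mono (fun v hv => hCT (Or.inr hv)) hg
    · refine rv_mono (fun v hv => Or.inr ?_) hg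
      rw [← hY]
      exact clus_cut_sub hv

theorem corridor_prob {q : I} {π : Edge → Edge} {s : Src} {d d' : Side} {k : ℕ}
    {C : Set Vert} {Np : Set Config} {H : Set Vert → Set Config} {c₁ c₂ : ℝ}
    (hc₂ : 0 ≤ c₂) (hinj : Set.InjOn π (vE (dom d d' k ∪ C)))
    (hCT : T d k ∪ T d' k ⊆ C) (hC : C ∩ dom d d' k ⊆ T d k ∪ T d' k) (hCf : C.Finite)
    (hN : LocS (vE C) Np) (iN : Incr Np) (hN1 : c₁ ≤ Pr q {w | pb π w ∈ Np})
    (hH : ∀ S, LocS (det π d d' k C S)ᶜ (H S))
    (hHΛ : ∃ Λ : Finset Edge, ∀ S, LocalOn Λ (H S))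
    (hH1 : ∀ S, c₂ ≤ Pr q {w | pb π w ∈ H S}) :
    c₁ * c₂ * Pr q (Sep s d d' k) ≤
      Pr q {w | pb π w ∈ Sep s d d' k ∧ pb π w ∈ Np ∧
        pb π w ∈ H (FX s d d' k (pb π w) ∪ FY s d d' k (pb π w))} := by
  classical
  obtain ⟨ΛH, hΛH⟩ := hHΛ
  have hfin : (vE (dom d d' k ∪ C)).Finite := vE_finite ((dom_finite d d' k).union hCf)
  obtain ⟨Λ, hΛ⟩ : ∃ Λ : Finset Edge, Λ = (hfin.toFinset ∪ ΛH).image π := ⟨_, rfl⟩
  have hsub : ∀ t : Set Edge, t ⊆ vE (dom d d' k ∪ C) → π '' t ⊆ ↑Λ := by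
    rintro t ht _ ⟨e, he, rfl⟩
    rw [hΛ, Finset.mem_coe]
    exact Finset.mem_image_of_mem _ (Finset.mem_union_left _ (hfin.mem_toFinset.2 (ht he)))
  have hloc : ∀ {t : Set Edge} {A : Set Config}, LocS t A → t ⊆ vE (dom d d' k ∪ C) →
      LocalOn Λ {w | pb π w ∈ A} := fun h ht => locS_localOn (locS_pb h) (hsub _ ht)
  have hdomsub : vE (dom d d' k) ⊆ vE (dom d d' k ∪ C) := vE_mono Set.subset_union_left
  have hCsub : vE C ⊆ vE (dom d d' k ∪ C) := vE_mono Set.subset_union_right
  have hrvsub : ∀ S, rv (dom d d' k) S ⊆ vE (dom d d' k ∪ C) := fun S => rv_sub.trans hdomsub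
  have hZdom : vE (dom d d' k) \ vE (T d k ∪ T d' k) ⊆ vE (dom d d' k ∪ C) :=
    fun e he => hdomsub he.1
  -- Step A
  have hA : c₁ * Pr q (Sep s d d' k) ≤
      Pr q {w | pb π w ∈ Sep s d d' k ∧ pb π w ∈ Np} := by
    have hdisj : π '' vE C ⊆ (π '' (vE (dom d d' k) \ vE (T d k ∪ T d' k)))ᶜ := by
      rintro _ ⟨e, he, rfl⟩ ⟨e', he', heq⟩
      have h1 : e' = e := hinj (hdomsub he'.1) (hCsub he) heq
      subst h1
      exact he'.2 ⟨he.1, hC ⟨he.2, he'.1.2⟩⟩
    have h1 := fkg_cond (q := q) (Λ := Λ)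
      (t := π '' (vE (dom d d' k) \ vE (T d k ∪ T d' k)))
      (A := {w | pb π w ∈ SepA s d d' k}) (G := {w | pb π w ∈ SepG s d d' k})
      (H := {w | pb π w ∈ Np})
      (hloc (locS_sepA s d d' k) hZdom) (locS_pb (locS_sepA s d d' k))
      (hloc (locS_sepG s d d' k) hdomsub) (incr_pb (incr_sepG s d d' k))
      (hloc hN hCsub) (locS_mono (locS_pb hN) hdisj) (incr_pb iN)
    have h2 : {w | pb π w ∈ SepA s d d' k} ∩ {w | pb π w ∈ SepG s d d' k} =
        {w | pb π w ∈ Sep s d d' k} := by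
      rw [sep_eq]; rfl
    have h3 : Pr q {w | pb π w ∈ Sep s d d' k} = Pr q (Sep s d d' k) := by
      have hl : LocalOn (vE_finite (dom_finite d d' k)).toFinset (Sep s d d' k) :=
        locS_localOn (locS_sep s d d' k) (by simp)
      refine Pr_comp hl ?_
      intro e he e' he' heq
      rw [Set.Finite.coe_toFinset] at he he'
      exact hinj (hdomsub he) (hdomsub he') heq
    rw [h2, h3] at h1
    calc c₁ * Pr q (Sep s d d' k) ≤ Pr q (Sep s d d' k) * Pr q {w | pb π w ∈ Np} := by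
          rw [mul_comm]
          exact mul_le_mul_of_nonneg_left hN1 Pr_nonneg
      _ ≤ _ := h1
      _ ≤ _ := Pr_mono fun w hw => hw
  -- Step B
  have hB := markov_indep (q := q) (Λ := Λ) (c := c₂)
    (fun w => (FX s d d' k (pb π w), FY s d d' k (pb π w))) (fun _ => True)
    (fun i => π '' (rv (dom d d' k) (i.1 ∪ i.2) ∪ vE C))
    (fun i => {w | pb π w ∈ {η | η ∈ Sep s d d' k ∧ FX s d d' k η = i.1 ∧ FY s d d' k η = i.2} ∩ Np})
    (fun i => {w | pb π w ∈ H (i.1 ∪ i.2)}) ?_ ?_ ?_ ?_ ?_ ?_ ?_ hc₂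
  · refine le_trans ?_ (hB.trans (Pr_mono ?_))
    · have e : c₁ * c₂ * Pr q (Sep s d d' k) = c₂ * (c₁ * Pr q (Sep s d d' k)) := by ring
      rw [e]
      refine (mul_le_mul_of_nonneg_left hA hc₂).trans
        (mul_le_mul_of_nonneg_left (Pr_mono ?_) hc₂)
      intro w hw
      exact ⟨trivial, ⟨hw.1, rfl, rfl⟩, hw.2⟩
    · intro w hw
      exact ⟨hw.2.1.1.1, hw.2.1.2, hw.2.2⟩
  · -- the values are local
    rintro ⟨S, S'⟩
    have h1 : LocS (vE (dom d d' k)) {η | FX s d d' k η = S ∧ FY s d d' k η = S'} :=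
      fun w w' h hw => ⟨locS_FX s d d' k S w w' (fun e he => h e (rv_sub he)) hw.1,
        locS_FY s d d' k S' w w' (fun e he => h e (rv_sub he)) hw.2⟩
    have h2 := hloc h1 hdomsub
    have h3 : {w | (FX s d d' k (pb π w), FY s d d' k (pb π w)) = (S, S')} =
        {w | pb π w ∈ {η | FX s d d' k η = S ∧ FY s d d' k η = S'}} := by
      ext w
      simp only [Set.mem_ofPred_eq, Prod.mk.injEq]
    rw [h3]
    exact h2
  · rintro ⟨S, S'⟩ -
    have h1 : LocS (rv (dom d d' k) (S ∪ S') ∪ vE C)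
        {η | FX s d d' k η = S ∧ FY s d d' k η = S'} :=
      fun w w' h hw => ⟨locS_FX s d d' k S w w'
          (fun e he => h e (Or.inl (rv_mono Set.subset_union_left he))) hw.1,
        locS_FY s d d' k S' w w'
          (fun e he => h e (Or.inl (rv_mono Set.subset_union_right he))) hw.2⟩
    have h2 := locS_pb (π := π) h1
    have h3 : {w | (FX s d d' k (pb π w), FY s d d' k (pb π w)) = (S, S')} =
        {w | pb π w ∈ {η | FX s d d' k η = S ∧ FY s d d' k η = S'}} := by
      ext w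
      simp only [Set.mem_ofPred_eq, Prod.mk.injEq]
    rw [h3]
    exact h2
  · rintro ⟨S, S'⟩
    refine hloc (t := rv (dom d d' k) (S ∪ S') ∪ vE C) ?_ ?_
    · exact locS_inter (locS_sep_val s d d' k hCT S S') (locS_mono hN Set.subset_union_right)
    · rintro e (he | he)
      · exact hrvsub _ he
      · exact hCsub he
  · rintro ⟨S, S'⟩ -
    exact locS_pb (locS_inter (locS_sep_val s d d' k hCT S S')
      (locS_mono hN Set.subset_union_right))
  · rintro ⟨S, S'⟩ w w' h hw
    refine hΛH (S ∪ S') _ _ (fun e he => h (π e) ?_) hw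
    rw [hΛ]
    exact Finset.mem_image_of_mem _ (Finset.mem_union_right _ he)
  · rintro ⟨S, S'⟩ - w w' h hw
    refine hH (S ∪ S') _ _ (fun e he => h (π e) ?_) hw
    rintro ⟨e', he', heq⟩
    exact he ⟨e', he', heq.symm⟩
  · rintro ⟨S, S'⟩ -
    exact hH1 (S ∪ S')

end Pool.Agent.H38.N59
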