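import Pool.Agent.H83.SK.Base
import Pool.Agent.H59.EX.Fact

/-!
# Separated four-arm events for site percolation: definitions

Everything is at the level of the sites: a configuration `w` gives the states of the sites, stored
at the coordinates `sv v`; `sit w` is the induced bond configuration.  Filling a set `Z` means
opening the sites of `Z`.
-/

set_option autoImplicit false

open MeasureTheory ProbabilityTheory unitInterval

namespace Pool.Agent.H38.N59

open Pool.Agent.H89.Perc
open Pool.Agent.H83.SK (sv sit sit_true)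
open Pool.Agent.H59.EX (LocS inE touch clus closeS Side T Mouth Fence dom)

/-- The coordinates of the sites of `S`. -/
def vE (S : Set Vert) : Set Edge := {g | g.2.2 = false ∧ src g ∈ S}

/-- The coordinates of the end points of the edges of `t`. -/
def en (t : Set Edge) : Set Edge := {g | ∃ e ∈ t, g = sv (src e) ∨ g = sv (tgt e)}

/-- The sites which are determined when the cluster `S` in the domain `D` is known. -/
def rv (D S : Set Vert) : Set Edge := en (touch D S)

/-- Open the sites of `Z`. -/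
noncomputable def fillS (Z : Set Vert) (w : Config) : Config := fun e => by
  classical exact w e || decide (e ∈ vE Z)

/-- A source: two points near the origin and a finite set of closed sites near the origin. -/
structure Src where
  /-- first point -/
  x : Vert
  /-- second point -/
  y : Vert
  /-- closed sites -/
  V0 : Finset Vert
  hx : x ∈ ball 0 2
  hy : y ∈ ball 0 2
  hV : ∀ v ∈ V0, v ∈ ball 0 2

/-- The configuration with the sites of the source closed. -/
noncomputable def Src.cut (s : Src) (w : Config) : Config := closeS (vE (s.V0 : Set Vert)) w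

/-- Four-arm event of a source: both points are joined to the sphere of radius `r` and not to each
other, in `ball 0 r`. -/
def Four (s : Src) (r : ℕ) : Set Config :=
  {w | (∃ u ∈ sphere 0 r, Conn (sit (s.cut w)) (ball 0 r) s.x u) ∧
    (∃ u ∈ sphere 0 r, Conn (sit (s.cut w)) (ball 0 r) s.y u) ∧
    ¬ Conn (sit (s.cut w)) (ball 0 r) s.x s.y}

/-- The configuration with the two target rectangles filled. -/
noncomputable def Src.ful (s : Src) (d d' : Side) (k : ℕ) (w : Config) : Config :=
  fillS (T d k ∪ T d' k) (s.cut w)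

/-- Separated four-arm event. -/
def Sep (s : Src) (d d' : Side) (k : ℕ) : Set Config :=
  {w | Fence d k (sit (s.cut w)) (dom d d' k) s.x ∧ Fence d' k (sit (s.cut w)) (dom d d' k) s.y ∧
    ¬ Conn (sit (s.ful d d' k w)) (dom d d' k) s.x s.y ∧
    (∀ v ∈ sphere 0 (32 * k), Conn (sit (s.ful d d' k w)) (dom d d' k) s.x v → v ∈ Mouth d k) ∧
    (∀ v ∈ sphere 0 (32 * k), Conn (sit (s.ful d d' k w)) (dom d d' k) s.y v → v ∈ Mouth d' k)}

/-- Cluster of the first point with filled targets. -/
noncomputable def FX (s : Src) (d d' : Side) (k : ℕ) (w : Config) : Set Vert :=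
  clus (sit (s.ful d d' k w)) (dom d d' k) {s.x}

/-- Cluster of the second point with filled targets. -/
noncomputable def FY (s : Src) (d d' : Side) (k : ℕ) (w : Config) : Set Vert :=
  clus (sit (s.ful d d' k w)) (dom d d' k) {s.y}

/-- The determined sites. -/
def det (π : Edge → Edge) (d d' : Side) (k : ℕ) (C S : Set Vert) : Set Edge :=
  Pool.Agent.H59.EX.sat π (rv (dom d d' k) S ∪ vE C)

/-- With the sites of `t` closed, no path leads from `ball g ρ` out of `ball g (3 ρ)`, for all
centres `g ∈ G`. -/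
def Seal (G : Finset Vert) (ρ : ℕ) (t : Set Edge) : Set Config :=
  {w | ∀ g ∈ G, ∀ u ∈ ball g ρ, ∀ v, v ∉ ball g (3 * ρ) → ¬ Conn (sit (closeS t w)) Set.univ u v}

/-! ### Elementary facts -/

variable {w w' η : Config} {D X S Z V : Set Vert} {t t' : Set Edge} {a b x : Vert} {e g : Edge}

@[simp] theorem sv_mem_vE : sv a ∈ vE S ↔ a ∈ S := by
  simp [vE, sv, src]

theorem vE_mono (h : S ⊆ Z) : vE S ⊆ vE Z := fun _ he => ⟨he.1, h he.2⟩

theorem en_mono (h : t ⊆ t') : en t ⊆ en t' := by
  rintro g ⟨e, he, h1⟩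
  exact ⟨e, h he, h1⟩

theorem en_union : en (t ∪ t') = en t ∪ en t' := by
  ext g
  constructor
  · rintro ⟨e, he | he, h⟩
    · exact Or.inl ⟨e, he, h⟩
    · exact Or.inr ⟨e, he, h⟩
  · rintro (⟨e, he, h⟩ | ⟨e, he, h⟩)
    · exact ⟨e, Or.inl he, h⟩
    · exact ⟨e, Or.inr he, h⟩

theorem en_inE : en (inE S) ⊆ vE S := by
  rintro g ⟨e, he, rfl | rfl⟩
  · exact sv_mem_vE.2 he.1
  · exact sv_mem_vE.2 he.2

theorem rv_sub : rv D S ⊆ vE D := by
  rintro g ⟨e, he, rfl | rfl⟩
  · exact sv_mem_vE.2 he.1.1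
  · exact sv_mem_vE.2 he.1.2

theorem sit_joins (hj : Joins e a b) : sit w e = true ↔ w (sv a) = true ∧ w (sv b) = true := by
  rw [sit_true]
  rcases hj with ⟨h1, h2⟩ | ⟨h1, h2⟩ <;> rw [h1, h2]
  exact and_comm

theorem fillS_true : fillS Z w g = true ↔ w g = true ∨ g ∈ vE Z := by
  classical
  unfold fillS
  rw [Bool.or_eq_true, decide_eq_true_iff]

theorem fill_sv : fillS Z w (sv a) = true ↔ w (sv a) = true ∨ a ∈ Z := by
  rw [fillS_true, sv_mem_vE]

theorem closeS_true : closeS t w g = true ↔ w g = true ∧ g ∉ t :=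
  Pool.Agent.H59.EX.closeS_true

theorem cut_sv {s : Src} : s.cut w (sv a) = true ↔ w (sv a) = true ∧ a ∉ s.V0 := by
  unfold Src.cut
  rw [closeS_true, sv_mem_vE, Finset.mem_coe]

theorem cut_le {s : Src} (h : s.cut w g = true) : w g = true := by
  unfold Src.cut at h
  exact (closeS_true.1 h).1

theorem fillS_mono (hZ : S ⊆ Z) : fillS S w g = true → fillS Z w g = true := by
  rw [fillS_true, fillS_true]
  rintro (h | h)
  · exact Or.inl h
  · exact Or.inr (vE_mono hZ h)

theorem le_fillS (h : w g = true) : fillS Z w g = true := fillS_true.2 (Or.inl h)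

theorem cut_congr {s : Src} (h : w g = w' g) : s.cut w g = s.cut w' g := by
  unfold Src.cut closeS
  rw [h]

theorem cut_incr {s : Src} (h : ∀ g, w g = true → w' g = true) (g : Edge)
    (hg : s.cut w g = true) : s.cut w' g = true := by
  unfold Src.cut at hg ⊢
  rw [closeS_true] at hg ⊢
  exact ⟨h g hg.1, hg.2⟩

theorem fill_congr (h : g ∉ vE Z → w g = w' g) : fillS Z w g = fillS Z w' g := by
  by_cases hg : g ∈ vE Z
  · simp [fillS, hg]
  · simp [fillS, hg, h hg]

theorem sit_congr (h : ∀ g ∈ en t, w g = w' g) (he : e ∈ t) : sit w e = sit w' e := by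
  unfold sit
  rw [h _ ⟨e, he, Or.inl rfl⟩, h _ ⟨e, he, Or.inr rfl⟩]

theorem sit_congr' (h : ∀ g ∈ vE S, w g = w' g) (h1 : src e ∈ S) (h2 : tgt e ∈ S) :
    sit w e = sit w' e := by
  unfold sit
  rw [h _ (sv_mem_vE.2 h1), h _ (sv_mem_vE.2 h2)]

theorem sit_mono (h : ∀ g, w g = true → w' g = true) (e : Edge) (he : sit w e = true) :
    sit w' e = true := Pool.Agent.H83.SK.sit_mono h e he

/-- Local events of the induced configuration. -/
theorem locS_sit {A : Set Config} (h : LocS t A) : LocS (en t) {w | sit w ∈ A} :=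
  fun _ _ hw hA => h _ _ (fun _ he => sit_congr hw he) hA

theorem locS_sit_inE {A : Set Config} (h : LocS (inE S) A) : LocS (vE S) {w | sit w ∈ A} :=
  fun _ _ hw hA => h _ _ (fun _ he => sit_congr' hw he.1 he.2) hA

theorem incr_sit {A : Set Config} (h : Incr A) : Incr {w | sit w ∈ A} :=
  fun _ _ hw hA => h _ _ (sit_mono hw) hA

theorem conn_congr (h : ∀ g ∈ vE D, w g = w' g) (hc : Conn (sit w) D a b) :
    Conn (sit w') D a b :=
  hc.congr fun _ h1 h2 => sit_congr' h h1 h2

theorem conn_mono {D' : Set Vert} (hD : D ⊆ D') (h : ∀ g, w g = true → w' g = true)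
    (hc : Conn (sit w) D a b) : Conn (sit w') D' a b :=
  hc.mono hD (sit_mono h)

theorem clus_congr (h : ∀ g ∈ vE D, w g = w' g) : clus (sit w) D X = clus (sit w') D X := by
  ext v
  constructor
  · rintro ⟨x, hx, hc⟩
    exact ⟨x, hx, conn_congr h hc⟩
  · rintro ⟨x, hx, hc⟩
    exact ⟨x, hx, conn_congr (fun g hg => (h g hg).symm) hc⟩

theorem mem_rv (hj : Joins e a b) (ha : a ∈ D) (hb : b ∈ D) (h : a ∈ S ∨ b ∈ S) :
    sv a ∈ rv D S := by
  have h1 : e ∈ touch D S := (Pool.Agent.H59.EX.touch_of_joins hj).2 ⟨⟨ha, hb⟩, h⟩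
  rcases hj with ⟨h2, h3⟩ | ⟨h2, h3⟩
  · exact ⟨e, h1, Or.inl (by rw [h2])⟩
  · exact ⟨e, h1, Or.inr (by rw [h2])⟩

theorem of_mem_rv (h : sv b ∈ rv D S) : ∃ a e, Joins e a b ∧ a ∈ D ∧ b ∈ D ∧ (a ∈ S ∨ b ∈ S) := by
  obtain ⟨e, he, h1 | h1⟩ := h
  · have h2 := Pool.Agent.H83.SK.sv_injective h1
    rw [h2]
    exact ⟨tgt e, e, Or.inr ⟨rfl, rfl⟩, he.1.2, he.1.1, he.2.symm⟩
  · have h2 := Pool.Agent.H83.SK.sv_injective h1
    rw [h2]
    exact ⟨src e, e, Or.inl ⟨rfl, rfl⟩, he.1.1, he.1.2, he.2⟩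

/-- The cluster of an open site consists of open sites. -/
theorem open_of_clus (hx : η (sv x) = true) (h : a ∈ clus (sit η) D {x}) :
    η (sv a) = true := by
  have hc : Conn (sit η) D x a := Pool.Agent.H59.EX.mem_clus_single.1 h
  refine hc.induction_right (P := fun a => η (sv a) = true) hx ?_
  rintro a b _ ⟨-, -, e, hj, ho⟩ _
  exact ((sit_joins hj).1 ho).2

/-- The end points of a path between different vertices are open. -/
theorem open_of_conn (h : Conn (sit η) D a b) (hab : a ≠ b) : η (sv a) = true := by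
  obtain ⟨_, h2⟩ := h
  rcases Relation.ReflTransGen.cases_head h2 with h3 | ⟨c, h3, -⟩
  · exact absurd h3 hab
  · obtain ⟨-, -, e, hj, ho⟩ := h3
    exact ((sit_joins hj).1 ho).1

/-- Open neighbours of the cluster belong to the cluster. -/
theorem clus_adj (ha : a ∈ clus (sit η) D X) (hoa : η (sv a) = true) (hob : η (sv b) = true)
    (hj : Joins e a b) (hb : b ∈ D) : b ∈ clus (sit η) D X :=
  Pool.Agent.H59.EX.clus_step ha ⟨Pool.Agent.H59.EX.clus_sub ha, hb, e, hj,
    (sit_joins hj).2 ⟨hoa, hob⟩⟩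

/-- Open sites which are not in the cluster are not determined. -/
theorem not_mem_rv (hx : η (sv x) = true) (hb : b ∉ clus (sit η) D {x})
    (hob : η (sv b) = true) : sv b ∉ rv D (clus (sit η) D {x}) := by
  intro h
  obtain ⟨a, e, hj, ha, hbD, h1⟩ := of_mem_rv h
  have h2 := h1.resolve_right hb
  exact hb (clus_adj h2 (open_of_clus hx h2) hob hj hbD)

/-- The value of a cluster is determined by the sites of `rv D S`. -/
theorem locS_clus (D X S : Set Vert) : LocS (rv D S) {w | clus (sit w) D X = S} :=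
  locS_sit (Pool.Agent.H59.EX.locS_clus D X S)

/-- The same with the sites of `Z` filled. -/
theorem clus_fill_congr {s : Src} (h : ∀ g ∈ rv D S, g ∉ vE Z → w g = w' g)
    (hw : clus (sit (fillS Z (s.cut w))) D X = S) :
    clus (sit (fillS Z (s.cut w'))) D X = S :=
  locS_clus D X S _ _ (fun g hg => fill_congr fun hZ => cut_congr (h g hg hZ)) hw

theorem clus_cut_congr {s : Src} (h : ∀ g ∈ rv D S, w g = w' g)
    (hw : clus (sit (s.cut w)) D X = S) : clus (sit (s.cut w')) D X = S :=
  locS_clus D X S _ _ (fun g hg => cut_congr (h g hg)) hw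

/-- Filled sets are connected. -/
theorem conn_fillS (hZ : Z ⊆ D) (h : Conn allOpen Z a b) : Conn (sit (fillS Z w)) D a b := by
  refine h.induction_right (P := fun b => Conn (sit (fillS Z w)) D a b)
    (Conn.refl (hZ h.mem_left)) ?_
  rintro a' b' _ ⟨h1, h2, e, he, _⟩ h3
  exact h3.tail ⟨hZ h1, hZ h2, e, he, (sit_joins he).2
    ⟨fill_sv.2 (Or.inr h1), fill_sv.2 (Or.inr h2)⟩⟩

/-- The configurations `w` and `s.cut w` agree off `ball 0 2`. -/
theorem cut_of_not_ball {s : Src} (h : a ∉ ball 0 2) : s.cut w (sv a) = w (sv a) := by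
  refine Bool.eq_iff_iff.2 ?_
  rw [cut_sv]
  exact ⟨fun h1 => h1.1, fun h1 => ⟨h1, fun h2 => h (s.hV a h2)⟩⟩

/-- If `x` is joined to `u` then the sites of the path are in the cluster of `x` in a bigger
configuration. -/
theorem conn_transfer {D S : Set Vert} {x u : Vert}
    (hS : ∀ a, Conn (sit w) D x a → a ∈ S) (h : ∀ a ∈ S, w (sv a) = w' (sv a))
    (hc : Conn (sit w) D x u) : Conn (sit w') D x u := by
  refine hc.induction_right (P := fun u => Conn (sit w') D x u) (Conn.refl hc.mem_left) ?_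
  rintro a b hxa ⟨ha, hb, e, hj, ho⟩ ih
  have h1 := hS a hxa
  have h2 := hS b (hxa.tail ⟨ha, hb, e, hj, ho⟩)
  refine ih.tail ⟨ha, hb, e, hj, ?_⟩
  rw [sit_joins hj] at ho ⊢
  rw [← h a h1, ← h b h2]
  exact ho

theorem fence_congr {d : Side} {k : ℕ} {x : Vert} (hT : ∀ g ∈ vE (T d k), w g = w' g)
    (hD : ∀ g ∈ vE D, w g = w' g) (h : Fence d k (sit w) D x) : Fence d k (sit w') D x :=
  Pool.Agent.H59.EX.fence_congr (fun _ he => sit_congr' hT he.1 he.2)
    (fun _ he => sit_congr' hD he.1 he.2) h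

end Pool.Agent.H38.N59
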