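import Pool.Agent.H83.SK.Base
import Pool.Agent.H59.EX.GeoP
import Pool.Agent.H83.SK.P29.Rect
import Pool.Agent.H83.SK.P29.CircProb

/-!
# Probability of the crossing events of the corridors
-/

open MeasureTheory ProbabilityTheory unitInterval

namespace Pool.Agent.H83.SK.NG

open Pool.Agent.H59.EX

open Pool.Agent.H89.Perc Pool.Agent.H61.NC
open Pool.Agent.H29.Sep (Circ incr_circ localOn_circ)

namespace GeoQ

/-- A local increasing event of probability at least `c`. -/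
def Gd (q : I) (c : ℝ) (A : Set Config) : Prop :=
  0 ≤ c ∧ (∃ s : Finset Edge, LocalOn s A) ∧ Incr A ∧ c ≤ Pr q A

theorem Gd.inter {q : I} {c c' : ℝ} {A B : Set Config} (hA : Gd q c A) (hB : Gd q c' B) :
    Gd q (c * c') (A ∩ B) := by
  classical
  obtain ⟨h0, ⟨s, hs⟩, iA, hp⟩ := hA
  obtain ⟨h0', ⟨t, ht⟩, iB, hp'⟩ := hB
  refine ⟨mul_nonneg h0 h0', ⟨s ∪ t, hs.inter' ht⟩, ?_, ?_⟩
  · exact fun ω ω' hω h => ⟨iA ω ω' hω h.1, iB ω ω' hω h.2⟩
  · exact (mul_le_mul hp hp' h0' (h0.trans hp)).trans (fkg hs ht iA iB)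

theorem gd_h {q : I} {c : ℝ} {a b y z : ℤ} (hc : 0 ≤ c) (h : c ≤ Pr q {ω | HCross ω a b y z}) :
    Gd q c {ω | HCross ω a b y z} :=
  ⟨hc, ⟨_, localOn_hcross a b y z⟩, GeoS.incr_h _ _ _ _, h⟩

theorem gd_v {q : I} {c : ℝ} {a b y z : ℤ} (hc : 0 ≤ c) (h : c ≤ Pr q {ω | VCross ω a b y z}) :
    Gd q c {ω | VCross ω a b y z} :=
  ⟨hc, ⟨_, localOn_vcross a b y z⟩, GeoS.incr_v _ _ _ _, h⟩

theorem gd_c {q : I} {c : ℝ} {v : Vert} {ρ : ℕ} (hc : 0 ≤ c) (h : c ≤ Pr q (Circ v ρ)) :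
    Gd q c (Circ v ρ) :=
  ⟨hc, ⟨_, localOn_circ v ρ⟩, incr_circ v ρ, h⟩

end GeoQ

open GeoQ

theorem prob_straight (c : ℝ) (hc : 0 < c) (K : ℕ) : ∃ c' : ℝ, 0 < c' ∧ ∀ (d : Side) (w ρ n : ℕ)
    (v : Vert) (q : I), 1 ≤ ρ → ρ ≤ w → w ≤ K * ρ → w ≤ n → OnSide d (8 * w) v → RSWreg c n q →
      c' ≤ Pr q (NS d w ρ v) := by
  obtain ⟨c1, hc1, H1⟩ := circ_lower c hc 1
  obtain ⟨c2, hc2, H2⟩ := rect_lower c hc (5 * K + 200)
  refine ⟨c1 * (c2 * (c2 * (c2 * c2))), by positivity, ?_⟩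
  intro d w ρ n v q hρ hρw hK hwn hv hreg
  have hn : 1 ≤ n := by omega
  have g1 := gd_c hc1.le (H1 n q hn hreg v ρ hρ (by omega))
  have eK : (w : ℤ) ≤ K * ρ := by exact_mod_cast hK
  have eK0 : (0 : ℤ) ≤ K := Int.natCast_nonneg K
  have eρ : (1 : ℤ) ≤ ρ := by exact_mod_cast hρ
  have ew : (ρ : ℤ) ≤ w := by exact_mod_cast hρw
  have en : (w : ℤ) ≤ n := by exact_mod_cast hwn
  have p1 : (0 : ℤ) ≤ K * n := by positivity
  have p2 : (0 : ℤ) ≤ K * w := by positivity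
  -- thin crossing
  have t1 : ∀ a y : ℤ, c2 ≤ Pr q {ω | HCross ω a (a + 9 * w) y (y + 2 * ρ)} ∧
      c2 ≤ Pr q {ω | VCross ω y (y + 2 * ρ) a (a + 9 * w)} := by
    intro a y
    refine H2 n q hn hreg a (a + 9 * w) y (y + 2 * ρ) (by omega) (by omega) ?_ ?_
    · push_cast
      nlinarith
    · push_cast
      nlinarith
  have t2 : ∀ a y : ℤ, c2 ≤ Pr q {ω | HCross ω a (a + 24 * w) y (y + w)} ∧
      c2 ≤ Pr q {ω | VCross ω y (y + w) a (a + 24 * w)} := by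
    intro a y
    refine H2 n q hn hreg a (a + 24 * w) y (y + w) (by omega) (by omega) ?_ ?_
    · push_cast
      nlinarith
    · push_cast
      nlinarith
  have t3 : ∀ a y : ℤ, c2 ≤ Pr q {ω | HCross ω a (a + 128 * w) y (y + 24 * w)} ∧
      c2 ≤ Pr q {ω | VCross ω y (y + 24 * w) a (a + 128 * w)} := by
    intro a y
    refine H2 n q hn hreg a (a + 128 * w) y (y + 24 * w) (by omega) (by omega) ?_ ?_
    · push_cast
      nlinarith
    · push_cast
      nlinarith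
  have t4 : ∀ a y : ℤ, c2 ≤ Pr q {ω | HCross ω a (a + 24 * w) y (y + 32 * w)} ∧
      c2 ≤ Pr q {ω | VCross ω y (y + 32 * w) a (a + 24 * w)} := by
    intro a y
    refine H2 n q hn hreg a (a + 24 * w) y (y + 32 * w) (by omega) (by omega) ?_ ?_
    · push_cast
      nlinarith
    · push_cast
      nlinarith
  cases d with
  | E =>
    have g2 := gd_h hc2.le (t1 (8 * w) (v.2 - ρ)).1
    have g3 := gd_v hc2.le (t2 (-(12 * w)) (16 * w)).2
    have g4 := gd_h hc2.le (t3 (16 * w) (-(12 * w))).1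
    have g5 := gd_v hc2.le (t4 (-(12 * w)) (112 * w)).2
    rw [show (8 * w + 9 * w : ℤ) = 17 * w by ring, show (v.2 - ρ + 2 * ρ : ℤ) = v.2 + ρ by ring] at g2
    rw [show (-(12 * w) + 24 * w : ℤ) = 12 * w by ring, show (16 * w + w : ℤ) = 17 * w by ring] at g3
    rw [show (-(12 * w) + 24 * w : ℤ) = 12 * w by ring,
      show (16 * w + 128 * w : ℤ) = 144 * w by ring] at g4
    rw [show (-(12 * w) + 24 * w : ℤ) = 12 * w by ring,
      show (112 * w + 32 * w : ℤ) = 144 * w by ring] at g5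
    exact (g1.inter (g2.inter (g3.inter (g4.inter g5)))).2.2.2
  | N =>
    have g2 := gd_v hc2.le (t1 (8 * w) (v.1 - ρ)).2
    have g3 := gd_h hc2.le (t2 (-(12 * w)) (16 * w)).1
    have g4 := gd_v hc2.le (t3 (16 * w) (-(12 * w))).2
    have g5 := gd_h hc2.le (t4 (-(12 * w)) (112 * w)).1
    rw [show (8 * w + 9 * w : ℤ) = 17 * w by ring, show (v.1 - ρ + 2 * ρ : ℤ) = v.1 + ρ by ring] at g2
    rw [show (-(12 * w) + 24 * w : ℤ) = 12 * w by ring, show (16 * w + w : ℤ) = 17 * w by ring] at g3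
    rw [show (-(12 * w) + 24 * w : ℤ) = 12 * w by ring,
      show (16 * w + 128 * w : ℤ) = 144 * w by ring] at g4
    rw [show (-(12 * w) + 24 * w : ℤ) = 12 * w by ring,
      show (112 * w + 32 * w : ℤ) = 144 * w by ring] at g5
    exact (g1.inter (g2.inter (g3.inter (g4.inter g5)))).2.2.2
  | W =>
    have g2 := gd_h hc2.le (t1 (-(17 * w)) (v.2 - ρ)).1
    have g3 := gd_v hc2.le (t2 (-(12 * w)) (-(17 * w))).2
    have g4 := gd_h hc2.le (t3 (-(144 * w)) (-(12 * w))).1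
    have g5 := gd_v hc2.le (t4 (-(12 * w)) (-(144 * w))).2
    rw [show (-(17 * w) + 9 * w : ℤ) = -(8 * w) by ring,
      show (v.2 - ρ + 2 * ρ : ℤ) = v.2 + ρ by ring] at g2
    rw [show (-(12 * w) + 24 * w : ℤ) = 12 * w by ring,
      show (-(17 * w) + w : ℤ) = -(16 * w) by ring] at g3
    rw [show (-(12 * w) + 24 * w : ℤ) = 12 * w by ring,
      show (-(144 * w) + 128 * w : ℤ) = -(16 * w) by ring] at g4
    rw [show (-(12 * w) + 24 * w : ℤ) = 12 * w by ring,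
      show (-(144 * w) + 32 * w : ℤ) = -(112 * w) by ring] at g5
    exact (g1.inter (g2.inter (g3.inter (g4.inter g5)))).2.2.2
  | S =>
    have g2 := gd_v hc2.le (t1 (-(17 * w)) (v.1 - ρ)).2
    have g3 := gd_h hc2.le (t2 (-(12 * w)) (-(17 * w))).1
    have g4 := gd_v hc2.le (t3 (-(144 * w)) (-(12 * w))).2
    have g5 := gd_h hc2.le (t4 (-(12 * w)) (-(144 * w))).1
    rw [show (-(17 * w) + 9 * w : ℤ) = -(8 * w) by ring,
      show (v.1 - ρ + 2 * ρ : ℤ) = v.1 + ρ by ring] at g2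
    rw [show (-(12 * w) + 24 * w : ℤ) = 12 * w by ring,
      show (-(17 * w) + w : ℤ) = -(16 * w) by ring] at g3
    rw [show (-(12 * w) + 24 * w : ℤ) = 12 * w by ring,
      show (-(144 * w) + 128 * w : ℤ) = -(16 * w) by ring] at g4
    rw [show (-(12 * w) + 24 * w : ℤ) = 12 * w by ring,
      show (-(144 * w) + 32 * w : ℤ) = -(112 * w) by ring] at g5
    exact (g1.inter (g2.inter (g3.inter (g4.inter g5)))).2.2.2

theorem prob_turn (c : ℝ) (hc : 0 < c) (K : ℕ) : ∃ c' : ℝ, 0 < c' ∧ ∀ (w ρ n : ℕ)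
    (v : Vert) (q : I), 1 ≤ ρ → ρ ≤ w → w ≤ K * ρ → w ≤ n → OnSide .E (8 * w) v → RSWreg c n q →
      c' ≤ Pr q (NTN w ρ v) ∧ c' ≤ Pr q (NTS w ρ v) := by
  obtain ⟨c1, hc1, H1⟩ := circ_lower c hc 1
  obtain ⟨c2, hc2, H2⟩ := rect_lower c hc (5 * K + 200)
  refine ⟨c1 * (c2 * (c2 * (c2 * (c2 * c2)))), by positivity, ?_⟩
  intro w ρ n v q hρ hρw hK hwn hv hreg
  obtain ⟨⟨hvb, -⟩, hv1⟩ := hv
  simp only [mem_ball, Prod.fst_zero, Prod.snd_zero] at hvb hv1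
  have hn : 1 ≤ n := by omega
  have g1 := gd_c hc1.le (H1 n q hn hreg v ρ hρ (by omega))
  have eK : (w : ℤ) ≤ K * ρ := by exact_mod_cast hK
  have eK0 : (0 : ℤ) ≤ K := Int.natCast_nonneg K
  have eρ : (1 : ℤ) ≤ ρ := by exact_mod_cast hρ
  have ew : (ρ : ℤ) ≤ w := by exact_mod_cast hρw
  have en : (w : ℤ) ≤ n := by exact_mod_cast hwn
  have p1 : (0 : ℤ) ≤ K * n := by positivity
  have p2 : (0 : ℤ) ≤ K * w := by positivity
  have g2 : Gd q c2 {ω | HCross ω (8 * w) (13 * w) (v.2 - ρ) (v.2 + ρ)} := by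
    refine gd_h hc2.le (H2 n q hn hreg _ _ _ _ (by omega) (by omega) ?_ ?_).1
    · push_cast
      nlinarith
    · push_cast
      nlinarith
  have r1 : ∀ a b y : ℤ, a ≤ b → b - a ≤ 132 * w →
      c2 ≤ Pr q {ω | HCross ω a b y (y + w)} ∧ c2 ≤ Pr q {ω | VCross ω y (y + w) a b} := by
    intro a b y hab hb
    refine H2 n q hn hreg a b y (y + w) hab (by omega) ?_ ?_
    · push_cast
      nlinarith
    · push_cast
      nlinarith
  have r2 : ∀ a b y : ℤ, a ≤ b → b - a ≤ 132 * w →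
      c2 ≤ Pr q {ω | HCross ω a b y (y + 8 * w)} ∧ c2 ≤ Pr q {ω | VCross ω y (y + 8 * w) a b} := by
    intro a b y hab hb
    refine H2 n q hn hreg a b y (y + 8 * w) hab (by omega) ?_ ?_
    · push_cast
      nlinarith
    · push_cast
      nlinarith
  have r3 : ∀ a b y : ℤ, a ≤ b → b - a ≤ 132 * w →
      c2 ≤ Pr q {ω | HCross ω a b y (y + 32 * w)} ∧ c2 ≤ Pr q {ω | VCross ω y (y + 32 * w) a b} := by
    intro a b y hab hb
    refine H2 n q hn hreg a b y (y + 32 * w) hab (by omega) ?_ ?_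
    · push_cast
      nlinarith
    · push_cast
      nlinarith
  constructor
  · have g3 := gd_v hc2.le (r1 (v.2 - ρ) (13 * w) (12 * w) (by omega) (by omega)).2
    have g4 := gd_h hc2.le (r1 (-(4 * w)) (13 * w) (12 * w) (by omega) (by omega)).1
    have g5 := gd_v hc2.le (r2 (12 * w) (144 * w) (-(4 * w)) (by omega) (by omega)).2
    have g6 := gd_h hc2.le (r3 (-(12 * w)) (12 * w) (112 * w) (by omega) (by omega)).1
    rw [show (12 * w + w : ℤ) = 13 * w by ring] at g3 g4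
    rw [show (-(4 * w) + 8 * w : ℤ) = 4 * w by ring] at g5
    rw [show (112 * w + 32 * w : ℤ) = 144 * w by ring] at g6
    exact (g1.inter (g2.inter (g3.inter (g4.inter (g5.inter g6))))).2.2.2
  · have g3 := gd_v hc2.le (r1 (-(13 * w)) (v.2 + ρ) (12 * w) (by omega) (by omega)).2
    have g4 := gd_h hc2.le (r1 (-(4 * w)) (13 * w) (-(13 * w)) (by omega) (by omega)).1
    have g5 := gd_v hc2.le (r2 (-(144 * w)) (-(12 * w)) (-(4 * w)) (by omega) (by omega)).2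
    have g6 := gd_h hc2.le (r3 (-(12 * w)) (12 * w) (-(144 * w)) (by omega) (by omega)).1
    rw [show (12 * w + w : ℤ) = 13 * w by ring] at g3
    rw [show (-(13 * w) + w : ℤ) = -(12 * w) by ring] at g4
    rw [show (-(4 * w) + 8 * w : ℤ) = 4 * w by ring] at g5
    rw [show (-(144 * w) + 32 * w : ℤ) = -(112 * w) by ring] at g6
    exact (g1.inter (g2.inter (g3.inter (g4.inter (g5.inter g6))))).2.2.2

end Pool.Agent.H83.SK.NG
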