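import Pool.Agent.H83.SK.Base
import Pool.Agent.H59.EX.GeoAll
import Pool.Agent.H83.SK.P29.Rect
import Pool.Agent.H83.SK.P29.CircProb
import Pool.Agent.H38.SK.N59.GeoP

/-!
# Corridors for the second point
-/

open MeasureTheory ProbabilityTheory unitInterval

namespace Pool.Agent.H83.SK.NG

open Pool.Agent.H59.EX

open Pool.Agent.H89.Perc Pool.Agent.H61.NC

/-- `x` lands at `v` on the east side, `y` at `v'` anywhere on the sphere, not close to `v`. -/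
theorem exists_corr_y (c : ℝ) (hc : 0 < c) (K : ℕ) : ∃ c' : ℝ, 0 < c' ∧
    ∀ (w ρ ρ' n : ℕ) (v v' : Vert) (q : I), 1 ≤ ρ' → 64 * ρ' ≤ ρ → 64 * ρ ≤ w → w ≤ K * ρ' →
      w ≤ n → OnSide .E (8 * w) v → v' ∈ sphere 0 (8 * w) → v' ∉ ball v (10 * ρ) →
      RSWreg c n q → ∃ (d' : Side) (Zy : Set Vert) (Ny : Set Config), d' ≠ .E ∧
        CorrData w ρ' v' d' Zy Ny ∧ CorrSep w ρ' v' (ZS .E w ρ v) Zy ∧ c' ≤ Pr q Ny := by
  obtain ⟨c₁, hc₁, H₁⟩ := prob_straight c hc K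
  obtain ⟨c₂, hc₂, H₂⟩ := prob_turn c hc K
  refine ⟨min c₁ c₂, lt_min hc₁ hc₂, ?_⟩
  intro w ρ ρ' n v v' q h1 h2 h3 h4 h5 hv hv' hvv hR
  have hw' : 64 * ρ' ≤ w := by omega
  have hρw : ρ' ≤ w := by omega
  obtain ⟨-, hv1⟩ := id hv
  have hv1' : v.1 = ((8 * w : ℕ) : ℤ) := hv1
  obtain ⟨-, hside⟩ := id hv'
  simp only [Prod.fst_zero, Prod.snd_zero, zero_sub, zero_add] at hside
  have straight : ∀ d' : Side, d' ≠ .E → OnSide d' (8 * w) v' →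
      CorrSep w ρ' v' (ZS .E w ρ v) (ZS d' w ρ' v') →
      ∃ (d' : Side) (Zy : Set Vert) (Ny : Set Config), d' ≠ .E ∧
        CorrData w ρ' v' d' Zy Ny ∧ CorrSep w ρ' v' (ZS .E w ρ v) Zy ∧ min c₁ c₂ ≤ Pr q Ny :=
    fun d' hd hO hS => ⟨d', _, _, hd, corr_straight h1 hw' hO, hS,
      (min_le_left _ _).trans (H₁ d' w ρ' n v' q h1 hρw h4 h5 hO hR)⟩
  rcases hside with h | h | h | h
  · exact straight .W (by simp) ⟨hv', h⟩ (sep_EW h1 h2 h3 hv ⟨hv', h⟩)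
  · have hO : OnSide .E (8 * w) v' := ⟨hv', h⟩
    have h' : v'.2 < v.2 - 10 * ρ ∨ v.2 + 10 * ρ < v'.2 := by
      by_contra hcon
      push Not at hcon
      refine hvv ?_
      rw [mem_ball]
      omega
    rcases h' with h' | h'
    · exact ⟨.S, _, _, by simp, corr_turn_S h1 hw' hO, sep_ETS h1 h2 h3 hv hO (by omega),
        (min_le_right _ _).trans (H₂ w ρ' n v' q h1 hρw h4 h5 hO hR).2⟩
    · exact ⟨.N, _, _, by simp, corr_turn_N h1 hw' hO, sep_ETN h1 h2 h3 hv hO h',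
        (min_le_right _ _).trans (H₂ w ρ' n v' q h1 hρw h4 h5 hO hR).1⟩
  · exact straight .S (by simp) ⟨hv', h⟩ (sep_ES h1 h2 h3 hv ⟨hv', h⟩ hvv)
  · exact straight .N (by simp) ⟨hv', h⟩ (sep_EN h1 h2 h3 hv ⟨hv', h⟩ hvv)

end Pool.Agent.H83.SK.NG
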