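import Pool.Agent.H83.SK.Base
import Pool.Agent.H59.EX.MoveStr
import Pool.Agent.H83.SK.P29.Rect
import Pool.Agent.H83.SK.P29.CircProb

/-!
# The straight corridors of the moves, probabilities
-/

open MeasureTheory ProbabilityTheory unitInterval

namespace Pool.Agent.H83.SK.NG

open Pool.Agent.H59.EX

open Pool.Agent.H89.Perc Pool.Agent.H61.NC
open Pool.Agent.H85.Strict (hv_meet)

open scoped Classical in
/-- Harris inequality with a lower bound. -/
theorem ms_and {q : I} {s t : Finset Edge} {A B : Set Config} {x y : ℝ} (hx : 0 ≤ x) (hy : 0 ≤ y)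
    (hA : LocalOn s A ∧ Incr A ∧ x ≤ Pr q A) (hB : LocalOn t B ∧ Incr B ∧ y ≤ Pr q B) :
    LocalOn (s ∪ t) (A ∩ B) ∧ Incr (A ∩ B) ∧ x * y ≤ Pr q (A ∩ B) :=
  ⟨hA.1.inter' hB.1, hA.2.1.inter hB.2.1,
    (mul_le_mul hA.2.2 hB.2.2 hy (hx.trans hA.2.2)).trans (fkg hA.1 hB.1 hA.2.1 hB.2.1)⟩

theorem prob_move (c : ℝ) (hc : 0 < c) (K : ℕ) : ∃ c' : ℝ, 0 < c' ∧ ∀ (d : Side) (k n : ℕ)
    (q : I), 4 ≤ k → k ≤ K * n → RSWreg c n q → c' ≤ Pr q (NM d k) ∧ c' ≤ Pr q (NT k) := by
  classical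
  obtain ⟨c₀, hc₀, h⟩ := Pool.Agent.H83.SK.rect_lower c hc (32 * K + 20)
  refine ⟨min (c₀ * c₀) (c₀ * (c₀ * (c₀ * (c₀ * c₀)))), by positivity, ?_⟩
  intro d k n q hk hkn hreg
  have hn : 1 ≤ n := by
    rcases Nat.eq_zero_or_pos n with h0 | h0
    · subst h0
      omega
    · exact h0
  have hknZ : (k : ℤ) ≤ K * n := by exact_mod_cast hkn
  have hK0 : (0 : ℤ) ≤ K := by positivity
  have hn0 : (0 : ℤ) ≤ n := by positivity
  have hl : ∀ a b y z : ℤ, a ≤ b → y < z → b - a ≤ 20 * (z - y) → z - y ≤ 32 * k →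
      c₀ ≤ Pr q {ω | HCross ω a b y z} ∧ c₀ ≤ Pr q {ω | VCross ω y z a b} := by
    intro a b y z h1 h2 h3 h4
    refine h n q hn hreg a b y z h1 h2 ?_ ?_
    · push_cast
      nlinarith [mul_nonneg hK0 (show (0 : ℤ) ≤ z - y by omega)]
    · push_cast
      nlinarith [mul_nonneg hK0 hn0]
  have hH : ∀ a b y z : ℤ, a ≤ b → y < z → b - a ≤ 20 * (z - y) → z - y ≤ 32 * k →
      LocalOn (eRect a b y z) {ω | HCross ω a b y z} ∧ Incr {ω | HCross ω a b y z} ∧
        c₀ ≤ Pr q {ω | HCross ω a b y z} :=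
    fun a b y z h1 h2 h3 h4 => ⟨ms_local_h _ _ _ _, mt_incr_h, (hl a b y z h1 h2 h3 h4).1⟩
  have hV : ∀ y z a b : ℤ, a ≤ b → y < z → b - a ≤ 20 * (z - y) → z - y ≤ 32 * k →
      LocalOn (eRect y z a b) {ω | VCross ω y z a b} ∧ Incr {ω | VCross ω y z a b} ∧
        c₀ ≤ Pr q {ω | VCross ω y z a b} :=
    fun y z a b h1 h2 h3 h4 => ⟨ms_local_v _ _ _ _, mt_incr_v, (hl a b y z h1 h2 h3 h4).2⟩
  have p2 : 0 ≤ c₀ * c₀ := by positivity
  have p3 : 0 ≤ c₀ * (c₀ * c₀) := by positivity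
  have p4 : 0 ≤ c₀ * (c₀ * (c₀ * c₀)) := by positivity
  constructor
  · refine (min_le_left _ _).trans ?_
    cases d
    · exact (ms_and hc₀.le hc₀.le
        (hH (28 * k) (144 * k) (-(3 * k)) (3 * k) (by omega) (by omega) (by omega) (by omega))
        (hV (112 * k) (144 * k) (-(12 * k)) (12 * k) (by omega) (by omega) (by omega)
          (by omega))).2.2
    · exact (ms_and hc₀.le hc₀.le
        (hV (-(3 * k)) (3 * k) (28 * k) (144 * k) (by omega) (by omega) (by omega) (by omega))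
        (hH (-(12 * k)) (12 * k) (112 * k) (144 * k) (by omega) (by omega) (by omega)
          (by omega))).2.2
    · exact (ms_and hc₀.le hc₀.le
        (hH (-(144 * k)) (-(28 * k)) (-(3 * k)) (3 * k) (by omega) (by omega) (by omega)
          (by omega))
        (hV (-(144 * k)) (-(112 * k)) (-(12 * k)) (12 * k) (by omega) (by omega) (by omega)
          (by omega))).2.2
    · exact (ms_and hc₀.le hc₀.le
        (hV (-(3 * k)) (3 * k) (-(144 * k)) (-(28 * k)) (by omega) (by omega) (by omega)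
          (by omega))
        (hH (-(12 * k)) (12 * k) (-(144 * k)) (-(112 * k)) (by omega) (by omega) (by omega)
          (by omega))).2.2
  · refine (min_le_right _ _).trans ?_
    exact (ms_and hc₀.le p4
      (hH (28 * k) (64 * k) (-(3 * k)) (3 * k) (by omega) (by omega) (by omega) (by omega))
      (ms_and hc₀.le p3
        (hV (60 * k) (64 * k) (-(3 * k)) (64 * k) (by omega) (by omega) (by omega) (by omega))
        (ms_and hc₀.le p2
          (hH (-(3 * k)) (64 * k) (60 * k) (64 * k) (by omega) (by omega) (by omega) (by omega))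
          (ms_and hc₀.le hc₀.le
            (hV (-(3 * k)) (3 * k) (60 * k) (144 * k) (by omega) (by omega) (by omega) (by omega))
            (hH (-(12 * k)) (12 * k) (112 * k) (144 * k) (by omega) (by omega) (by omega)
              (by omega)))))).2.2

end Pool.Agent.H83.SK.NG
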