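import Pool.Agent.H38.SK.N59.MoveCore
import Pool.Agent.H38.SK.N59.MoveStr
import Pool.Agent.H59.EX.MoveGeo

/-!
# All moves between pairs of sides, for sites
-/

set_option autoImplicit false

open MeasureTheory ProbabilityTheory unitInterval

namespace Pool.Agent.H38.N59

open Pool.Agent.H89.Perc
open Pool.Agent.H61.NC hiding RSWreg
open Pool.Agent.H83.SK (sv sit sit_true RSWreg)
open Pool.Agent.H59.EX (Side Gen MoveData MoveSep move_straight move_turn msep_EW msep_EN msep_WT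
  msep_ST)
open Pool.Agent.H83.SK.NG (prob_move)

/-- The separated event with sides `d, d'` at scale `k` can be extended to sides `e, e'` at scale
`4 ^ m k`. -/
def OKm (m : ℕ) (d d' e e' : Side) : Prop :=
  ∀ (c : ℝ) (K : ℕ), 0 < c → ∃ C : ℝ, 0 < C ∧ ∀ (s : Src) (k n : ℕ) (q : I), 8 ≤ k → k ≤ K * n →
    RSWreg c n q → Pr q (Sep s d d' k) ≤ C * Pr q (Sep s e e' (4 ^ m * k))

variable {m m' : ℕ} {d d' e e' f f' : Side}

private theorem hk4 {k : ℕ} (hk : 8 ≤ k) : 4 ≤ k := by omega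

theorem okm_map (g : Gen) (h : OKm m d d' e e') : OKm m (g.s d) (g.s d') (g.s e) (g.s e') := by
  intro c K hc
  obtain ⟨C, hC, H⟩ := h c K hc
  refine ⟨C, hC, fun s k n q hk hkn hR => ?_⟩
  have h1 := H (s.map g) k n q hk hkn hR
  have h2 : ∀ (a b : Side) (j : ℕ),
      Pr q (Sep (s.map g) a b j) = Pr q (Sep s (g.s a) (g.s b) j) := by
    intro a b j
    have h3 := sep_map (q := q) (s := s) (d := g.s a) (d' := g.s b) (k := j) g
    rw [Gen.s_s, Gen.s_s] at h3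
    exact h3
  rw [h2, h2] at h1
  exact h1

theorem okm_flip (h : OKm m d d' e e') : OKm m d' d e' e := by
  intro c K hc
  obtain ⟨C, hC, H⟩ := h c K hc
  refine ⟨C, hC, fun s k n q hk hkn hR => ?_⟩
  have h1 := H s.flip k n q hk hkn hR
  rw [sep_flip, sep_flip] at h1
  exact h1

theorem okm_trans (h : OKm m d d' e e') (h' : OKm m' e e' f f') : OKm (m + m') d d' f f' := by
  intro c K hc
  obtain ⟨C, hC, H⟩ := h c K hc
  obtain ⟨C', hC', H'⟩ := h' c (4 ^ m * K) hc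
  refine ⟨C * C', mul_pos hC hC', fun s k n q hk hkn hR => ?_⟩
  have h1 := H s k n q hk hkn hR
  have hpos : 1 ≤ 4 ^ m := Nat.one_le_pow _ _ (by norm_num)
  have h2 := H' s (4 ^ m * k) n q (by nlinarith) (by nlinarith) hR
  have h3 : 4 ^ m' * (4 ^ m * k) = 4 ^ (m + m') * k := by
    rw [pow_add]; ring
  rw [h3] at h2
  calc Pr q (Sep s d d' k) ≤ C * Pr q (Sep s e e' (4 ^ m * k)) := h1
    _ ≤ C * (C' * Pr q (Sep s f f' (4 ^ (m + m') * k))) :=
        mul_le_mul_of_nonneg_left h2 hC.le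
    _ = C * C' * Pr q (Sep s f f' (4 ^ (m + m') * k)) := by ring

theorem okm_EW : OKm 1 .E .W .E .W := by
  intro c K hc
  obtain ⟨c', hc', H⟩ := prob_move c hc K
  obtain ⟨C, hC, G⟩ := move_core c hc K c' hc'
  refine ⟨C, hC, fun s k n q hk hkn hR => ?_⟩
  have h1 := G s .E .W .E .W k n _ _ _ _ q hk hkn hR (move_straight (hk4 hk) .E) (move_straight (hk4 hk) .W)
    (msep_EW (hk4 hk)) (H .E k n q (hk4 hk) hkn hR).1 (H .W k n q (hk4 hk) hkn hR).1
  simpa using h1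

theorem okm_EN : OKm 1 .E .N .E .N := by
  intro c K hc
  obtain ⟨c', hc', H⟩ := prob_move c hc K
  obtain ⟨C, hC, G⟩ := move_core c hc K c' hc'
  refine ⟨C, hC, fun s k n q hk hkn hR => ?_⟩
  have h1 := G s .E .N .E .N k n _ _ _ _ q hk hkn hR (move_straight (hk4 hk) .E) (move_straight (hk4 hk) .N)
    (msep_EN (hk4 hk)) (H .E k n q (hk4 hk) hkn hR).1 (H .N k n q (hk4 hk) hkn hR).1
  simpa using h1

theorem okm_WT : OKm 1 .W .E .W .N := by
  intro c K hc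
  obtain ⟨c', hc', H⟩ := prob_move c hc K
  obtain ⟨C, hC, G⟩ := move_core c hc K c' hc'
  refine ⟨C, hC, fun s k n q hk hkn hR => ?_⟩
  have h1 := G s .W .E .W .N k n _ _ _ _ q hk hkn hR (move_straight (hk4 hk) .W) (move_turn (hk4 hk))
    (msep_WT (hk4 hk)) (H .W k n q (hk4 hk) hkn hR).1 (H .W k n q (hk4 hk) hkn hR).2
  simpa using h1

theorem okm_ST : OKm 1 .S .E .S .N := by
  intro c K hc
  obtain ⟨c', hc', H⟩ := prob_move c hc K
  obtain ⟨C, hC, G⟩ := move_core c hc K c' hc'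
  refine ⟨C, hC, fun s k n q hk hkn hR => ?_⟩
  have h1 := G s .S .E .S .N k n _ _ _ _ q hk hkn hR (move_straight (hk4 hk) .S) (move_turn (hk4 hk))
    (msep_ST (hk4 hk)) (H .S k n q (hk4 hk) hkn hR).1 (H .S k n q (hk4 hk) hkn hR).2
  simpa using h1

theorem mv_EWEW : OKm 1 .E .W .E .W := okm_EW

theorem mv_ENEN : OKm 1 .E .N .E .N := okm_EN

theorem mv_WEWN : OKm 1 .W .E .W .N := okm_WT

theorem mv_SESN : OKm 1 .S .E .S .N := okm_ST

theorem mv_NSNS : OKm 1 .N .S .N .S := okm_map .sw okm_EW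

theorem mv_WEWE : OKm 1 .W .E .W .E := okm_map .rx okm_EW

theorem mv_NENE : OKm 1 .N .E .N .E := okm_map .sw okm_EN

theorem mv_WNWN : OKm 1 .W .N .W .N := okm_map .rx okm_EN

theorem mv_ESES : OKm 1 .E .S .E .S := okm_map .ry okm_EN

theorem mv_SNSE : OKm 1 .S .N .S .E := okm_map .sw okm_WT

theorem mv_EWEN : OKm 1 .E .W .E .N := okm_map .rx okm_WT

theorem mv_WEWS : OKm 1 .W .E .W .S := okm_map .ry okm_WT

theorem mv_EWNW : OKm 1 .E .W .N .W := okm_flip okm_WT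

theorem mv_WNWE : OKm 1 .W .N .W .E := okm_map .sw okm_ST

theorem mv_SWSN : OKm 1 .S .W .S .N := okm_map .rx okm_ST

theorem mv_NENS : OKm 1 .N .E .N .S := okm_map .ry okm_ST

theorem mv_ESNS : OKm 1 .E .S .N .S := okm_flip okm_ST

theorem mv_SNSN : OKm 1 .S .N .S .N := okm_map .ry (okm_map .sw okm_EW)

theorem mv_NWNW : OKm 1 .N .W .N .W := okm_map .rx (okm_map .sw okm_EN)

theorem mv_SESE : OKm 1 .S .E .S .E := okm_map .ry (okm_map .sw okm_EN)

theorem mv_WSWS : OKm 1 .W .S .W .S := okm_map .ry (okm_map .rx okm_EN)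

theorem mv_SNSW : OKm 1 .S .N .S .W := okm_map .rx (okm_map .sw okm_WT)

theorem mv_NSNE : OKm 1 .N .S .N .E := okm_map .ry (okm_map .sw okm_WT)

theorem mv_NSES : OKm 1 .N .S .E .S := okm_flip (okm_map .sw okm_WT)

theorem mv_EWES : OKm 1 .E .W .E .S := okm_map .ry (okm_map .rx okm_WT)

theorem mv_WENE : OKm 1 .W .E .N .E := okm_flip (okm_map .rx okm_WT)

theorem mv_EWSW : OKm 1 .E .W .S .W := okm_flip (okm_map .ry okm_WT)

theorem mv_ENEW : OKm 1 .E .N .E .W := okm_map .rx (okm_map .sw okm_ST)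

theorem mv_WSWE : OKm 1 .W .S .W .E := okm_map .ry (okm_map .sw okm_ST)

theorem mv_NWEW : OKm 1 .N .W .E .W := okm_flip (okm_map .sw okm_ST)

theorem mv_NWNS : OKm 1 .N .W .N .S := okm_map .ry (okm_map .rx okm_ST)

theorem mv_WSNS : OKm 1 .W .S .N .S := okm_flip (okm_map .rx okm_ST)

theorem mv_ENSN : OKm 1 .E .N .S .N := okm_flip (okm_map .ry okm_ST)

theorem mv_SWSW : OKm 1 .S .W .S .W := okm_map .ry (okm_map .rx (okm_map .sw okm_EN))

theorem mv_NSNW : OKm 1 .N .S .N .W := okm_map .ry (okm_map .rx (okm_map .sw okm_WT))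

theorem mv_NSWS : OKm 1 .N .S .W .S := okm_flip (okm_map .rx (okm_map .sw okm_WT))

theorem mv_SNEN : OKm 1 .S .N .E .N := okm_flip (okm_map .ry (okm_map .sw okm_WT))

theorem mv_WESE : OKm 1 .W .E .S .E := okm_flip (okm_map .ry (okm_map .rx okm_WT))

theorem mv_ESEW : OKm 1 .E .S .E .W := okm_map .ry (okm_map .rx (okm_map .sw okm_ST))

theorem mv_NEWE : OKm 1 .N .E .W .E := okm_flip (okm_map .rx (okm_map .sw okm_ST))

theorem mv_SWEW : OKm 1 .S .W .E .W := okm_flip (okm_map .ry (okm_map .sw okm_ST))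

theorem mv_WNSN : OKm 1 .W .N .S .N := okm_flip (okm_map .ry (okm_map .rx okm_ST))

theorem mv_SNWN : OKm 1 .S .N .W .N := okm_flip (okm_map .ry (okm_map .rx (okm_map .sw okm_WT)))

theorem mv_SEWE : OKm 1 .S .E .W .E := okm_flip (okm_map .ry (okm_map .rx (okm_map .sw okm_ST)))

theorem okm_straight (h : d ≠ d') : OKm 1 d d' d d' := by
  cases d <;> cases d' <;> first | exact absurd rfl h | skip
  · exact mv_ENEN
  · exact mv_EWEW
  · exact mv_ESES
  · exact mv_NENE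
  · exact mv_NWNW
  · exact mv_NSNS
  · exact mv_WEWE
  · exact mv_WNWN
  · exact mv_WSWS
  · exact mv_SESE
  · exact mv_SNSN
  · exact mv_SWSW

theorem mw_ENEN : OKm 2 .E .N .E .N :=
  okm_trans (m := 1) (m' := 1) mv_ENEN mv_ENEN

theorem mw_ENEW : OKm 2 .E .N .E .W :=
  okm_trans (m := 1) (m' := 1) mv_ENEN mv_ENEW

theorem mw_ENSN : OKm 2 .E .N .S .N :=
  okm_trans (m := 1) (m' := 1) mv_ENEN mv_ENSN

theorem mw_ENES : OKm 2 .E .N .E .S :=
  okm_trans (m := 1) (m' := 1) mv_ENEW mv_EWES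

theorem mw_ENNW : OKm 2 .E .N .N .W :=
  okm_trans (m := 1) (m' := 1) mv_ENEW mv_EWNW

theorem mw_ENSW : OKm 2 .E .N .S .W :=
  okm_trans (m := 1) (m' := 1) mv_ENEW mv_EWSW

theorem mw_ENSE : OKm 2 .E .N .S .E :=
  okm_trans (m := 1) (m' := 1) mv_ENSN mv_SNSE

theorem mw_ENWN : OKm 2 .E .N .W .N :=
  okm_trans (m := 1) (m' := 1) mv_ENSN mv_SNWN

theorem mw_ESES : OKm 2 .E .S .E .S :=
  okm_trans (m := 1) (m' := 1) mv_ESES mv_ESES

theorem mw_ESEW : OKm 2 .E .S .E .W :=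
  okm_trans (m := 1) (m' := 1) mv_ESES mv_ESEW

theorem mw_ESNS : OKm 2 .E .S .N .S :=
  okm_trans (m := 1) (m' := 1) mv_ESES mv_ESNS

theorem mw_ESEN : OKm 2 .E .S .E .N :=
  okm_trans (m := 1) (m' := 1) mv_ESEW mv_EWEN

theorem mw_ESSW : OKm 2 .E .S .S .W :=
  okm_trans (m := 1) (m' := 1) mv_ESEW mv_EWSW

theorem mw_ESNE : OKm 2 .E .S .N .E :=
  okm_trans (m := 1) (m' := 1) mv_ESNS mv_NSNE

theorem mw_ESNW : OKm 2 .E .S .N .W :=
  okm_trans (m := 1) (m' := 1) mv_ESNS mv_NSNW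

theorem mw_ESWS : OKm 2 .E .S .W .S :=
  okm_trans (m := 1) (m' := 1) mv_ESNS mv_NSWS

theorem mw_EWSN : OKm 2 .E .W .S .N :=
  okm_trans (m := 1) (m' := 1) mv_EWEN mv_ENSN

theorem mw_EWEN : OKm 2 .E .W .E .N :=
  okm_trans (m := 1) (m' := 1) mv_EWEW mv_EWEN

theorem mw_EWES : OKm 2 .E .W .E .S :=
  okm_trans (m := 1) (m' := 1) mv_EWEW mv_EWES

theorem mw_EWEW : OKm 2 .E .W .E .W :=
  okm_trans (m := 1) (m' := 1) mv_EWEW mv_EWEW

theorem mw_EWNW : OKm 2 .E .W .N .W :=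
  okm_trans (m := 1) (m' := 1) mv_EWEW mv_EWNW

theorem mw_EWSW : OKm 2 .E .W .S .W :=
  okm_trans (m := 1) (m' := 1) mv_EWEW mv_EWSW

theorem mw_EWNS : OKm 2 .E .W .N .S :=
  okm_trans (m := 1) (m' := 1) mv_EWNW mv_NWNS

theorem mw_NENE : OKm 2 .N .E .N .E :=
  okm_trans (m := 1) (m' := 1) mv_NENE mv_NENE

theorem mw_NENS : OKm 2 .N .E .N .S :=
  okm_trans (m := 1) (m' := 1) mv_NENE mv_NENS

theorem mw_NEWE : OKm 2 .N .E .W .E :=
  okm_trans (m := 1) (m' := 1) mv_NENE mv_NEWE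

theorem mw_NEES : OKm 2 .N .E .E .S :=
  okm_trans (m := 1) (m' := 1) mv_NENS mv_NSES

theorem mw_NENW : OKm 2 .N .E .N .W :=
  okm_trans (m := 1) (m' := 1) mv_NENS mv_NSNW

theorem mw_NEWS : OKm 2 .N .E .W .S :=
  okm_trans (m := 1) (m' := 1) mv_NENS mv_NSWS

theorem mw_NESE : OKm 2 .N .E .S .E :=
  okm_trans (m := 1) (m' := 1) mv_NEWE mv_WESE

theorem mw_NEWN : OKm 2 .N .E .W .N :=
  okm_trans (m := 1) (m' := 1) mv_NEWE mv_WEWN

theorem mw_NSEW : OKm 2 .N .S .E .W :=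
  okm_trans (m := 1) (m' := 1) mv_NSES mv_ESEW

theorem mw_NSWE : OKm 2 .N .S .W .E :=
  okm_trans (m := 1) (m' := 1) mv_NSNE mv_NEWE

theorem mw_NSES : OKm 2 .N .S .E .S :=
  okm_trans (m := 1) (m' := 1) mv_NSNS mv_NSES

theorem mw_NSNE : OKm 2 .N .S .N .E :=
  okm_trans (m := 1) (m' := 1) mv_NSNS mv_NSNE

theorem mw_NSNS : OKm 2 .N .S .N .S :=
  okm_trans (m := 1) (m' := 1) mv_NSNS mv_NSNS

theorem mw_NSNW : OKm 2 .N .S .N .W :=
  okm_trans (m := 1) (m' := 1) mv_NSNS mv_NSNW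

theorem mw_NSWS : OKm 2 .N .S .W .S :=
  okm_trans (m := 1) (m' := 1) mv_NSNS mv_NSWS

theorem mw_NWEN : OKm 2 .N .W .E .N :=
  okm_trans (m := 1) (m' := 1) mv_NWEW mv_EWEN

theorem mw_NWES : OKm 2 .N .W .E .S :=
  okm_trans (m := 1) (m' := 1) mv_NWEW mv_EWES

theorem mw_NWSW : OKm 2 .N .W .S .W :=
  okm_trans (m := 1) (m' := 1) mv_NWEW mv_EWSW

theorem mw_NWNE : OKm 2 .N .W .N .E :=
  okm_trans (m := 1) (m' := 1) mv_NWNS mv_NSNE

theorem mw_NWWS : OKm 2 .N .W .W .S :=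
  okm_trans (m := 1) (m' := 1) mv_NWNS mv_NSWS

theorem mw_NWEW : OKm 2 .N .W .E .W :=
  okm_trans (m := 1) (m' := 1) mv_NWNW mv_NWEW

theorem mw_NWNS : OKm 2 .N .W .N .S :=
  okm_trans (m := 1) (m' := 1) mv_NWNW mv_NWNS

theorem mw_NWNW : OKm 2 .N .W .N .W :=
  okm_trans (m := 1) (m' := 1) mv_NWNW mv_NWNW

theorem mw_SEWE : OKm 2 .S .E .W .E :=
  okm_trans (m := 1) (m' := 1) mv_SESE mv_SEWE

theorem mw_SEEN : OKm 2 .S .E .E .N :=
  okm_trans (m := 1) (m' := 1) mv_SESN mv_SNEN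

theorem mw_SESE : OKm 2 .S .E .S .E :=
  okm_trans (m := 1) (m' := 1) mv_SESN mv_SNSE

theorem mw_SESN : OKm 2 .S .E .S .N :=
  okm_trans (m := 1) (m' := 1) mv_SESN mv_SNSN

theorem mw_SESW : OKm 2 .S .E .S .W :=
  okm_trans (m := 1) (m' := 1) mv_SESN mv_SNSW

theorem mw_SEWN : OKm 2 .S .E .W .N :=
  okm_trans (m := 1) (m' := 1) mv_SESN mv_SNWN

theorem mw_SENE : OKm 2 .S .E .N .E :=
  okm_trans (m := 1) (m' := 1) mv_SEWE mv_WENE

theorem mw_SEWS : OKm 2 .S .E .W .S :=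
  okm_trans (m := 1) (m' := 1) mv_SEWE mv_WEWS

theorem mw_SNSE : OKm 2 .S .N .S .E :=
  okm_trans (m := 1) (m' := 1) mv_SNSE mv_SESE

theorem mw_SNSN : OKm 2 .S .N .S .N :=
  okm_trans (m := 1) (m' := 1) mv_SNSE mv_SESN

theorem mw_SNWE : OKm 2 .S .N .W .E :=
  okm_trans (m := 1) (m' := 1) mv_SNSE mv_SEWE

theorem mw_SNEN : OKm 2 .S .N .E .N :=
  okm_trans (m := 1) (m' := 1) mv_SNSN mv_SNEN

theorem mw_SNSW : OKm 2 .S .N .S .W :=
  okm_trans (m := 1) (m' := 1) mv_SNSN mv_SNSW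

theorem mw_SNWN : OKm 2 .S .N .W .N :=
  okm_trans (m := 1) (m' := 1) mv_SNSN mv_SNWN

theorem mw_SNEW : OKm 2 .S .N .E .W :=
  okm_trans (m := 1) (m' := 1) mv_SNSW mv_SWEW

theorem mw_SWES : OKm 2 .S .W .E .S :=
  okm_trans (m := 1) (m' := 1) mv_SWEW mv_EWES

theorem mw_SWNW : OKm 2 .S .W .N .W :=
  okm_trans (m := 1) (m' := 1) mv_SWEW mv_EWNW

theorem mw_SWSE : OKm 2 .S .W .S .E :=
  okm_trans (m := 1) (m' := 1) mv_SWSN mv_SNSE

theorem mw_SWSN : OKm 2 .S .W .S .N :=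
  okm_trans (m := 1) (m' := 1) mv_SWSN mv_SNSN

theorem mw_SWSW : OKm 2 .S .W .S .W :=
  okm_trans (m := 1) (m' := 1) mv_SWSN mv_SNSW

theorem mw_SWEW : OKm 2 .S .W .E .W :=
  okm_trans (m := 1) (m' := 1) mv_SWSW mv_SWEW

theorem mw_WEWS : OKm 2 .W .E .W .S :=
  okm_trans (m := 1) (m' := 1) mv_WEWE mv_WEWS

theorem mw_WESN : OKm 2 .W .E .S .N :=
  okm_trans (m := 1) (m' := 1) mv_WEWN mv_WNSN

theorem mw_WEWE : OKm 2 .W .E .W .E :=
  okm_trans (m := 1) (m' := 1) mv_WEWN mv_WNWE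

theorem mw_WEWN : OKm 2 .W .E .W .N :=
  okm_trans (m := 1) (m' := 1) mv_WEWN mv_WNWN

theorem mw_WENS : OKm 2 .W .E .N .S :=
  okm_trans (m := 1) (m' := 1) mv_WEWS mv_WSNS

theorem mw_WNEN : OKm 2 .W .N .E .N :=
  okm_trans (m := 1) (m' := 1) mv_WNSN mv_SNEN

theorem mw_WNSW : OKm 2 .W .N .S .W :=
  okm_trans (m := 1) (m' := 1) mv_WNSN mv_SNSW

theorem mw_WNNE : OKm 2 .W .N .N .E :=
  okm_trans (m := 1) (m' := 1) mv_WNWE mv_WENE

theorem mw_WNSE : OKm 2 .W .N .S .E :=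
  okm_trans (m := 1) (m' := 1) mv_WNWE mv_WESE

theorem mw_WNWS : OKm 2 .W .N .W .S :=
  okm_trans (m := 1) (m' := 1) mv_WNWE mv_WEWS

theorem mw_WNSN : OKm 2 .W .N .S .N :=
  okm_trans (m := 1) (m' := 1) mv_WNWN mv_WNSN

theorem mw_WNWE : OKm 2 .W .N .W .E :=
  okm_trans (m := 1) (m' := 1) mv_WNWN mv_WNWE

theorem mw_WNWN : OKm 2 .W .N .W .N :=
  okm_trans (m := 1) (m' := 1) mv_WNWN mv_WNWN

theorem mw_WSES : OKm 2 .W .S .E .S :=
  okm_trans (m := 1) (m' := 1) mv_WSNS mv_NSES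

theorem mw_WSNW : OKm 2 .W .S .N .W :=
  okm_trans (m := 1) (m' := 1) mv_WSNS mv_NSNW

theorem mw_WSNE : OKm 2 .W .S .N .E :=
  okm_trans (m := 1) (m' := 1) mv_WSWE mv_WENE

theorem mw_WSSE : OKm 2 .W .S .S .E :=
  okm_trans (m := 1) (m' := 1) mv_WSWE mv_WESE

theorem mw_WSWN : OKm 2 .W .S .W .N :=
  okm_trans (m := 1) (m' := 1) mv_WSWE mv_WEWN

theorem mw_WSNS : OKm 2 .W .S .N .S :=
  okm_trans (m := 1) (m' := 1) mv_WSWS mv_WSNS

theorem mw_WSWE : OKm 2 .W .S .W .E :=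
  okm_trans (m := 1) (m' := 1) mv_WSWS mv_WSWE

theorem mw_WSWS : OKm 2 .W .S .W .S :=
  okm_trans (m := 1) (m' := 1) mv_WSWS mv_WSWS

theorem reach_EN (h' : e ≠ e') : OKm 4 .E .N e e' := by
  cases e <;> cases e' <;> first | exact absurd rfl h' | skip
  · exact okm_trans (m := 2) (m' := 2) mw_ENEN mw_ENEN
  · exact okm_trans (m := 2) (m' := 2) mw_ENEN mw_ENEW
  · exact okm_trans (m := 2) (m' := 2) mw_ENEN mw_ENES
  · exact okm_trans (m := 2) (m' := 2) mw_ENNW mw_NWNE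
  · exact okm_trans (m := 2) (m' := 2) mw_ENEN mw_ENNW
  · exact okm_trans (m := 2) (m' := 2) mw_ENEW mw_EWNS
  · exact okm_trans (m := 2) (m' := 2) mw_ENSN mw_SNWE
  · exact okm_trans (m := 2) (m' := 2) mw_ENEN mw_ENWN
  · exact okm_trans (m := 2) (m' := 2) mw_ENNW mw_NWWS
  · exact okm_trans (m := 2) (m' := 2) mw_ENEN mw_ENSE
  · exact okm_trans (m := 2) (m' := 2) mw_ENEN mw_ENSN
  · exact okm_trans (m := 2) (m' := 2) mw_ENEN mw_ENSW

theorem reach_EW (h' : e ≠ e') : OKm 4 .E .W e e' := by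
  cases e <;> cases e' <;> first | exact absurd rfl h' | skip
  · exact okm_trans (m := 2) (m' := 2) mw_EWEW mw_EWEN
  · exact okm_trans (m := 2) (m' := 2) mw_EWEW mw_EWEW
  · exact okm_trans (m := 2) (m' := 2) mw_EWEW mw_EWES
  · exact okm_trans (m := 2) (m' := 2) mw_EWNW mw_NWNE
  · exact okm_trans (m := 2) (m' := 2) mw_EWEW mw_EWNW
  · exact okm_trans (m := 2) (m' := 2) mw_EWEW mw_EWNS
  · exact okm_trans (m := 2) (m' := 2) mw_EWSN mw_SNWE
  · exact okm_trans (m := 2) (m' := 2) mw_EWEN mw_ENWN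
  · exact okm_trans (m := 2) (m' := 2) mw_EWNW mw_NWWS
  · exact okm_trans (m := 2) (m' := 2) mw_EWEN mw_ENSE
  · exact okm_trans (m := 2) (m' := 2) mw_EWEW mw_EWSN
  · exact okm_trans (m := 2) (m' := 2) mw_EWEW mw_EWSW

theorem reach_ES (h' : e ≠ e') : OKm 4 .E .S e e' := by
  cases e <;> cases e' <;> first | exact absurd rfl h' | skip
  · exact okm_trans (m := 2) (m' := 2) mw_ESES mw_ESEN
  · exact okm_trans (m := 2) (m' := 2) mw_ESES mw_ESEW
  · exact okm_trans (m := 2) (m' := 2) mw_ESES mw_ESES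
  · exact okm_trans (m := 2) (m' := 2) mw_ESES mw_ESNE
  · exact okm_trans (m := 2) (m' := 2) mw_ESES mw_ESNW
  · exact okm_trans (m := 2) (m' := 2) mw_ESES mw_ESNS
  · exact okm_trans (m := 2) (m' := 2) mw_ESNS mw_NSWE
  · exact okm_trans (m := 2) (m' := 2) mw_ESNE mw_NEWN
  · exact okm_trans (m := 2) (m' := 2) mw_ESES mw_ESWS
  · exact okm_trans (m := 2) (m' := 2) mw_ESNE mw_NESE
  · exact okm_trans (m := 2) (m' := 2) mw_ESEW mw_EWSN
  · exact okm_trans (m := 2) (m' := 2) mw_ESES mw_ESSW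

theorem reach_NE (h' : e ≠ e') : OKm 4 .N .E e e' := by
  cases e <;> cases e' <;> first | exact absurd rfl h' | skip
  · exact okm_trans (m := 2) (m' := 2) mw_NEES mw_ESEN
  · exact okm_trans (m := 2) (m' := 2) mw_NENS mw_NSEW
  · exact okm_trans (m := 2) (m' := 2) mw_NENE mw_NEES
  · exact okm_trans (m := 2) (m' := 2) mw_NENE mw_NENE
  · exact okm_trans (m := 2) (m' := 2) mw_NENE mw_NENW
  · exact okm_trans (m := 2) (m' := 2) mw_NENE mw_NENS
  · exact okm_trans (m := 2) (m' := 2) mw_NENE mw_NEWE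
  · exact okm_trans (m := 2) (m' := 2) mw_NENE mw_NEWN
  · exact okm_trans (m := 2) (m' := 2) mw_NENE mw_NEWS
  · exact okm_trans (m := 2) (m' := 2) mw_NENE mw_NESE
  · exact okm_trans (m := 2) (m' := 2) mw_NEWE mw_WESN
  · exact okm_trans (m := 2) (m' := 2) mw_NEES mw_ESSW

theorem reach_NW (h' : e ≠ e') : OKm 4 .N .W e e' := by
  cases e <;> cases e' <;> first | exact absurd rfl h' | skip
  · exact okm_trans (m := 2) (m' := 2) mw_NWNW mw_NWEN
  · exact okm_trans (m := 2) (m' := 2) mw_NWNW mw_NWEW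
  · exact okm_trans (m := 2) (m' := 2) mw_NWNW mw_NWES
  · exact okm_trans (m := 2) (m' := 2) mw_NWNW mw_NWNE
  · exact okm_trans (m := 2) (m' := 2) mw_NWNW mw_NWNW
  · exact okm_trans (m := 2) (m' := 2) mw_NWNW mw_NWNS
  · exact okm_trans (m := 2) (m' := 2) mw_NWNS mw_NSWE
  · exact okm_trans (m := 2) (m' := 2) mw_NWEN mw_ENWN
  · exact okm_trans (m := 2) (m' := 2) mw_NWNW mw_NWWS
  · exact okm_trans (m := 2) (m' := 2) mw_NWEN mw_ENSE
  · exact okm_trans (m := 2) (m' := 2) mw_NWEW mw_EWSN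
  · exact okm_trans (m := 2) (m' := 2) mw_NWNW mw_NWSW

theorem reach_NS (h' : e ≠ e') : OKm 4 .N .S e e' := by
  cases e <;> cases e' <;> first | exact absurd rfl h' | skip
  · exact okm_trans (m := 2) (m' := 2) mw_NSES mw_ESEN
  · exact okm_trans (m := 2) (m' := 2) mw_NSNS mw_NSEW
  · exact okm_trans (m := 2) (m' := 2) mw_NSNS mw_NSES
  · exact okm_trans (m := 2) (m' := 2) mw_NSNS mw_NSNE
  · exact okm_trans (m := 2) (m' := 2) mw_NSNS mw_NSNW
  · exact okm_trans (m := 2) (m' := 2) mw_NSNS mw_NSNS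
  · exact okm_trans (m := 2) (m' := 2) mw_NSNS mw_NSWE
  · exact okm_trans (m := 2) (m' := 2) mw_NSNE mw_NEWN
  · exact okm_trans (m := 2) (m' := 2) mw_NSNS mw_NSWS
  · exact okm_trans (m := 2) (m' := 2) mw_NSNE mw_NESE
  · exact okm_trans (m := 2) (m' := 2) mw_NSWE mw_WESN
  · exact okm_trans (m := 2) (m' := 2) mw_NSES mw_ESSW

theorem reach_WE (h' : e ≠ e') : OKm 4 .W .E e e' := by
  cases e <;> cases e' <;> first | exact absurd rfl h' | skip
  · exact okm_trans (m := 2) (m' := 2) mw_WEWN mw_WNEN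
  · exact okm_trans (m := 2) (m' := 2) mw_WESN mw_SNEW
  · exact okm_trans (m := 2) (m' := 2) mw_WEWS mw_WSES
  · exact okm_trans (m := 2) (m' := 2) mw_WEWN mw_WNNE
  · exact okm_trans (m := 2) (m' := 2) mw_WEWS mw_WSNW
  · exact okm_trans (m := 2) (m' := 2) mw_WEWE mw_WENS
  · exact okm_trans (m := 2) (m' := 2) mw_WEWN mw_WNWE
  · exact okm_trans (m := 2) (m' := 2) mw_WEWN mw_WNWN
  · exact okm_trans (m := 2) (m' := 2) mw_WEWN mw_WNWS
  · exact okm_trans (m := 2) (m' := 2) mw_WEWN mw_WNSE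
  · exact okm_trans (m := 2) (m' := 2) mw_WEWN mw_WNSN
  · exact okm_trans (m := 2) (m' := 2) mw_WEWN mw_WNSW

theorem reach_WN (h' : e ≠ e') : OKm 4 .W .N e e' := by
  cases e <;> cases e' <;> first | exact absurd rfl h' | skip
  · exact okm_trans (m := 2) (m' := 2) mw_WNWN mw_WNEN
  · exact okm_trans (m := 2) (m' := 2) mw_WNSN mw_SNEW
  · exact okm_trans (m := 2) (m' := 2) mw_WNWS mw_WSES
  · exact okm_trans (m := 2) (m' := 2) mw_WNWN mw_WNNE
  · exact okm_trans (m := 2) (m' := 2) mw_WNWS mw_WSNW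
  · exact okm_trans (m := 2) (m' := 2) mw_WNWE mw_WENS
  · exact okm_trans (m := 2) (m' := 2) mw_WNWN mw_WNWE
  · exact okm_trans (m := 2) (m' := 2) mw_WNWN mw_WNWN
  · exact okm_trans (m := 2) (m' := 2) mw_WNWN mw_WNWS
  · exact okm_trans (m := 2) (m' := 2) mw_WNWN mw_WNSE
  · exact okm_trans (m := 2) (m' := 2) mw_WNWN mw_WNSN
  · exact okm_trans (m := 2) (m' := 2) mw_WNWN mw_WNSW

theorem reach_WS (h' : e ≠ e') : OKm 4 .W .S e e' := by
  cases e <;> cases e' <;> first | exact absurd rfl h' | skip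
  · exact okm_trans (m := 2) (m' := 2) mw_WSWN mw_WNEN
  · exact okm_trans (m := 2) (m' := 2) mw_WSNS mw_NSEW
  · exact okm_trans (m := 2) (m' := 2) mw_WSWS mw_WSES
  · exact okm_trans (m := 2) (m' := 2) mw_WSWS mw_WSNE
  · exact okm_trans (m := 2) (m' := 2) mw_WSWS mw_WSNW
  · exact okm_trans (m := 2) (m' := 2) mw_WSWS mw_WSNS
  · exact okm_trans (m := 2) (m' := 2) mw_WSWS mw_WSWE
  · exact okm_trans (m := 2) (m' := 2) mw_WSWS mw_WSWN
  · exact okm_trans (m := 2) (m' := 2) mw_WSWS mw_WSWS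
  · exact okm_trans (m := 2) (m' := 2) mw_WSWS mw_WSSE
  · exact okm_trans (m := 2) (m' := 2) mw_WSWE mw_WESN
  · exact okm_trans (m := 2) (m' := 2) mw_WSWN mw_WNSW

theorem reach_SE (h' : e ≠ e') : OKm 4 .S .E e e' := by
  cases e <;> cases e' <;> first | exact absurd rfl h' | skip
  · exact okm_trans (m := 2) (m' := 2) mw_SESE mw_SEEN
  · exact okm_trans (m := 2) (m' := 2) mw_SESN mw_SNEW
  · exact okm_trans (m := 2) (m' := 2) mw_SESW mw_SWES
  · exact okm_trans (m := 2) (m' := 2) mw_SESE mw_SENE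
  · exact okm_trans (m := 2) (m' := 2) mw_SESW mw_SWNW
  · exact okm_trans (m := 2) (m' := 2) mw_SEWE mw_WENS
  · exact okm_trans (m := 2) (m' := 2) mw_SESE mw_SEWE
  · exact okm_trans (m := 2) (m' := 2) mw_SESE mw_SEWN
  · exact okm_trans (m := 2) (m' := 2) mw_SESE mw_SEWS
  · exact okm_trans (m := 2) (m' := 2) mw_SESE mw_SESE
  · exact okm_trans (m := 2) (m' := 2) mw_SESE mw_SESN
  · exact okm_trans (m := 2) (m' := 2) mw_SESE mw_SESW

theorem reach_SN (h' : e ≠ e') : OKm 4 .S .N e e' := by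
  cases e <;> cases e' <;> first | exact absurd rfl h' | skip
  · exact okm_trans (m := 2) (m' := 2) mw_SNSN mw_SNEN
  · exact okm_trans (m := 2) (m' := 2) mw_SNSN mw_SNEW
  · exact okm_trans (m := 2) (m' := 2) mw_SNSW mw_SWES
  · exact okm_trans (m := 2) (m' := 2) mw_SNSE mw_SENE
  · exact okm_trans (m := 2) (m' := 2) mw_SNSW mw_SWNW
  · exact okm_trans (m := 2) (m' := 2) mw_SNWE mw_WENS
  · exact okm_trans (m := 2) (m' := 2) mw_SNSN mw_SNWE
  · exact okm_trans (m := 2) (m' := 2) mw_SNSN mw_SNWN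
  · exact okm_trans (m := 2) (m' := 2) mw_SNSE mw_SEWS
  · exact okm_trans (m := 2) (m' := 2) mw_SNSN mw_SNSE
  · exact okm_trans (m := 2) (m' := 2) mw_SNSN mw_SNSN
  · exact okm_trans (m := 2) (m' := 2) mw_SNSN mw_SNSW

theorem reach_SW (h' : e ≠ e') : OKm 4 .S .W e e' := by
  cases e <;> cases e' <;> first | exact absurd rfl h' | skip
  · exact okm_trans (m := 2) (m' := 2) mw_SWSE mw_SEEN
  · exact okm_trans (m := 2) (m' := 2) mw_SWSN mw_SNEW
  · exact okm_trans (m := 2) (m' := 2) mw_SWSW mw_SWES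
  · exact okm_trans (m := 2) (m' := 2) mw_SWSE mw_SENE
  · exact okm_trans (m := 2) (m' := 2) mw_SWSW mw_SWNW
  · exact okm_trans (m := 2) (m' := 2) mw_SWEW mw_EWNS
  · exact okm_trans (m := 2) (m' := 2) mw_SWSE mw_SEWE
  · exact okm_trans (m := 2) (m' := 2) mw_SWSE mw_SEWN
  · exact okm_trans (m := 2) (m' := 2) mw_SWSE mw_SEWS
  · exact okm_trans (m := 2) (m' := 2) mw_SWSE mw_SESE
  · exact okm_trans (m := 2) (m' := 2) mw_SWSE mw_SESN
  · exact okm_trans (m := 2) (m' := 2) mw_SWSE mw_SESW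

/-- Everything can be reached in four moves. -/
theorem okm_reach (h : d ≠ d') (h' : e ≠ e') : OKm 4 d d' e e' := by
  cases d <;> cases d' <;> first | exact absurd rfl h | skip
  · exact reach_EN h'
  · exact reach_EW h'
  · exact reach_ES h'
  · exact reach_NE h'
  · exact reach_NW h'
  · exact reach_NS h'
  · exact reach_WE h'
  · exact reach_WN h'
  · exact reach_WS h'
  · exact reach_SE h'
  · exact reach_SN h'
  · exact reach_SW h'

theorem bS_step (c : ℝ) (hc : 0 < c) (K : ℕ) : ∃ C : ℝ, 0 < C ∧ ∀ (s : Src) (k n : ℕ) (q : I),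
    8 ≤ k → k ≤ K * n → RSWreg c n q → bS q s k ≤ C * bS q s (4 * k) := by
  have hex : ∀ d d' : Side, ∃ C : ℝ, 0 < C ∧ ∀ (s : Src) (k n : ℕ) (q : I),
      8 ≤ k → k ≤ K * n → RSWreg c n q → Pr q (Sep s d d' k) ≤ C * Pr q (Sep s d d' (4 * k)) := by
    intro d d'
    by_cases h : d = d'
    · subst h
      refine ⟨1, one_pos, fun s k n q _ _ _ => ?_⟩
      rw [sep_same, sep_same]
      simp
    · obtain ⟨C, hC, H⟩ := okm_straight h c K hc
      refine ⟨C, hC, fun s k n q hk hkn hR => ?_⟩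
      simpa using H s k n q hk hkn hR
  choose C hC H using hex
  have hle : ∀ d d' : Side, C d d' ≤ ∑ a : Side, ∑ b : Side, C a b := by
    intro d d'
    calc C d d' ≤ ∑ b : Side, C d b :=
          Finset.single_le_sum (f := fun b => C d b) (fun b _ => (hC d b).le) (Finset.mem_univ d')
      _ ≤ ∑ a : Side, ∑ b : Side, C a b :=
          Finset.single_le_sum (f := fun a => ∑ b : Side, C a b)
            (fun a _ => Finset.sum_nonneg fun b _ => (hC a b).le) (Finset.mem_univ d)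
  refine ⟨∑ a : Side, ∑ b : Side, C a b, lt_of_lt_of_le (hC .E .E) (hle .E .E),
    fun s k n q hk hkn hR => ?_⟩
  unfold bS
  rw [Finset.mul_sum]
  refine Finset.sum_le_sum fun d _ => ?_
  rw [Finset.mul_sum]
  refine Finset.sum_le_sum fun d' _ => ?_
  refine (H d d' s k n q hk hkn hR).trans ?_
  exact mul_le_mul_of_nonneg_right (hle d d') measureReal_nonneg

theorem bS_reach (c : ℝ) (hc : 0 < c) (K : ℕ) : ∃ C : ℝ, 0 < C ∧ ∀ (s : Src) (k n : ℕ) (q : I)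
    (e e' : Side), e ≠ e' → 8 ≤ k → k ≤ K * n → RSWreg c n q →
      bS q s k ≤ C * Pr q (Sep s e e' (256 * k)) := by
  have hex : ∀ d d' e e' : Side, ∃ C : ℝ, 0 < C ∧ (e ≠ e' → ∀ (s : Src) (k n : ℕ) (q : I),
      8 ≤ k → k ≤ K * n → RSWreg c n q →
        Pr q (Sep s d d' k) ≤ C * Pr q (Sep s e e' (256 * k))) := by
    intro d d' e e'
    by_cases he : e ≠ e'
    · by_cases h : d = d'
      · subst h
        refine ⟨1, one_pos, fun _ s k n q _ _ _ => ?_⟩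
        rw [sep_same]
        have h0 : Pr q (∅ : Set Config) = 0 := measureReal_empty
        rw [h0, one_mul]
        exact measureReal_nonneg
      · obtain ⟨C, hC, H⟩ := okm_reach h he c K hc
        refine ⟨C, hC, fun _ s k n q hk hkn hR => ?_⟩
        have h1 := H s k n q hk hkn hR
        norm_num at h1
        exact h1
    · exact ⟨1, one_pos, fun h => absurd h he⟩
  choose C hC H using hex
  have hp : 0 < ∑ a : Side, ∑ b : Side, ∑ e : Side, ∑ e' : Side, C a b e e' := by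
    refine Finset.sum_pos (fun a _ => Finset.sum_pos (fun b _ => Finset.sum_pos (fun e _ =>
      Finset.sum_pos (fun e' _ => hC a b e e') ⟨.E, Finset.mem_univ _⟩)
      ⟨.E, Finset.mem_univ _⟩) ⟨.E, Finset.mem_univ _⟩) ⟨.E, Finset.mem_univ _⟩
  refine ⟨_, hp, fun s k n q e e' he hk hkn hR => ?_⟩
  unfold bS
  rw [Finset.sum_mul]
  refine Finset.sum_le_sum fun d _ => ?_
  rw [Finset.sum_mul]
  refine Finset.sum_le_sum fun d' _ => ?_
  refine (H d d' e e' he s k n q hk hkn hR).trans ?_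
  refine mul_le_mul_of_nonneg_right ?_ measureReal_nonneg
  calc C d d' e e' ≤ ∑ b : Side, C d d' e b :=
        Finset.single_le_sum (f := fun b => C d d' e b) (fun b _ => (hC d d' e b).le)
          (Finset.mem_univ e')
    _ ≤ ∑ a : Side, ∑ b : Side, C d d' a b :=
        Finset.single_le_sum (f := fun a => ∑ b : Side, C d d' a b)
          (fun a _ => Finset.sum_nonneg fun b _ => (hC d d' a b).le) (Finset.mem_univ e)

end Pool.Agent.H38.N59
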