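import Pool.Agent.H38.SK.N59.Defs
import Pool.Agent.H83.SK.P29.NoArm
import Pool.Agent.H83.SK.P29.ExplB

/-!
# Seals for site percolation
-/

set_option autoImplicit false

open MeasureTheory ProbabilityTheory unitInterval

namespace Pool.Agent.H38.N59

open Pool.Agent.H89.Perc
open Pool.Agent.H83.SK (sv sit sit_true RSWreg)
open Pool.Agent.H59.EX (LocS inE touch clus closeS Side T Mouth Fence dom pb grid)

theorem ball_of_joins {e : Edge} {a b : Vert} (hj : Joins e a b) : a ∈ ball b 1 :=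
  Pool.Agent.H59.EX.ball_of_joins hj

/-- **Seal lemma.**  `η` is a configuration which is below `w` off `t`; open steps of `η` leave `S`
only at the vertices of `Ex`, to a site which is neither in `F` nor in `t`, and enter `F` from
elsewhere only far from `Ex`; open sites off `S ∪ F` are not in `t`.  If `w` is sealed near `Ex`,
then the cluster of `S` stays near `S` and off `F`. -/
theorem seal_confine {η w : Config} {W S F Ex : Set Vert} {t : Set Edge} {G : Finset Vert}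
    {ρ : ℕ} (hηw : ∀ a : Vert, sv a ∉ t → η (sv a) = true → w (sv a) = true)
    (hseal : w ∈ Seal G ρ t)
    (hG : ∀ a ∈ Ex, ∀ b, b ∈ ball a 1 → ∃ g ∈ G, b ∈ ball g ρ)
    (h1 : ∀ a b e, Joins e a b → η (sv a) = true → η (sv b) = true → a ∈ W → b ∈ W → a ∈ S →
      b ∉ S → a ∈ Ex ∧ b ∉ F ∧ sv b ∉ t)
    (h2 : ∀ a b e, Joins e a b → η (sv a) = true → η (sv b) = true → a ∈ W → b ∈ W → a ∉ S →
      a ∉ F → b ∈ F → ∀ x ∈ Ex, b ∉ ball x (4 * ρ + 2))
    (h3 : ∀ a b e, Joins e a b → η (sv a) = true → η (sv b) = true → a ∈ W → b ∈ W → a ∉ S →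
      a ∉ F → b ∉ S → b ∉ F → sv b ∉ t)
    {x z : Vert} (hx : x ∈ S) (h : Conn (sit η) W x z) :
    z ∈ S ∨ (z ∉ F ∧ ∃ a ∈ Ex, z ∈ ball a (4 * ρ + 1)) := by
  have key : z ∈ S ∨ (z ∉ S ∧ z ∉ F ∧ closeS t w (sv z) = true ∧ ∃ a ∈ Ex, ∃ b, b ∈ ball a 1 ∧
      Conn (sit (closeS t w)) Set.univ b z) := by
    refine h.induction_right
      (P := fun z => z ∈ S ∨ (z ∉ S ∧ z ∉ F ∧ closeS t w (sv z) = true ∧ ∃ a ∈ Ex, ∃ b,
        b ∈ ball a 1 ∧ Conn (sit (closeS t w)) Set.univ b z)) (Or.inl hx) ?_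
    rintro a b _ ⟨haW, hbW, e, hj, ho⟩ ih
    obtain ⟨hoa, hob⟩ := (sit_joins hj).1 ho
    have hopen : sv b ∉ t → closeS t w (sv b) = true := fun hbt =>
      closeS_true.2 ⟨hηw b hbt hob, hbt⟩
    by_cases hbS : b ∈ S
    · exact Or.inl hbS
    rcases ih with haS | ⟨haS, haF, hca, c, hc, c', hc', hcc⟩
    · obtain ⟨k1, k2, k3⟩ := h1 a b e hj hoa hob haW hbW haS hbS
      exact Or.inr ⟨hbS, k2, hopen k3, a, k1, b, ball_of_joins hj.symm, Conn.refl trivial⟩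
    · by_cases hbF : b ∈ F
      · exfalso
        obtain ⟨g, hg, hcg⟩ := hG c hc c' hc'
        have ha : a ∈ ball g (3 * ρ) := by
          by_contra ha
          exact hseal g hg c' hcg a ha hcc
        refine h2 a b e hj hoa hob haW hbW haS haF hbF c hc ?_
        have hab := ball_of_joins hj.symm
        rw [mem_ball] at ha hcg hc' hab ⊢
        push_cast at ha hc' hab ⊢
        omega
      · have k := hopen (h3 a b e hj hoa hob haW hbW haS haF hbS hbF)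
        exact Or.inr ⟨hbS, hbF, k, c, hc, c', hc', hcc.tail ⟨trivial, trivial, e, hj,
          (sit_joins hj).2 ⟨hca, k⟩⟩⟩
  rcases key with h | ⟨-, hF, -, a, ha, b, hb, hbc⟩
  · exact Or.inl h
  · refine Or.inr ⟨hF, a, ha, ?_⟩
    obtain ⟨g, hg, hag⟩ := hG a ha b hb
    have hz : z ∈ ball g (3 * ρ) := by
      by_contra hz
      exact hseal g hg b hag z hz hbc
    rw [mem_ball] at hz hag hb ⊢
    push_cast at hz hb ⊢
    omega

theorem seal_anti {G : Finset Vert} {ρ : ℕ} {t : Set Edge} {w w' : Config}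
    (h : w' ∈ Seal G ρ t) (hω : ∀ e, e ∉ t → w e = true → w' e = true) : w ∈ Seal G ρ t := by
  intro g hg u hu v hv hc
  refine h g hg u hu v hv (conn_mono le_rfl ?_ hc)
  intro e he
  rw [closeS_true] at he ⊢
  exact ⟨hω e he.2 he.1, he.2⟩

theorem locS_seal (G : Finset Vert) (ρ : ℕ) (t : Set Edge) : LocS tᶜ (Seal G ρ t) := by
  intro ω ω' h hω
  refine seal_anti hω fun e he ho => ?_
  rw [h e he]
  exact ho

theorem seal_decr (G : Finset Vert) (ρ : ℕ) (t : Set Edge) : Incr (Seal G ρ t)ᶜ := by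
  intro ω ω' h hω hω'
  exact hω (seal_anti hω' fun e _ he => h e he)

/-- Sites of `ball g r` (as a finite set). -/
noncomputable def bF (g : Vert) (r : ℕ) : Finset Edge := by
  classical exact (eRect (g.1 - r) (g.1 + r) (g.2 - r) (g.2 + r)).filter (fun e => e.2.2 = false)

theorem mem_bF {g : Vert} {r : ℕ} {e : Edge} : e ∈ bF g r ↔ e ∈ vE (ball g r) := by
  classical
  simp only [bF, Finset.mem_filter, mem_eRect]
  exact and_comm

private theorem localOn_arm' (g : Vert) (k r : ℕ) :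
    LocalOn (bF g r) {w | sit w ∈ (ArmBox g k r)ᶜ} := by
  intro w w' h hw hw'
  refine hw ?_
  obtain ⟨p, hp, u, hu, hc⟩ := hw'
  exact ⟨p, hp, u, hu, conn_congr (fun e he => (h e (mem_bF.2 he)).symm) hc⟩

/-- `Seal` is a local event. -/
theorem localOn_seal (G : Finset Vert) (ρ : ℕ) : ∃ Λ : Finset Edge, ∀ t : Set Edge,
    LocalOn Λ (Seal G ρ t) := by
  classical
  refine ⟨G.biUnion fun g => bF g (3 * ρ + 1), fun t ω ω' h hω g hg u hu v hv hc => ?_⟩
  have hu' : u ∈ ball g (3 * ρ) := by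
    rw [mem_ball] at hu ⊢
    push_cast
    omega
  obtain ⟨w, w', h1, h2, h3, -⟩ := hc.exists_exit hu' hv
  have hw : w ∈ ball g (3 * ρ) := h1.mem_right.2
  have hw1 : w ∈ ball g (3 * ρ + 1) := by
    rw [mem_ball] at hw ⊢
    push_cast at hw ⊢
    omega
  have hw' : w' ∈ ball g (3 * ρ + 1) := by
    have k1 := h2.fst_le
    have k2 := h2.snd_le
    rw [mem_ball] at hw ⊢
    push_cast at hw ⊢
    omega
  have hsub : Set.univ ∩ ball g (3 * ρ) ⊆ ball g (3 * ρ + 1) := by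
    rintro z ⟨-, hz⟩
    rw [mem_ball] at hz ⊢
    push_cast at hz ⊢
    omega
  have hc2 : Conn (sit (closeS t ω')) (ball g (3 * ρ + 1)) u w' :=
    (h1.mono_set hsub).tail ⟨hw1, hw', h2.2.2⟩
  have hc3 : Conn (sit (closeS t ω)) (ball g (3 * ρ + 1)) u w' := by
    refine conn_congr (fun e he => ?_) hc2
    have := h e (Finset.mem_biUnion.2 ⟨g, hg, mem_bF.2 he⟩)
    simp only [closeS, this]
  exact hω g hg u hu w' h3 (hc3.mono_set (Set.subset_univ _))

/-- The intersection of the no-arm events is contained in the seal. -/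
private theorem noarm_subset_seal (G : Finset Vert) (ρ : ℕ) (t : Set Edge) {w : Config}
    (h : ∀ g ∈ G, sit w ∈ (ArmBox g ρ (3 * ρ))ᶜ) : w ∈ Seal G ρ t := by
  intro g hg u hu v hv hc
  have hu' : u ∈ ball g (3 * ρ) := by
    rw [mem_ball] at hu ⊢
    push_cast
    omega
  have hc' : Conn (sit w) Set.univ u v := conn_mono le_rfl (fun e he => (closeS_true.1 he).1) hc
  obtain ⟨x, hx, hcx⟩ := hc'.to_sphere (v := g) (r := 3 * ρ) hu' (Or.inl hv)
  exact h g hg ⟨u, hu, x, hx, hcx.mono_set Set.inter_subset_right⟩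

/-- The same for a pulled back configuration, if `π` is injective on the sites of every
`ball g (3 ρ)`. -/
theorem seal_lower_pb (c : ℝ) (hc : 0 < c) (K M : ℕ) : ∃ c' : ℝ, 0 < c' ∧ ∀ (n ρ : ℕ) (q : I)
    (G : Finset Vert) (t : Set Edge) (π : Edge → Edge), 1 ≤ n → RSWreg c n q → 1 ≤ ρ →
      ρ ≤ K * n → G.card ≤ M → (∀ g ∈ G, Set.InjOn π (vE (ball g (3 * ρ)))) →
      c' ≤ Pr q {ω | pb π ω ∈ Seal G ρ t} := by
  classical
  obtain ⟨c₀, hc₀, h0⟩ := Pool.Agent.H83.SK.noarm_lower c hc K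
  refine ⟨(min c₀ 1) ^ M, pow_pos (lt_min hc₀ one_pos) _, ?_⟩
  intro n ρ q G t π hn hr hρ hρK hG hinj
  have hm0 : 0 ≤ min c₀ 1 := (lt_min hc₀ one_pos).le
  have h1 : (min c₀ 1) ^ M ≤ (min c₀ 1) ^ G.card :=
    pow_le_pow_of_le_one hm0 (min_le_right _ _) hG
  have hloc : ∀ g ∈ G, LocalOn ((bF g (3 * ρ)).image π)
      {ω | sit (pb π ω) ∈ (ArmBox g ρ (3 * ρ))ᶜ} := by
    intro g _ ω ω' h hω
    exact localOn_arm' g ρ (3 * ρ) _ _
      (fun e he => h _ (Finset.mem_image_of_mem π he)) hω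
  have hincr : ∀ g ∈ G, Incr ({ω | sit (pb π ω) ∈ (ArmBox g ρ (3 * ρ))ᶜ} : Set Config)ᶜ := by
    intro g _ ω ω' h hω hω'
    have h2 : sit (pb π ω) ∈ ArmBox g ρ (3 * ρ) := by
      by_contra hcon
      exact hω hcon
    exact hω' (incr_armBox g ρ (3 * ρ) _ _ (sit_mono fun e he => h _ he) h2)
  have hP : ∀ g ∈ G, min c₀ 1 ≤ Pr q {ω | sit (pb π ω) ∈ (ArmBox g ρ (3 * ρ))ᶜ} := by
    intro g hg
    have h2 : Pr q {ω | (fun e => ω (π e)) ∈ {w | sit w ∈ (ArmBox g ρ (3 * ρ))ᶜ}} =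
        Pr q {w | sit w ∈ (ArmBox g ρ (3 * ρ))ᶜ} := by
      refine Pr_comp (localOn_arm' g ρ (3 * ρ)) ?_
      intro a ha b hb hab
      exact hinj g hg (mem_bF.1 (Finset.mem_coe.1 ha)) (mem_bF.1 (Finset.mem_coe.1 hb)) hab
    have h3 := h0 n q hn hr g ρ hρ hρK
    refine (min_le_left _ _).trans (h3.trans (le_of_eq ?_))
    exact h2.symm
  have h4 : (min c₀ 1) ^ G.card ≤
      Pr q (⋂ g ∈ G, {ω | sit (pb π ω) ∈ (ArmBox g ρ (3 * ρ))ᶜ}) :=
    Pool.Agent.H29.Sep.fkg_decr_many (p := q) G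
      (fun g => {ω | sit (pb π ω) ∈ (ArmBox g ρ (3 * ρ))ᶜ}) (fun g => (bF g (3 * ρ)).image π)
      hm0 hloc hincr hP
  refine (h1.trans h4).trans (Pr_mono ?_)
  intro ω hω
  simp only [Set.mem_iInter] at hω
  exact noarm_subset_seal G ρ t fun g hg => hω g hg

theorem seal_lower (c : ℝ) (hc : 0 < c) (K M : ℕ) : ∃ c' : ℝ, 0 < c' ∧ ∀ (n ρ : ℕ) (q : I)
    (G : Finset Vert) (t : Set Edge), 1 ≤ n → RSWreg c n q → 1 ≤ ρ → ρ ≤ K * n → G.card ≤ M →
      c' ≤ Pr q (Seal G ρ t) := by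
  obtain ⟨c', hc', h⟩ := seal_lower_pb c hc K M
  refine ⟨c', hc', fun n ρ q G t hn hr hρ hρK hG => ?_⟩
  exact h n ρ q G t id hn hr hρ hρK hG fun g _ => Set.injOn_id _

end Pool.Agent.H38.N59
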