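import Pool.Agent.H38.SK.N59.Stage
import Pool.Agent.H38.SK.N59.Corr
import Pool.Agent.H59.EX.Sym

/-!
# Symmetries of the separated events for sites, sum over sides
-/

set_option autoImplicit false

open MeasureTheory ProbabilityTheory unitInterval

namespace Pool.Agent.H38.N59

open Pool.Agent.H89.Perc
open Pool.Agent.H61.NC hiding RSWreg
open Pool.Agent.H83.SK (sv sit sit_true RSWreg)
open Pool.Agent.H59.EX (LocS inE touch clus closeS Side T Mouth Fence dom Gen OnSide fence_mem)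

private theorem sym_joins (g : Gen) (e : Edge) (a b : Vert) (h : Joins e a b) :
    Joins (g.e e) (g.v a) (g.v b) := by
  cases g
  · exact joins_swap e a b h
  · have := joins_reflX 0 e a b h
    rw [zero_sub, zero_sub] at this
    exact this
  · have := joins_reflY 0 e a b h
    rw [zero_sub, zero_sub] at this
    exact this

private theorem sym_ends (g : Gen) (e : Edge) :
    (src (g.e e) = g.v (src e) ∧ tgt (g.e e) = g.v (tgt e)) ∨
      (src (g.e e) = g.v (tgt e) ∧ tgt (g.e e) = g.v (src e)) := by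
  rcases sym_joins g e _ _ (joins_src_tgt e) with ⟨h1, h2⟩ | ⟨h1, h2⟩
  · exact Or.inl ⟨h1.symm, h2.symm⟩
  · exact Or.inr ⟨h2.symm, h1.symm⟩

/-- The action on the coordinates of the sites. -/
def gp (g : Gen) (e : Edge) : Edge := if e.2.2 = false then sv (g.v (src e)) else e

theorem gp_sv (g : Gen) (a : Vert) : gp g (sv a) = sv (g.v a) := by
  simp [gp, sv, src]

theorem gp_gp (g : Gen) (e : Edge) : gp g (gp g e) = e := by
  by_cases h : e.2.2 = false
  · have h1 : e = sv (src e) := by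
      obtain ⟨x, y, t⟩ := e
      have h4 : t = false := h
      simp [sv, src, h4]
    rw [h1, gp_sv, gp_sv, g.v_v]
  · have h1 : gp g e = e := by simp [gp, h]
    rw [h1, h1]

theorem gp_inj (g : Gen) : Function.Injective (gp g) :=
  Function.LeftInverse.injective (gp_gp g)

/-- The induced configuration of the transformed configuration. -/
theorem gp_sit (g : Gen) (ω : Config) : sit (fun e => ω (gp g e)) = fun e => sit ω (g.e e) := by
  funext e
  unfold sit
  change (ω (gp g (sv (src e))) && ω (gp g (sv (tgt e)))) = _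
  rw [gp_sv, gp_sv]
  rcases sym_ends g e with ⟨h1, h2⟩ | ⟨h1, h2⟩
  · rw [h1, h2]
  · rw [h1, h2, Bool.and_comm]

/-- The image of a source. -/
noncomputable def Src.map (g : Gen) (s : Src) : Src where
  x := g.v s.x
  y := g.v s.y
  V0 := s.V0.image g.v
  hx := (g.mem_ball 2 s.x).2 s.hx
  hy := (g.mem_ball 2 s.y).2 s.hy
  hV := by
    intro v hv
    obtain ⟨f, hf, rfl⟩ := Finset.mem_image.1 hv
    exact (g.mem_ball 2 f).2 (s.hV f hf)

/-- Exchange the two points. -/
def Src.flip (s : Src) : Src := ⟨s.y, s.x, s.V0, s.hy, s.hx, s.hV⟩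

/-- `x` reaches the side `d` of `ball 0 (8 w)`. -/
def Land (d : Side) (s : Src) (w : ℕ) : Set Config :=
  {ω | ∃ u, OnSide d (8 * w) u ∧ Conn (sit (s.cut ω)) (ball 0 (8 * w)) s.x u}

variable {q : I} {s : Src} {d d' : Side} {k r w : ℕ}

/-! ### The action on the constructions -/

private theorem sym_mem_vE (g : Gen) (S : Set Vert) (e : Edge) :
    e ∈ vE S ↔ gp g e ∈ vE {w | g.v w ∈ S} := by
  by_cases h : e.2.2 = false
  · have h1 : e = sv (src e) := by
      obtain ⟨x, y, t⟩ := e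
      have h4 : t = false := h
      simp [sv, src, h4]
    rw [h1, gp_sv, sv_mem_vE, sv_mem_vE, Set.mem_ofPred_eq, g.v_v]
  · have h1 : gp g e = e := by simp [gp, h]
    rw [h1]
    exact ⟨fun h2 => absurd h2.1 h, fun h2 => absurd h2.1 h⟩

private theorem sym_cut (g : Gen) (s : Src) (ω : Config) :
    (s.map g).cut (fun e => ω (gp g e)) = fun e => s.cut ω (gp g e) := by
  funext e
  have h : e ∈ vE ((s.map g).V0 : Set Vert) ↔ gp g e ∈ vE (s.V0 : Set Vert) := by
    rw [sym_mem_vE g]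
    have h2 : {w | g.v w ∈ ((s.map g).V0 : Set Vert)} = (s.V0 : Set Vert) := by
      ext a
      simp only [Set.mem_ofPred_eq, Finset.mem_coe, Src.map, Finset.mem_image]
      constructor
      · rintro ⟨b, hb, h3⟩
        have h4 := congrArg g.v h3
        rw [g.v_v, g.v_v] at h4
        rwa [← h4]
      · intro ha
        exact ⟨a, ha, rfl⟩
    rw [h2]
  rw [Bool.eq_iff_iff]
  unfold Src.cut
  rw [closeS_true, closeS_true, h]

private theorem sym_fill (g : Gen) (S : Set Vert) (η : Config) :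
    fillS S (fun e => η (gp g e)) = fun e => fillS {w | g.v w ∈ S} η (gp g e) := by
  funext e
  rw [Bool.eq_iff_iff, fillS_true, fillS_true, sym_mem_vE g]

private theorem sym_conn (g : Gen) (η : Config) (S : Set Vert) (u v : Vert) :
    Conn (sit (fun e => η (gp g e))) S u v ↔
      Conn (sit η) {w | g.v w ∈ S} (g.v u) (g.v v) := by
  rw [gp_sit]
  exact conn_invol g.e_e g.v_v (sym_joins g) S u v

private theorem sym_conn' (g : Gen) (η : Config) (S : Set Vert) (u v : Vert) :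
    Conn (sit (fun e => η (gp g e))) S (g.v u) (g.v v) ↔ Conn (sit η) {w | g.v w ∈ S} u v := by
  rw [sym_conn, g.v_v, g.v_v]

private theorem sym_T (g : Gen) (d : Side) (k : ℕ) (w : Vert) :
    g.v w ∈ T (g.s d) k ↔ w ∈ T d k := by
  cases g <;> cases d <;> simp only [Gen.v, Gen.s, T, rect, Set.mem_ofPred_eq] <;> omega

private theorem sym_Mouth (g : Gen) (d : Side) (k : ℕ) (w : Vert) :
    g.v w ∈ Mouth (g.s d) k ↔ w ∈ Mouth d k := by
  cases g <;> cases d <;> simp only [Gen.v, Gen.s, Mouth, rect, Set.mem_ofPred_eq] <;> omega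

private theorem sym_sphere (g : Gen) (r : ℕ) (a : Vert) : g.v a ∈ sphere 0 r ↔ a ∈ sphere 0 r := by
  have h := g.mem_ball r a
  unfold sphere
  simp only [Set.mem_ofPred_eq]
  rw [h]
  cases g <;> simp only [Gen.v, Prod.fst_zero, Prod.snd_zero] <;>
    refine and_congr_right fun _ => ?_ <;> omega

private theorem sym_side (g : Gen) (d : Side) (r : ℕ) (a : Vert) :
    OnSide (g.s d) r (g.v a) ↔ OnSide d r a := by
  unfold OnSide
  rw [sym_sphere]
  refine and_congr_right fun _ => ?_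
  cases g <;> cases d <;> simp only [Gen.v, Gen.s] <;> omega

private theorem sym_T' (g : Gen) (d : Side) (k : ℕ) : {w | g.v w ∈ T (g.s d) k} = T d k := by
  ext w
  exact sym_T g d k w

private theorem sym_ball' (g : Gen) (r : ℕ) : {w | g.v w ∈ ball 0 r} = ball 0 r := by
  ext w
  exact g.mem_ball r w

private theorem sym_TT (g : Gen) (d d' : Side) (k : ℕ) :
    {w | g.v w ∈ T (g.s d) k ∪ T (g.s d') k} = T d k ∪ T d' k := by
  ext w
  simp only [Set.mem_ofPred_eq, Set.mem_union, sym_T]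

private theorem sym_dom (g : Gen) (d d' : Side) (k : ℕ) :
    {w | g.v w ∈ dom (g.s d) (g.s d') k} = dom d d' k := by
  ext w
  simp only [dom, Set.mem_ofPred_eq, Set.mem_union, sym_T, g.mem_ball]

/-- The two ends of a crossing of the target. -/
private def sym_E (d : Side) (k : ℕ) (u v : Vert) : Prop :=
  match d with
  | .E => u.2 = -(3 * k) ∧ v.2 = 3 * k
  | .N => u.1 = -(3 * k) ∧ v.1 = 3 * k
  | .W => u.2 = -(3 * k) ∧ v.2 = 3 * k
  | .S => u.1 = -(3 * k) ∧ v.1 = 3 * k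

private theorem sym_fence_iff {d : Side} {k : ℕ} {ω : Config} {D : Set Vert} {x : Vert} :
    Fence d k ω D x ↔ ∃ u v, sym_E d k u v ∧ Conn ω (T d k) u v ∧ Conn ω D x u := by
  cases d
  all_goals
    constructor
    · rintro ⟨u, v, h1, h2, h3, h4⟩
      exact ⟨u, v, ⟨h1, h2⟩, h3, h4⟩
    · rintro ⟨u, v, ⟨h1, h2⟩, h3, h4⟩
      exact ⟨u, v, h1, h2, h3, h4⟩

private theorem sym_E_g (g : Gen) {d : Side} {k : ℕ} {u v : Vert} (h : sym_E d k u v) :
    sym_E (g.s d) k (g.v u) (g.v v) ∨ sym_E (g.s d) k (g.v v) (g.v u) := by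
  cases g <;> cases d <;> simp only [sym_E, Gen.s, Gen.v] at h ⊢ <;> omega

private theorem sym_fence (g : Gen) {d : Side} {k : ℕ} {η : Config} {D : Set Vert} {x : Vert}
    (hT : T (g.s d) k ⊆ D) (h : Fence d k (sit η) {w | g.v w ∈ D} x) :
    Fence (g.s d) k (sit (fun e => η (gp g e))) D (g.v x) := by
  obtain ⟨u, v, h1, h2, h3⟩ := sym_fence_iff.1 h
  have h2' : Conn (sit (fun e => η (gp g e))) (T (g.s d) k) (g.v u) (g.v v) := by
    rw [sym_conn', sym_T']
    exact h2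
  have h3' : Conn (sit (fun e => η (gp g e))) D (g.v x) (g.v u) := (sym_conn' g η D x u).2 h3
  rcases sym_E_g g h1 with h4 | h4
  · exact sym_fence_iff.2 ⟨_, _, h4, h2', h3'⟩
  · exact sym_fence_iff.2 ⟨_, _, h4, h2'.symm, h3'.trans (h2'.mono_set hT)⟩

private theorem sym_map_map (g : Gen) (s : Src) : (s.map g).map g = s := by
  obtain ⟨x, y, V0, hx, hy, hV⟩ := s
  simp only [Src.map, Src.mk.injEq]
  refine ⟨g.v_v x, g.v_v y, ?_⟩
  ext e
  simp only [Finset.mem_image]
  constructor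
  · rintro ⟨f, ⟨f', hf', rfl⟩, rfl⟩
    rw [g.v_v]
    exact hf'
  · intro he
    exact ⟨g.v e, ⟨e, he, rfl⟩, g.v_v e⟩

private theorem sym_ful (g : Gen) (s : Src) (d d' : Side) (k : ℕ) (ω : Config) :
    (s.map g).ful (g.s d) (g.s d') k (fun e => ω (gp g e)) =
      fun e => s.ful d d' k ω (gp g e) := by
  unfold Src.ful
  rw [sym_cut, sym_fill, sym_TT]

private theorem sym_T_dom (d d' : Side) (k : ℕ) : T d k ⊆ dom d d' k := fun _ h =>
  Or.inr (Or.inl h)

private theorem sym_T_dom' (d d' : Side) (k : ℕ) : T d' k ⊆ dom d d' k := fun _ h =>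
  Or.inr (Or.inr h)

private theorem sym_sep (g : Gen) {s : Src} {d d' : Side} {k : ℕ} {ω : Config}
    (h : ω ∈ Sep s d d' k) :
    (fun e => ω (gp g e)) ∈ Sep (s.map g) (g.s d) (g.s d') k := by
  obtain ⟨h1, h2, h3, h4, h5⟩ := h
  have hx : (s.map g).x = g.v s.x := rfl
  have hy : (s.map g).y = g.v s.y := rfl
  refine ⟨?_, ?_, ?_, ?_, ?_⟩
  · rw [sym_cut, hx]
    refine sym_fence g (sym_T_dom _ _ k) ?_
    rw [sym_dom]
    exact h1
  · rw [sym_cut, hy]
    refine sym_fence g (sym_T_dom' _ _ k) ?_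
    rw [sym_dom]
    exact h2
  · rw [sym_ful, hx, hy, sym_conn', sym_dom]
    exact h3
  · intro v hv hc
    rw [sym_ful, hx, sym_conn, sym_dom, g.v_v] at hc
    have h6 := h4 (g.v v) ((sym_sphere g _ v).2 hv) hc
    rw [← sym_Mouth g, g.v_v] at h6
    exact h6
  · intro v hv hc
    rw [sym_ful, hy, sym_conn, sym_dom, g.v_v] at hc
    have h6 := h5 (g.v v) ((sym_sphere g _ v).2 hv) hc
    rw [← sym_Mouth g, g.v_v] at h6
    exact h6

private theorem sym_four (g : Gen) {s : Src} {r : ℕ} {ω : Config} (h : ω ∈ Four s r) :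
    (fun e => ω (gp g e)) ∈ Four (s.map g) r := by
  obtain ⟨⟨u, hu, h1⟩, ⟨u', hu', h2⟩, h3⟩ := h
  have hx : (s.map g).x = g.v s.x := rfl
  have hy : (s.map g).y = g.v s.y := rfl
  refine ⟨⟨g.v u, (sym_sphere g r u).2 hu, ?_⟩, ⟨g.v u', (sym_sphere g r u').2 hu', ?_⟩, ?_⟩
  · rw [sym_cut, hx, sym_conn', sym_ball']
    exact h1
  · rw [sym_cut, hy, sym_conn', sym_ball']
    exact h2
  · rw [sym_cut, hx, hy, sym_conn', sym_ball']
    exact h3

private theorem sym_land (g : Gen) {s : Src} {d : Side} {w : ℕ} {ω : Config}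
    (h : ω ∈ Land d s w) : (fun e => ω (gp g e)) ∈ Land (g.s d) (s.map g) w := by
  obtain ⟨u, hu, h1⟩ := h
  have hx : (s.map g).x = g.v s.x := rfl
  refine ⟨g.v u, (sym_side g d _ u).2 hu, ?_⟩
  rw [sym_cut, hx, sym_conn', sym_ball']
  exact h1

theorem localOn_sep (s : Src) (d d' : Side) (k : ℕ) : ∃ Λ : Finset Edge, LocalOn Λ (Sep s d d' k) :=
  ⟨(vE_finite (dom_finite d d' k)).toFinset, locS_localOn (locS_sep s d d' k) (by simp)⟩

theorem locS_four (s : Src) (r : ℕ) : LocS (vE (ball 0 r)) (Four s r) := by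
  have key : ∀ ω ω' : Config, (∀ e ∈ vE (ball 0 r), ω e = ω' e) →
      ∀ u v, Conn (sit (s.cut ω)) (ball 0 r) u v → Conn (sit (s.cut ω')) (ball 0 r) u v :=
    fun ω ω' h u v hc => conn_congr (fun e he => cut_congr (h e he)) hc
  rintro ω ω' h ⟨⟨u, hu, h1⟩, ⟨u', hu', h2⟩, h3⟩
  exact ⟨⟨u, hu, key _ _ h _ _ h1⟩, ⟨u', hu', key _ _ h _ _ h2⟩,
    fun h4 => h3 (key _ _ (fun e he => (h e he).symm) _ _ h4)⟩

theorem locS_land (d : Side) (s : Src) (w : ℕ) : LocS (vE (ball 0 (8 * w))) (Land d s w) := by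
  rintro ω ω' h ⟨u, hu, h1⟩
  exact ⟨u, hu, conn_congr (fun e he => cut_congr (h e he)) h1⟩

theorem localOn_four (s : Src) (r : ℕ) : ∃ Λ : Finset Edge, LocalOn Λ (Four s r) := by
  obtain ⟨Λ, hΛ⟩ := exists_fin r
  exact ⟨Λ, locS_localOn (locS_four s r) fun e he => Finset.mem_coe.2 (hΛ e he)⟩

theorem sep_map (g : Gen) : Pr q (Sep (s.map g) (g.s d) (g.s d') k) = Pr q (Sep s d d' k) := by
  have key : ∀ (s : Src) (d d' : Side),
      Pr q (Sep s d d' k) ≤ Pr q (Sep (s.map g) (g.s d) (g.s d') k) := by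
    intro s d d'
    obtain ⟨Λ, hΛ⟩ := localOn_sep (s.map g) (g.s d) (g.s d') k
    rw [← Pr_comp hΛ (gp_inj g).injOn]
    exact Pr_mono fun ω hω => sym_sep g hω
  refine le_antisymm ?_ (key s d d')
  have h := key (s.map g) (g.s d) (g.s d')
  rw [sym_map_map, g.s_s, g.s_s] at h
  exact h

theorem four_map (g : Gen) : Pr q (Four (s.map g) r) = Pr q (Four s r) := by
  have key : ∀ s : Src, Pr q (Four s r) ≤ Pr q (Four (s.map g) r) := by
    intro s
    obtain ⟨Λ, hΛ⟩ := localOn_four (s.map g) r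
    rw [← Pr_comp hΛ (gp_inj g).injOn]
    exact Pr_mono fun ω hω => sym_four g hω
  refine le_antisymm ?_ (key s)
  have h := key (s.map g)
  rw [sym_map_map] at h
  exact h

theorem four_land_map (g : Gen) :
    Pr q (Four (s.map g) (8 * w) ∩ Land (g.s d) (s.map g) w) = Pr q (Four s (8 * w) ∩ Land d s w) := by
  have key : ∀ (s : Src) (d : Side), Pr q (Four s (8 * w) ∩ Land d s w) ≤
      Pr q (Four (s.map g) (8 * w) ∩ Land (g.s d) (s.map g) w) := by
    intro s d
    obtain ⟨Λ, hΛ⟩ := exists_fin (8 * w)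
    have hl : LocalOn Λ (Four (s.map g) (8 * w) ∩ Land (g.s d) (s.map g) w) :=
      locS_localOn (locS_inter (locS_four (s.map g) (8 * w)) (locS_land (g.s d) (s.map g) w))
        fun e he => Finset.mem_coe.2 (hΛ e he)
    rw [← Pr_comp hl (gp_inj g).injOn]
    exact Pr_mono fun ω hω => ⟨sym_four g hω.1, sym_land g hω.2⟩
  refine le_antisymm ?_ (key s d)
  have h := key (s.map g) (g.s d)
  rw [sym_map_map, g.s_s] at h
  exact h

theorem sep_flip : Sep s.flip d' d k = Sep s d d' k := by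
  have hdom : dom d' d k = dom d d' k := by
    unfold dom
    rw [Set.union_comm (T d' k)]
  have hcut : ∀ ω, s.flip.cut ω = s.cut ω := fun _ => rfl
  have hful : ∀ ω, s.flip.ful d' d k ω = s.ful d d' k ω := by
    intro ω
    unfold Src.ful
    rw [hcut, Set.union_comm (T d' k)]
  ext ω
  unfold Sep
  simp only [Set.mem_ofPred_eq, hcut, hdom, hful]
  have h : Conn (sit (s.ful d d' k ω)) (dom d d' k) s.flip.x s.flip.y ↔
      Conn (sit (s.ful d d' k ω)) (dom d d' k) s.x s.y := conn_comm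
  rw [h]
  change Fence d' k (sit (s.cut ω)) (dom d d' k) s.y ∧
    Fence d k (sit (s.cut ω)) (dom d d' k) s.x ∧ _ ∧
    (∀ v ∈ sphere 0 (32 * k),
      Conn (sit (s.ful d d' k ω)) (dom d d' k) s.y v → v ∈ Mouth d' k) ∧
    (∀ v ∈ sphere 0 (32 * k),
      Conn (sit (s.ful d d' k ω)) (dom d d' k) s.x v → v ∈ Mouth d k) ↔ _
  tauto

theorem four_flip : Four s.flip r = Four s r := by
  ext ω
  have h : Conn (sit (s.cut ω)) (ball 0 r) s.y s.x ↔ Conn (sit (s.cut ω)) (ball 0 r) s.x s.y := conn_comm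
  constructor
  · rintro ⟨h1, h2, h3⟩
    exact ⟨h2, h1, fun h4 => h3 (h.2 h4)⟩
  · rintro ⟨h1, h2, h3⟩
    exact ⟨h2, h1, fun h4 => h3 (h.1 h4)⟩

/-- Horizontal segments. -/
private lemma sym_seg_x {S : Set Vert} (x y : ℤ) (n : ℕ)
    (h : ∀ z : ℤ, x ≤ z → z ≤ x + n → ((z, y) : Vert) ∈ S) :
    Conn allOpen S (x, y) (x + n, y) := by
  induction n with
  | zero => simpa using Conn.refl (h x le_rfl (by simp))
  | succ n ih =>
    have h1 := ih fun z hz hz' => h z hz (by push_cast; omega)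
    refine h1.tail ⟨h1.mem_right, h _ (by push_cast; omega) (by push_cast; omega),
      (x + n, y, false), Or.inl ⟨rfl, ?_⟩, rfl⟩
    simp [tgt, add_assoc]

/-- Vertical segments. -/
private lemma sym_seg_y {S : Set Vert} (x y : ℤ) (n : ℕ)
    (h : ∀ z : ℤ, y ≤ z → z ≤ y + n → ((x, z) : Vert) ∈ S) :
    Conn allOpen S (x, y) (x, y + n) := by
  induction n with
  | zero => simpa using Conn.refl (h y le_rfl (by simp))
  | succ n ih =>
    have h1 := ih fun z hz hz' => h z hz (by push_cast; omega)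
    refine h1.tail ⟨h1.mem_right, h _ (by push_cast; omega) (by push_cast; omega),
      (x, y + n, true), Or.inl ⟨rfl, ?_⟩, rfl⟩
    simp [tgt, add_assoc]

/-- Rectangles are connected. -/
private lemma sym_rect_conn {a b c d : ℤ} {u v : Vert} (hu : u ∈ rect a b c d)
    (hv : v ∈ rect a b c d) : Conn allOpen (rect a b c d) u v := by
  obtain ⟨x, y⟩ := u
  obtain ⟨x', y'⟩ := v
  have hx : ∀ z z' t : ℤ, a ≤ z → z ≤ b → a ≤ z' → z' ≤ b → c ≤ t → t ≤ d → z ≤ z' →
      Conn allOpen (rect a b c d) (z, t) (z', t) := by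
    intro z z' t h1 h2 h3 h4 h5 h6 h7
    obtain ⟨n, hn⟩ := Int.eq_ofNat_of_zero_le (sub_nonneg.2 h7)
    have h8 : z' = z + n := by omega
    subst h8
    exact sym_seg_x z t n fun w hw hw' => ⟨by omega, by omega, h5, h6⟩
  have hy : ∀ z t t' : ℤ, a ≤ z → z ≤ b → c ≤ t → t ≤ d → c ≤ t' → t' ≤ d → t ≤ t' →
      Conn allOpen (rect a b c d) (z, t) (z, t') := by
    intro z t t' h1 h2 h3 h4 h5 h6 h7
    obtain ⟨n, hn⟩ := Int.eq_ofNat_of_zero_le (sub_nonneg.2 h7)
    have h8 : t' = t + n := by omega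
    subst h8
    exact sym_seg_y z t n fun w hw hw' => ⟨h1, h2, by change c ≤ w; omega, by change w ≤ d; omega⟩
  obtain ⟨u1, u2, u3, u4⟩ := hu
  obtain ⟨v1, v2, v3, v4⟩ := hv
  simp only at u1 u2 u3 u4 v1 v2 v3 v4
  have h1 : Conn allOpen (rect a b c d) (x, y) (x', y) := by
    rcases le_total x x' with h | h
    · exact hx x x' y u1 u2 v1 v2 u3 u4 h
    · exact (hx x' x y v1 v2 u1 u2 u3 u4 h).symm
  have h2 : Conn allOpen (rect a b c d) (x', y) (x', y') := by
    rcases le_total y y' with h | h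
    · exact hy x' y y' v1 v2 u3 u4 v3 v4 h
    · exact (hy x' y' y v1 v2 v3 v4 u3 u4 h).symm
  exact h1.trans h2

private lemma sym_T_conn {d : Side} {k : ℕ} {u v : Vert} (hu : u ∈ T d k) (hv : v ∈ T d k) :
    Conn allOpen (T d k) u v := by
  cases d <;> exact sym_rect_conn hu hv

theorem sep_same : Sep s d d k = ∅ := by
  rw [Set.eq_empty_iff_forall_notMem]
  rintro ω ⟨h1, h2, h3, -, -⟩
  obtain ⟨u, hu, hxu⟩ := fence_mem h1
  obtain ⟨u', hu', hyu⟩ := fence_mem h2
  have hle : ∀ e, s.cut ω e = true → s.ful d d k ω e = true :=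
    fun e he => le_fillS he
  have huu : Conn (sit (s.ful d d k ω)) (dom d d k) u u' :=
    conn_fillS (fun a ha => Or.inr ha) ((sym_T_conn hu hu').mono_set fun a ha => Or.inl ha)
  exact h3 ((conn_mono le_rfl hle hxu).trans (huu.trans (conn_mono le_rfl hle hyu).symm))

/-- A separated event is a four-arm event. -/
theorem sep_sub_four (hk : 1 ≤ k) : Sep s d d' k ⊆ Four s (28 * k) := by
  have hball : ∀ a ∈ ball (0 : Vert) 2, a ∈ ball (0 : Vert) (28 * k) := by
    intro a ha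
    simp only [mem_ball, Prod.fst_zero, Prod.snd_zero] at ha ⊢
    push_cast at ha ⊢
    omega
  have hT : ∀ (d : Side), ∀ u ∈ T d k, u ∉ ball (0 : Vert) (28 * k) ∨ u ∈ sphere 0 (28 * k) := by
    intro d u hu
    by_cases h : u ∈ ball (0 : Vert) (28 * k)
    · refine Or.inr ⟨h, ?_⟩
      cases d <;> simp only [T, rect, Set.mem_ofPred_eq] at hu <;>
        simp only [mem_ball, Prod.fst_zero, Prod.snd_zero] at h ⊢ <;> push_cast at h ⊢ <;> omega
    · exact Or.inl h
  rintro ω ⟨h1, h2, h3, -, -⟩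
  obtain ⟨u, hu, hxu⟩ := fence_mem h1
  obtain ⟨u', hu', hyu⟩ := fence_mem h2
  obtain ⟨z, hz, hxz⟩ := hxu.to_sphere (v := 0) (r := 28 * k) (hball _ s.hx) (hT d u hu)
  obtain ⟨z', hz', hyz⟩ := hyu.to_sphere (v := 0) (r := 28 * k) (hball _ s.hy) (hT d' u' hu')
  refine ⟨⟨z, hz, hxz.mono_set Set.inter_subset_right⟩,
    ⟨z', hz', hyz.mono_set Set.inter_subset_right⟩, fun hc => h3 ?_⟩
  refine conn_mono (fun a ha => Or.inl ?_) (fun e he => le_fillS he) hc
  simp only [mem_ball, Prod.fst_zero, Prod.snd_zero] at ha ⊢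
  push_cast at ha ⊢
  omega

theorem four_mono' (h : 2 ≤ r) {r' : ℕ} (hr : r ≤ r') : Four s r' ⊆ Four s r := by
  have hball : ∀ a ∈ ball (0 : Vert) 2, a ∈ ball (0 : Vert) r := by
    intro a ha
    simp only [mem_ball, Prod.fst_zero, Prod.snd_zero] at ha ⊢
    push_cast at ha
    omega
  have hsph : ∀ u ∈ sphere (0 : Vert) r', u ∉ ball (0 : Vert) r ∨ u ∈ sphere 0 r := by
    rintro u ⟨-, hu⟩
    by_cases h : u ∈ ball (0 : Vert) r
    · refine Or.inr ⟨h, ?_⟩
      simp only [mem_ball, Prod.fst_zero, Prod.snd_zero] at h hu ⊢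
      omega
    · exact Or.inl h
  have hsub : ball (0 : Vert) r ⊆ ball 0 r' := by
    intro a ha
    simp only [mem_ball, Prod.fst_zero, Prod.snd_zero] at ha ⊢
    omega
  rintro ω ⟨⟨u, hu, h1⟩, ⟨u', hu', h2⟩, h3⟩
  obtain ⟨z, hz, hxz⟩ := h1.to_sphere (v := 0) (r := r) (hball _ s.hx) (hsph u hu)
  obtain ⟨z', hz', hyz⟩ := h2.to_sphere (v := 0) (r := r) (hball _ s.hy) (hsph u' hu')
  exact ⟨⟨z, hz, hxz.mono_set Set.inter_subset_right⟩,
    ⟨z', hz', hyz.mono_set Set.inter_subset_right⟩, fun hc => h3 (hc.mono_set hsub)⟩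

theorem four_land : Four s (8 * w) ⊆ ⋃ d : Side, Four s (8 * w) ∩ Land d s w := by
  intro ω hω
  obtain ⟨u, hu, h1⟩ := hω.1
  rw [Set.mem_iUnion]
  obtain ⟨d, hd⟩ : ∃ d : Side, OnSide d (8 * w) u := by
    have h2 := hu.2
    simp only [Prod.fst_zero, Prod.snd_zero, zero_sub, zero_add] at h2
    rcases h2 with h | h | h | h
    · exact ⟨.W, hu, h⟩
    · exact ⟨.E, hu, h⟩
    · exact ⟨.S, hu, h⟩
    · exact ⟨.N, hu, h⟩
  exact ⟨d, hω, u, hd, h1⟩

/-- Sum of the separated probabilities. -/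
noncomputable def bS (q : I) (s : Src) (k : ℕ) : ℝ := ∑ d : Side, ∑ d' : Side, Pr q (Sep s d d' k)

end Pool.Agent.H38.N59
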