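import Pool.Agent.H38.SK.N59.Stage

/-!
# Outward separation for sites: stage 1
-/

set_option autoImplicit false

open MeasureTheory ProbabilityTheory unitInterval

namespace Pool.Agent.H38.N59

open Pool.Agent.H89.Perc
open Pool.Agent.H61.NC hiding RSWreg
open Pool.Agent.H83.SK (sv sit sit_true RSWreg)
open Pool.Agent.H59.EX (LocS inE touch clus closeS Side T Mouth Fence dom CorrData CorrSep
  mem_clus_single corr_inter corr_sub160 markov_incr)

variable {s : Src} {w ρ ρ' : ℕ} {v v' : Vert} {d d' : Side} {Z Zy : Set Vert} {Nev Ny : Set Config}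
  {q : I}

/-- Stage 1: conditional FKG given the cluster of `y`. -/
theorem stage1 (hK : CorrData w ρ v d Z Nev) (hρ : 1 ≤ ρ) {c : ℝ} (hc : 0 ≤ c)
    (hN : c ≤ Pr q {ω | sit ω ∈ Nev}) :
    c * Pr q (Ev0 s w ρ v) ≤ Pr q (Ev0 s w ρ v ∩ {ω | sit ω ∈ Nev}) := by
  classical
  -- the finite set of sites
  obtain ⟨Λ, hΛ⟩ := exists_fin (160 * w)
  have hball : ball (0 : Vert) (8 * w) ⊆ ball 0 (160 * w) := ball_mono' (by omega)
  have hΛD : ∀ e ∈ vE (ball (0 : Vert) (8 * w)), e ∈ Λ := fun e he => hΛ e (vE_mono hball he)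
  have hΛZ : ∀ e ∈ vE Z, e ∈ Λ := fun e he => hΛ e (vE_mono (corr_sub160 hK) he)
  have hloc : LocS (vE Z) {ω | sit ω ∈ Nev} := locS_sit_inE hK.loc
  have hN1 : LocalOn Λ {ω | sit ω ∈ Nev} := fun ω ω' h hω =>
    hloc ω ω' (fun e he => h e (hΛZ e he)) hω
  have main := markov_incr (Λ := Λ) (q := q) (c := c) (SY s w)
    (fun S => s.x ∉ S ∧ (∃ u ∈ sphere 0 (8 * w), u ∈ S) ∧ Disjoint S (ball v (11 * ρ)))
    (fun S => rv (ball 0 (8 * w)) S) (fun _ => Set.univ)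
    (fun _ => {ω | ∃ u ∈ sphere 0 (8 * w), u ∈ ball v ρ ∧
      Conn (sit (s.cut ω)) (ball 0 (8 * w)) s.x u}) (fun _ => {ω | sit ω ∈ Nev})
    (by
      intro i ω ω' h hω
      exact clus_cut_congr (fun g hg => h g (hΛD g (rv_sub hg))) hω)
    (by
      intro i _ ω ω' h hω
      exact clus_cut_congr (fun g hg => h g hg) hω)
    (fun _ ω ω' _ _ => trivial)
    (fun _ _ ω ω' _ _ => trivial)
    (by
      rintro _ ω ω' h ⟨u, h1, h2, h3⟩
      exact ⟨u, h1, h2, conn_congr (fun g hg => cut_congr (h g (hΛD g hg))) h3⟩)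
    (by
      rintro _ _ ω ω' h ⟨u, h1, h2, h3⟩
      exact ⟨u, h1, h2, conn_mono le_rfl (cut_incr h) h3⟩)
    (fun _ => hN1)
    (by
      rintro S ⟨_, _, hd⟩ ω ω' h hω
      refine hloc ω ω' (fun g hg => h g ?_) hω
      intro hS
      have h0 := Set.disjoint_left.1 hd
      obtain ⟨hg1, hg2⟩ := hg
      have h3 : g = sv (src g) := by
        obtain ⟨x, y, t⟩ := g
        have h4 : t = false := hg1
        simp [sv, src, h4]
      rw [h3] at hS
      obtain ⟨a, e, hj, -, hbD, h1⟩ := of_mem_rv hS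
      have h5 : src g ∈ ball v (5 * ρ) := corr_inter hK ⟨hg2, hbD⟩
      have h6 : a ∈ ball (src g) 1 := Pool.Agent.H59.EX.ball_of_joins hj
      rcases h1 with h1 | h1
      · refine h0 h1 ?_
        simp only [mem_ball] at h5 h6 ⊢
        push_cast at h5 h6 ⊢
        omega
      · exact h0 h1 (ball_mono' (by omega) h5))
    (fun _ _ => incr_sit hK.incr) (fun _ _ => hN) hc
  have e1 : {ω | (s.x ∉ SY s w ω ∧ (∃ u ∈ sphere 0 (8 * w), u ∈ SY s w ω) ∧
      Disjoint (SY s w ω) (ball v (11 * ρ))) ∧ ω ∈ (Set.univ : Set Config) ∧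
      ω ∈ {ω | ∃ u ∈ sphere 0 (8 * w), u ∈ ball v ρ ∧
        Conn (sit (s.cut ω)) (ball 0 (8 * w)) s.x u}} = Ev0 s w ρ v := by
    ext ω
    unfold Ev0
    simp only [SY, mem_clus_single, Set.mem_univ, true_and, Set.mem_ofPred_eq]
    rw [conn_comm (u := s.x) (v := s.y)]
    tauto
  have e2 : {ω | (s.x ∉ SY s w ω ∧ (∃ u ∈ sphere 0 (8 * w), u ∈ SY s w ω) ∧
      Disjoint (SY s w ω) (ball v (11 * ρ))) ∧ ω ∈ (Set.univ : Set Config) ∧
      ω ∈ {ω | ∃ u ∈ sphere 0 (8 * w), u ∈ ball v ρ ∧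
        Conn (sit (s.cut ω)) (ball 0 (8 * w)) s.x u} ∧ ω ∈ {ω | sit ω ∈ Nev}} =
      Ev0 s w ρ v ∩ {ω | sit ω ∈ Nev} := by
    rw [← e1]
    ext ω
    simp only [Set.mem_inter_iff, Set.mem_ofPred_eq]
    tauto
  rw [e1, e2] at main
  exact main

end Pool.Agent.H38.N59
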