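import Pool.Agent.H38.SK.N59.Stage
import Pool.Agent.H38.SK.N59.Seal
import Pool.Agent.H59.EX.SealProb

/-!
# Outward separation for sites: stage 2
-/

set_option autoImplicit false

open MeasureTheory ProbabilityTheory unitInterval

namespace Pool.Agent.H38.N59

open Pool.Agent.H89.Perc
open Pool.Agent.H61.NC hiding RSWreg
open Pool.Agent.H83.SK (sv sit sit_true RSWreg)
open Pool.Agent.H59.EX (LocS inE touch clus closeS Side T Mouth Fence dom CorrData CorrSep clus_sub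
  clus_step clus_conn mem_clus mem_clus_single conn_in_clus fence_trans fence_mono corr_inter
  corr_sub160 mem_sphere_of_joins markov_indep grid exists_grid card_grid)

variable {s : Src} {w ρ ρ' : ℕ} {v v' : Vert} {d d' : Side} {Z Zy : Set Vert} {Nev Ny : Set Config}
  {q : I}

theorem eq_sv {g : Edge} (h : g.2.2 = false) : g = sv (src g) := by
  obtain ⟨x, y, t⟩ := g
  have h4 : t = false := h
  simp [sv, src, h4]

/-- The landing gives `Z ⊆ S1`. -/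
private theorem st2_Z_sub (hK : CorrData w ρ v d Z Nev) {ω : Config}
    (h : ∃ u ∈ sphere 0 (8 * w), u ∈ ball v ρ ∧ Conn (sit (s.cut ω)) (ball 0 (8 * w)) s.x u) :
    Z ⊆ S1 s w Z ω := by
  obtain ⟨u, _, hu, hc⟩ := h
  have huZ : u ∈ Z := hK.ball_sub (ball_mono' (by omega) hu)
  refine Z_sub_S1 hK huZ ?_
  exact ⟨s.x, rfl, conn_mono Set.subset_union_left (fun e he => le_fillS he) hc⟩

private theorem st2_x_mem_S1 (hw : 1 ≤ w) {ω : Config} : s.x ∈ S1 s w Z ω :=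
  ⟨s.x, rfl, Conn.refl (Or.inl (src_mem s.hx hw))⟩

private theorem st2_y_mem_SY (hw : 1 ≤ w) {ω : Config} : s.y ∈ SY s w ω :=
  ⟨s.y, rfl, Conn.refl (src_mem s.hy hw)⟩

/-- The determined sites. -/
private def st2_t (w : ℕ) (Z : Set Vert) (i : Set Vert × Set Vert) : Set Edge :=
  rv (ball 0 (8 * w) ∪ Z) (i.2 ∪ i.1) ∪ vE (i.2 ∪ i.1)

/-- The pair of clusters depends only on the determined sites. -/
private theorem st2_X_congr {i : Set Vert × Set Vert} {ω ω' : Config}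
    (h : ∀ e ∈ st2_t w Z i, ω e = ω' e) (hω : (SY s w ω, S1 s w Z ω) = i) :
    (SY s w ω', S1 s w Z ω') = i := by
  refine Prod.ext ?_ ?_
  · refine clus_cut_congr (fun g hg => h g (Or.inl ?_)) (congrArg Prod.fst hω)
    obtain ⟨e, he, h1⟩ := hg
    exact ⟨e, ⟨⟨Or.inl he.1.1, Or.inl he.1.2⟩, he.2.imp Or.inr Or.inr⟩, h1⟩
  · refine clus_fill_congr (fun g hg _ => h g (Or.inl ?_)) (congrArg Prod.snd hω)
    obtain ⟨e, he, h1⟩ := hg
    exact ⟨e, ⟨⟨he.1.1, he.1.2⟩, he.2.imp Or.inl Or.inl⟩, h1⟩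

/-- The event depends only on the determined sites. -/
private theorem st2_A_congr (hK : CorrData w ρ v d Z Nev) {ω ω' : Config}
    (h : ∀ e ∈ st2_t w Z (SY s w ω, S1 s w Z ω), ω e = ω' e)
    (hω : ω ∈ Ev0 s w ρ v ∩ {ω | sit ω ∈ Nev} ∩ Good12 s w ρ' Z) :
    (SY s w ω', S1 s w Z ω') = (SY s w ω, S1 s w Z ω) ∧
      ω' ∈ Ev0 s w ρ v ∩ {ω | sit ω ∈ Nev} ∩ Good12 s w ρ' Z := by
  have hZ : Z ⊆ S1 s w Z ω := st2_Z_sub hK hω.1.1.1
  have hX := st2_X_congr (s := s) (w := w) (Z := Z) (i := (SY s w ω, S1 s w Z ω)) h rfl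
  refine ⟨hX, ?_⟩
  have hY : SY s w ω' = SY s w ω := congrArg Prod.fst hX
  have h1 : S1 s w Z ω' = S1 s w Z ω := congrArg Prod.snd hX
  obtain ⟨⟨⟨⟨u, hu, huv, hxu⟩, ⟨u', hu', hyu⟩, hxy, hdis⟩, hN⟩, hG⟩ := hω
  refine ⟨⟨⟨⟨u, hu, huv, ?_⟩, ⟨u', hu', ?_⟩, ?_, ?_⟩, ?_⟩, ?_⟩
  · refine conn_of_sub (S := S1 s w Z ω) (fun a ha => ?_)
      (fun g hg => h g (Or.inr (vE_mono Set.subset_union_left hg))) hxu
    exact ⟨s.x, rfl, conn_mono Set.subset_union_left (fun e he => le_fillS he) ha⟩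
  · have h2 : u' ∈ SY s w ω' := by
      rw [hY]
      exact ⟨s.y, rfl, hyu⟩
    exact mem_clus_single.1 h2
  · intro hc
    have h2 : s.x ∈ SY s w ω' := ⟨s.y, rfl, hc.symm⟩
    rw [hY] at h2
    exact hxy (mem_clus_single.1 h2).symm
  · rw [hY]
    exact hdis
  · exact locS_sit_inE hK.loc ω ω'
      (fun g hg => h g (Or.inr (vE_mono (hZ.trans Set.subset_union_left) hg))) hN
  · intro z hz
    rw [hY, h1]
    exact hG z hz

/-- Deterministic part of stage 2. -/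
private theorem st2_det (hK : CorrData w ρ v d Z Nev) (hρ' : 4 ≤ ρ') (hρ : 64 * ρ' ≤ ρ)
    (hw : 64 * ρ ≤ w) {K : ℕ} (hwK : w ≤ K * ρ') (hv : v ∈ sphere 0 (8 * w)) {ω : Config}
    (h0 : ω ∈ Ev0 s w ρ v) (hN : sit ω ∈ Nev) (hG : ω ∈ Good12 s w ρ' Z)
    (hs : ω ∈ Seal (grid (ρ' - 1) (320 * K)) (ρ' - 1) (st2_t w Z (SY s w ω, S1 s w Z ω))) :
    ω ∈ Ev2 s w ρ ρ' v d Z := by
  have hρ1 : 1 ≤ ρ := by omega
  have hw1 : 1 ≤ w := by omega
  obtain ⟨hx, hy, hxy, hdis⟩ := h0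
  have hZS1 : Z ⊆ S1 s w Z ω := st2_Z_sub hK hx
  have F1 := S1_disj_SY hK hρ1 hdis hxy
  have F1' : ∀ a, a ∈ S1 s w Z ω → a ∉ SY s w ω := fun a h1 h2 => Set.disjoint_left.1 F1 h1 h2
  have hS1D : S1 s w Z ω ⊆ ball 0 (8 * w) ∪ Z := clus_sub
  have hSYD : SY s w ω ⊆ ball 0 (8 * w) := clus_sub
  have hD160 : ball (0 : Vert) (8 * w) ∪ Z ⊆ ball 0 (160 * w) :=
    Set.union_subset (ball_mono' (by omega)) (corr_sub160 hK)
  have hS1H : S1 s w Z ω ⊆ SH s w Z ω := S1_sub_SH hK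
  -- the points of the source are open
  have hxo : s.cut ω (sv s.x) = true := by
    obtain ⟨u, hu, -, hc⟩ := hx
    exact open_of_conn hc (src_ne s.hx hw1 hu)
  have hyo : s.cut ω (sv s.y) = true := by
    obtain ⟨u, hu, hc⟩ := hy
    exact open_of_conn hc (src_ne s.hy hw1 hu)
  have hxo' : fillS Z (s.cut ω) (sv s.x) = true := le_fillS hxo
  have hS1o : ∀ a ∈ S1 s w Z ω, fillS Z (s.cut ω) (sv a) = true := fun a ha =>
    open_of_clus hxo' ha
  have hSYo : ∀ a ∈ SY s w ω, s.cut ω (sv a) = true := fun a ha => open_of_clus hyo ha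
  -- off the clusters: a step into `SY`
  have key : ∀ a b e, Joins e a b → fillS Z (s.cut ω) (sv a) = true → a ∉ SY s w ω →
      b ∈ SY s w ω → a ∉ ball 0 (8 * w) ∪ Z := by
    intro a b e hj ho ha hb haD
    exact ha (SY_closed hK hρ1 hdis hb ⟨Or.inl (hSYD hb), haD, e, hj.symm,
      (sit_joins hj.symm).2 ⟨le_fillS (hSYo b hb), ho⟩⟩)
  -- open sites off the clusters are not determined
  have free : ∀ b, fillS Z (s.cut ω) (sv b) = true → b ∉ S1 s w Z ω → b ∉ SY s w ω →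
      sv b ∉ st2_t w Z (SY s w ω, S1 s w Z ω) := by
    intro b hob hb1 hb2 h
    rcases h with h | h
    · obtain ⟨a, e, hj, haD, hbD, h1⟩ := of_mem_rv h
      rcases h1 with (h1 | h1) | (h1 | h1)
      · exact hb1 (clus_adj h1 (hS1o a h1) hob hj hbD)
      · exact key b a e hj.symm hob hb2 h1 hbD
      · exact hb1 h1
      · exact hb2 h1
    · rcases sv_mem_vE.1 h with h | h
      · exact hb1 h
      · exact hb2 h
  set Ex : Set Vert := {a | a ∈ S1 s w Z ω ∧ ∃ b e, Joins e a b ∧ b ∉ ball 0 (8 * w) ∪ Z} with hEx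
  have conf : ∀ z ∈ SH s w Z ω, z ∈ S1 s w Z ω ∨
      (z ∉ SY s w ω ∧ ∃ a ∈ Ex, z ∈ ball a (4 * (ρ' - 1) + 1)) := by
    rintro z ⟨x, hxx, hz⟩
    rw [Set.mem_singleton_iff] at hxx
    subst hxx
    refine seal_confine (w := ω) (F := SY s w ω) (t := st2_t w Z (SY s w ω, S1 s w Z ω))
      (G := grid (ρ' - 1) (320 * K)) ?_ hs ?_ ?_ ?_ ?_ (st2_x_mem_S1 hw1) hz
    · intro a ha ho
      rcases fill_sv.1 ho with h | h
      · exact cut_le h
      · exact absurd (Or.inr (sv_mem_vE.2 (Or.inl (hZS1 h)))) ha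
    · rintro a ⟨ha, -⟩ b hb
      refine exists_grid (by omega) ?_
      have h1 := hD160 (hS1D ha)
      have hK1 : 1 ≤ K := by
        rcases Nat.eq_zero_or_pos K with h | h
        · subst h
          omega
        · exact h
      have h2 : (160 * w + 1 : ℕ) ≤ 320 * K * (ρ' - 1) := by
        obtain ⟨r, rfl⟩ : ∃ r, ρ' = r + 1 := ⟨ρ' - 1, by omega⟩
        have h4 : 3 ≤ r := by omega
        have h5 : w ≤ K * (r + 1) := hwK
        have h6 : 3 ≤ K * r := by nlinarith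
        rw [Nat.add_sub_cancel]
        have h7 : K * (r + 1) = K * r + K := by ring
        have h8 : 3 * K ≤ K * r := by nlinarith
        have h9 : 320 * K * r = 320 * (K * r) := by ring
        rw [h9]
        omega
      have h3 : ((160 * w + 1 : ℕ) : ℤ) ≤ ((320 * K * (ρ' - 1) : ℕ) : ℤ) := by exact_mod_cast h2
      simp only [mem_ball, Prod.fst_zero, Prod.snd_zero] at h1 hb ⊢
      push_cast at h1 hb h3
      omega
    · intro a b e hj hoa hob _ _ ha hb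
      have hb' : b ∉ ball 0 (8 * w) ∪ Z := fun h => hb (clus_adj ha hoa hob hj h)
      exact ⟨⟨ha, b, e, hj, hb'⟩, fun h => hb' (Or.inl (hSYD h)),
        free b hob hb fun h => hb' (Or.inl (hSYD h))⟩
    · intro a b e hj hoa hob _ _ ha1 ha2 hb x' hx' hbx
      have haD := key a b e hj hoa ha2 hb
      have hbs : b ∈ sphere 0 (8 * w) :=
        mem_sphere_of_joins hj.symm (hSYD hb) fun h => haD (Or.inl h)
      refine hG b hbs ⟨x', hx'.1, ?_⟩ ⟨b, hb, self_mem_ball⟩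
      exact ball_symm' (ball_mono' (by omega) hbx)
    · intro a b e hj _ hob _ _ _ _ hb1 hb2
      exact free b hob hb1 hb2
  have hSYH : ∀ a ∈ SY s w ω, a ∉ SH s w Z ω := by
    intro a ha h
    rcases conf a h with h | ⟨h, -⟩
    · exact F1' a h ha
    · exact h ha
  have hZH : Z ⊆ SH s w Z ω := hZS1.trans hS1H
  refine ⟨⟨hSYH _ (st2_y_mem_SY hw1), ?_, ?_⟩, ?_⟩
  · -- the fence
    obtain ⟨u, hu, huv, hxu⟩ := hx
    obtain ⟨z, hz, hf⟩ := hK.hook (sit ω) hN (sit (s.cut ω)) (ball 0 (8 * w)) u s.x hxu.symm huv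
      (src_far s.hx hρ1 hw hv)
    have hcut : ∀ g ∈ vE Z, ω g = s.cut ω g := fun g hg => (corr_cut hK hρ1 hw hv hg).symm
    have hf' : Fence d (4 * w) (sit (s.cut ω)) Z z :=
      fence_congr (fun g hg => hcut g (vE_mono hK.T_sub hg)) hcut hf
    have hxz : Conn (sit (s.cut ω)) (ball 0 (8 * w)) s.x z := hxu.trans hz
    have hxz' : Conn (sit (s.cut ω)) (SH s w Z ω ∩ (ball 0 (8 * w) ∪ Z)) s.x z := by
      have h1 : Conn (sit (s.cut ω)) (clus (sit (s.cut ω)) (ball 0 (8 * w)) {s.x}) s.x z :=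
        conn_in_clus (mem_clus rfl (Conn.refl hxz.mem_left)) hxz
      refine h1.mono_set ?_
      rintro a ⟨x, hxx, hc⟩
      refine ⟨?_, Or.inl hc.mem_right⟩
      exact hS1H ⟨x, hxx, conn_mono Set.subset_union_left (fun e he => le_fillS he) hc⟩
    exact fence_trans hxz' (fence_mono (fun a ha => ⟨hZH ha, Or.inr ha⟩) (fun _ h => h) hf')
  · -- confinement
    intro z hz
    rcases conf z hz with h | ⟨-, a, ha, hza⟩
    · rcases hS1D h with h | h
      · exact Or.inl h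
      · exact Or.inr (Or.inl ⟨z, h, near_self (by omega)⟩)
    · obtain ⟨ha1, b, e, hj, hb⟩ := ha
      rcases hS1D ha1 with h | h
      · exact Or.inr (Or.inr ⟨a, hS1H ha1, mem_sphere_of_joins hj h fun h => hb (Or.inl h),
          near_sub hza (by omega)⟩)
      · exact Or.inr (Or.inl ⟨a, h, near_sub hza (by omega)⟩)
  · -- the cluster of `y`
    obtain ⟨u, hu, hyu⟩ := hy
    have huY : u ∈ SY s w ω := ⟨s.y, rfl, hyu⟩
    refine ⟨u, hu, fun h => Set.disjoint_left.1 hdis huY h, ?_, ?_⟩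
    · have h1 : Conn (sit (s.cut ω)) (SY s w ω) s.y u := conn_in_clus (st2_y_mem_SY hw1) hyu
      exact h1.mono_set fun a ha => ⟨hSYD ha, hSYH a ha⟩
    · refine Set.disjoint_left.2 fun z hz hzu => ?_
      rcases conf z hz with h | ⟨-, a, ha, hza⟩
      · exact hG u hu ⟨z, h, ball_mono' (by omega) hzu⟩ ⟨u, huY, self_mem_ball⟩
      · refine hG u hu ⟨a, ha.1, ?_⟩ ⟨u, huY, self_mem_ball⟩
        simp only [mem_ball] at hzu hza ⊢
        push_cast at hzu hza ⊢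
        omega

/-- Stage 2: seal the cluster of `x`. -/
theorem stage2 (c : ℝ) (hc : 0 < c) (K : ℕ) : ∃ c' : ℝ, 0 < c' ∧ ∀ (s : Src) (w ρ ρ' : ℕ)
    (v : Vert) (d : Side) (Z : Set Vert) (Nev : Set Config) (n : ℕ) (q : I),
    CorrData w ρ v d Z Nev → 4 ≤ ρ' → 64 * ρ' ≤ ρ → 64 * ρ ≤ w → w ≤ K * ρ' →
    v ∈ sphere 0 (8 * w) → w ≤ n → RSWreg c n q →
      c' * Pr q (Ev0 s w ρ v ∩ {ω | sit ω ∈ Nev} ∩ Good12 s w ρ' Z) ≤
        Pr q (Ev2 s w ρ ρ' v d Z) := by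
  classical
  obtain ⟨c', hc', hlow⟩ := seal_lower c hc 1 ((2 * (320 * K) + 1) ^ 2)
  refine ⟨c', hc', fun s w ρ ρ' v d Z Nev n q hK hρ' hρ hw hwK hv hn hR => ?_⟩
  have hρ1 : 1 ≤ ρ := by omega
  have hw1 : 1 ≤ w := by omega
  -- the finite set of sites
  obtain ⟨Λ1, hΛ1⟩ := exists_fin (160 * w)
  obtain ⟨Λ2, hΛ2⟩ := localOn_seal (grid (ρ' - 1) (320 * K)) (ρ' - 1)
  have hD160 : ball (0 : Vert) (8 * w) ∪ Z ⊆ ball 0 (160 * w) :=
    Set.union_subset (ball_mono' (by omega)) (corr_sub160 hK)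
  have hΛ : ∀ e ∈ vE (ball 0 (8 * w) ∪ Z), e ∈ Λ1 ∪ Λ2 := fun e he =>
    Finset.mem_union_left _ (hΛ1 e (vE_mono hD160 he))
  have htΛ : ∀ ω : Config, ∀ e ∈ st2_t w Z (SY s w ω, S1 s w Z ω), e ∈ Λ1 ∪ Λ2 := by
    rintro ω e (he | he)
    · exact hΛ e (rv_sub he)
    · refine hΛ e (vE_mono ?_ he)
      rintro a (ha | ha)
      · exact clus_sub ha
      · exact Or.inl (clus_sub ha)
  have main := markov_indep (Λ := Λ1 ∪ Λ2) (q := q) (c := c')
    (fun ω => (SY s w ω, S1 s w Z ω))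
    (fun i => Z ⊆ i.2) (fun i => st2_t w Z i)
    (fun i => {ω | (SY s w ω, S1 s w Z ω) = i} ∩
      (Ev0 s w ρ v ∩ {ω | sit ω ∈ Nev} ∩ Good12 s w ρ' Z))
    (fun i => Seal (grid (ρ' - 1) (320 * K)) (ρ' - 1) (st2_t w Z i))
    ?_ ?_ ?_ ?_ ?_ ?_ ?_ hc'.le
  · have e1 : Ev0 s w ρ v ∩ {ω | sit ω ∈ Nev} ∩ Good12 s w ρ' Z ⊆
        {ω | Z ⊆ (SY s w ω, S1 s w Z ω).2 ∧
          ω ∈ {ω' | (SY s w ω', S1 s w Z ω') = (SY s w ω, S1 s w Z ω)} ∩
            (Ev0 s w ρ v ∩ {ω | sit ω ∈ Nev} ∩ Good12 s w ρ' Z)} := by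
      intro ω hω
      exact ⟨st2_Z_sub hK hω.1.1.1, rfl, hω⟩
    refine le_trans (mul_le_mul_of_nonneg_left (Pr_mono e1) hc'.le) (le_trans main (Pr_mono ?_))
    rintro ω ⟨_, ⟨_, ⟨⟨h0, hN⟩, hG⟩⟩, hs⟩
    exact st2_det hK hρ' hρ hw hwK hv h0 hN hG hs
  · intro i ω ω' h hω
    have hω' : (SY s w ω, S1 s w Z ω) = i := hω
    subst hω'
    exact st2_X_congr (fun e he => h e (htΛ ω e he)) rfl
  · intro i hi ω ω' h hω
    exact st2_X_congr h hω
  · rintro i ω ω' h ⟨hω, hA⟩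
    obtain ⟨h1, h2⟩ := st2_A_congr (ω' := ω') hK (fun e he => h e (htΛ ω e he)) hA
    exact ⟨h1.trans hω, h2⟩
  · rintro i hi ω ω' h ⟨hω, hA⟩
    obtain ⟨h1, h2⟩ := st2_A_congr (ω' := ω') hK
      (fun e he => h e (by
        have hω' : (SY s w ω, S1 s w Z ω) = i := hω
        rw [← hω']
        exact he)) hA
    exact ⟨h1.trans hω, h2⟩
  · intro i ω ω' h
    exact hΛ2 _ ω ω' fun e he => h e (Finset.mem_union_right _ he)
  · intro i _
    exact locS_seal _ _ _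
  · intro i _
    exact hlow n (ρ' - 1) q _ _ (by omega) hR (by omega) (by omega) (card_grid _ _)

end Pool.Agent.H38.N59
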