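import Pool.Agent.H38.SK.N59.Stage

/-!
# Outward separation for sites: stage 3
-/

set_option autoImplicit false

open MeasureTheory ProbabilityTheory unitInterval

namespace Pool.Agent.H38.N59

open Pool.Agent.H89.Perc
open Pool.Agent.H61.NC hiding RSWreg
open Pool.Agent.H83.SK (sv sit sit_true RSWreg)
open Pool.Agent.H59.EX (LocS inE touch clus closeS Side T Mouth Fence dom CorrData CorrSep
  mem_clus_single corr_inter corr_sub160 markov_incr clus_sub)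

variable {s : Src} {w ρ ρ' : ℕ} {v v' : Vert} {d d' : Side} {Z Zy : Set Vert} {Nev Ny : Set Config}
  {q : I}

/-- Conditions on the value of the cluster of `x`. -/
private def st3_Good (s : Src) (w ρ' : ℕ) (v' : Vert) (Z : Set Vert) (S : Set Vert) : Prop :=
  Z ⊆ S ∧ s.y ∉ S ∧ (∀ z ∈ S, z ∈ ball 0 (8 * w) ∨ (∃ a ∈ Z, ball z 1 ⊆ ball a (4 * ρ')) ∨
    ∃ a ∈ S, a ∈ sphere 0 (8 * w) ∧ ball z 1 ⊆ ball a (4 * ρ')) ∧ Disjoint S (ball v' (7 * ρ'))

/-- Stage 3: conditional FKG given the sealed cluster of `x`. -/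
theorem stage3 (hK : CorrData w ρ v d Z Nev) (hKy : CorrData w ρ' v' d' Zy Ny)
    (hS : CorrSep w ρ' v' Z Zy) (hρ' : 1 ≤ ρ') {c : ℝ} (hc : 0 ≤ c)
    (hN : c ≤ Pr q {ω | sit ω ∈ Ny}) :
    c * Pr q (Ev3 s w ρ' v' d Z) ≤ Pr q (Ev3 s w ρ' v' d Z ∩ {ω | sit ω ∈ Ny}) := by
  classical
  -- the finite set of sites
  obtain ⟨Λ, hΛ⟩ := exists_fin (160 * w)
  have hball : ball (0 : Vert) (8 * w) ⊆ ball 0 (160 * w) := ball_mono' (by omega)
  have hZ160 := corr_sub160 hK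
  have hZy160 := corr_sub160 hKy
  have hDZ : ball (0 : Vert) (8 * w) ∪ Z ⊆ ball 0 (160 * w) := Set.union_subset hball hZ160
  have hloc : LocS (vE Zy) {ω | sit ω ∈ Ny} := locS_sit_inE hKy.loc
  have hN1 : LocalOn Λ {ω | sit ω ∈ Ny} := fun ω ω' h hω =>
    hloc ω ω' (fun e he => h e (hΛ e (vE_mono hZy160 he))) hω
  have main := markov_incr (Λ := Λ) (q := q) (c := c) (SH s w Z)
    (st3_Good s w ρ' v' Z)
    (fun S => rv (ball 0 (160 * w)) S ∪ vE S)
    (fun S => {ω | Fence d (4 * w) (sit (s.cut ω)) (S ∩ (ball 0 (8 * w) ∪ Z)) s.x})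
    (fun S => {ω | ∃ u ∈ sphere 0 (8 * w), u ∈ ball v' ρ' ∧
      Conn (sit (s.cut ω)) (ball 0 (8 * w) \ S) s.y u}) (fun _ => {ω | sit ω ∈ Ny})
    (by
      intro i ω ω' h hω
      exact clus_fill_congr (fun g hg _ => h g (hΛ g (rv_sub hg))) hω)
    (by
      rintro i - ω ω' h hω
      exact clus_fill_congr (fun g hg _ => h g (Or.inl hg)) hω)
    (by
      intro S ω ω' h hω
      refine fence_congr (fun g hg => ?_) (fun g hg => ?_) hω
      · exact cut_congr (h g (hΛ g (vE_mono (hK.T_sub.trans hZ160) hg)))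
      · exact cut_congr (h g (hΛ g (vE_mono (Set.inter_subset_right.trans hDZ) hg))))
    (by
      rintro S ⟨hZS, -⟩ ω ω' h hω
      refine fence_congr (fun g hg => ?_) (fun g hg => ?_) hω
      · exact cut_congr (h g (Or.inr (vE_mono (hK.T_sub.trans hZS) hg)))
      · exact cut_congr (h g (Or.inr (vE_mono Set.inter_subset_left hg))))
    (by
      rintro _ ω ω' h ⟨u, h1, h2, h3⟩
      exact ⟨u, h1, h2, conn_congr (fun g hg =>
        cut_congr (h g (hΛ g (vE_mono (Set.sdiff_subset.trans hball) hg)))) h3⟩)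
    (by
      rintro _ _ ω ω' h ⟨u, h1, h2, h3⟩
      exact ⟨u, h1, h2, conn_mono le_rfl (cut_incr h) h3⟩)
    (fun _ => hN1)
    (by
      rintro S ⟨-, -, hconf, hd⟩ ω ω' h hω
      refine hloc ω ω' (fun g hg => h g ?_) hω
      obtain ⟨hg1, hg2⟩ := hg
      have h3 : g = sv (src g) := by
        obtain ⟨x, y, t⟩ := g
        have h4 : t = false := hg1
        simp [sv, src, h4]
      have hfar : ∀ z' ∈ ball (src g) 1, z' ∉ S := fun z' hz' =>
        conf_far hKy hS hρ' hconf hd hg2 hz'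
      rw [h3]
      rintro (h5 | h5)
      · obtain ⟨a, e, hj, -, -, h1⟩ := of_mem_rv h5
        rcases h1 with h1 | h1
        · exact hfar a (Pool.Agent.H59.EX.ball_of_joins hj) h1
        · exact hfar _ self_mem_ball h1
      · exact hfar _ self_mem_ball (sv_mem_vE.1 h5))
    (fun _ _ => incr_sit hKy.incr) (fun _ _ => hN) hc
  have e1 : {ω | st3_Good s w ρ' v' Z (SH s w Z ω) ∧
      ω ∈ {ω' | Fence d (4 * w) (sit (s.cut ω')) (SH s w Z ω ∩ (ball 0 (8 * w) ∪ Z)) s.x} ∧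
      ω ∈ {ω' | ∃ u ∈ sphere 0 (8 * w), u ∈ ball v' ρ' ∧
        Conn (sit (s.cut ω')) (ball 0 (8 * w) \ SH s w Z ω) s.y u}} = Ev3 s w ρ' v' d Z := by
    ext ω
    constructor
    · rintro ⟨⟨hZ, hy, hconf, hd⟩, hF, hL⟩
      exact ⟨⟨hy, hF, hconf⟩, hL, hd⟩
    · rintro ⟨hC, hL, hd⟩
      have hZ := Z_sub_SH_of_conf hK hC
      obtain ⟨hy, hF, hconf⟩ := hC
      exact ⟨⟨hZ, hy, hconf, hd⟩, hF, hL⟩
  have e2 : {ω | st3_Good s w ρ' v' Z (SH s w Z ω) ∧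
      ω ∈ {ω' | Fence d (4 * w) (sit (s.cut ω')) (SH s w Z ω ∩ (ball 0 (8 * w) ∪ Z)) s.x} ∧
      ω ∈ {ω' | ∃ u ∈ sphere 0 (8 * w), u ∈ ball v' ρ' ∧
        Conn (sit (s.cut ω')) (ball 0 (8 * w) \ SH s w Z ω) s.y u} ∧ ω ∈ {ω | sit ω ∈ Ny}} =
      Ev3 s w ρ' v' d Z ∩ {ω | sit ω ∈ Ny} := by
    rw [← e1]
    ext ω
    simp only [Set.mem_inter_iff, Set.mem_ofPred_eq]
    tauto
  rw [e1, e2] at main
  exact main

end Pool.Agent.H38.N59
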