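import Pool.Agent.H38.SK.N59.Stage
import Pool.Agent.H38.SK.N59.Seal
import Pool.Agent.H59.EX.SealProb

/-!
# Outward separation for sites: stage 4
-/

set_option autoImplicit false

open MeasureTheory ProbabilityTheory unitInterval

namespace Pool.Agent.H38.N59

open Pool.Agent.H89.Perc
open Pool.Agent.H61.NC hiding RSWreg
open Pool.Agent.H83.SK (sv sit sit_true RSWreg)
open Pool.Agent.H59.EX (LocS inE touch clus closeS Side T Mouth Fence dom CorrData CorrSep clus_sub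
  clus_step clus_conn mem_clus mem_clus_single conn_in_clus fence_trans fence_mono corr_inter
  corr_sub160 mem_sphere_of_joins markov_indep grid exists_grid card_grid)

variable {s : Src} {w ρ ρ' : ℕ} {v v' : Vert} {d d' : Side} {Z Zy : Set Vert} {Nev Ny : Set Config}
  {q : I}

/-- The cluster of `y` in `ball 0 (8 w) ∪ Zy` off the set `H`, with `Zy` filled. -/
private noncomputable def st4_RR (s : Src) (w : ℕ) (Zy : Set Vert) (H : Set Vert) (ω : Config) :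
    Set Vert :=
  clus (sit (fillS Zy (s.cut ω))) ((ball 0 (8 * w) ∪ Zy) \ H) {s.y}

/-- The pair of clusters. -/
private noncomputable def st4_X (s : Src) (w : ℕ) (Z Zy : Set Vert) (ω : Config) :
    Set Vert × Set Vert :=
  (SH s w Z ω, st4_RR s w Zy (SH s w Z ω) ω)

/-- The determined sites. -/
private def st4_t (w : ℕ) (Zy : Set Vert) (i : Set Vert × Set Vert) : Set Edge :=
  (rv (ball 0 (160 * w)) i.1 ∪ vE i.1) ∪ (rv ((ball 0 (8 * w) ∪ Zy) \ i.1) i.2 ∪ vE i.2)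

/-- The landing of `y` gives `Zy ⊆ R`. -/
private theorem st4_Zy_sub (hKy : CorrData w ρ' v' d' Zy Ny) {H : Set Vert} {ω : Config}
    (hd : Disjoint Zy H)
    (h : ∃ u ∈ sphere 0 (8 * w), u ∈ ball v' ρ' ∧
      Conn (sit (s.cut ω)) (ball 0 (8 * w) \ H) s.y u) :
    Zy ⊆ st4_RR s w Zy H ω := by
  obtain ⟨u, _, hu, hc⟩ := h
  have huZ : u ∈ Zy := hKy.ball_sub (ball_mono' (by omega) hu)
  have hsub : Zy ⊆ (ball 0 (8 * w) ∪ Zy) \ H := fun a ha =>
    ⟨Or.inr ha, fun h => Set.disjoint_left.1 hd ha h⟩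
  have huR : u ∈ st4_RR s w Zy H ω :=
    ⟨s.y, rfl, conn_mono (fun a ha => ⟨Or.inl ha.1, ha.2⟩) (fun e he => le_fillS he) hc⟩
  intro b hb
  exact clus_conn huR (conn_fillS hsub (hKy.conn u huZ b hb))

/-- The pair of clusters depends only on the determined sites. -/
private theorem st4_X_congr {i : Set Vert × Set Vert}
    {ω ω' : Config} (h : ∀ e ∈ st4_t w Zy i, ω e = ω' e) (hω : st4_X s w Z Zy ω = i) :
    st4_X s w Z Zy ω' = i := by
  have h1 : SH s w Z ω' = i.1 :=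
    clus_fill_congr (fun g hg _ => h g (Or.inl (Or.inl hg))) (congrArg Prod.fst hω)
  have h0 : SH s w Z ω = i.1 := congrArg Prod.fst hω
  have h2 : st4_RR s w Zy i.1 ω = i.2 := by
    have := congrArg Prod.snd hω
    rw [← h0]
    exact this
  have h3 : st4_RR s w Zy i.1 ω' = i.2 :=
    clus_fill_congr (fun g hg _ => h g (Or.inr (Or.inl hg))) h2
  refine Prod.ext h1 ?_
  change st4_RR s w Zy (SH s w Z ω') ω' = i.2
  rw [h1]
  exact h3

/-- The event depends only on the determined sites. -/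
private theorem st4_A_congr (hK : CorrData w ρ v d Z Nev) (hKy : CorrData w ρ' v' d' Zy Ny)
    (hS : CorrSep w ρ' v' Z Zy) (hρ' : 1 ≤ ρ') {ω ω' : Config}
    (h : ∀ e ∈ st4_t w Zy (st4_X s w Z Zy ω), ω e = ω' e)
    (hω : ω ∈ Ev3 s w ρ' v' d Z ∩ {ω | sit ω ∈ Ny}) :
    st4_X s w Z Zy ω' = st4_X s w Z Zy ω ∧ ω' ∈ Ev3 s w ρ' v' d Z ∩ {ω | sit ω ∈ Ny} := by
  obtain ⟨⟨hC, hL, hdis⟩, hN⟩ := hω
  have hZ : Z ⊆ SH s w Z ω := Z_sub_SH_of_conf hK hC
  have hdZ : Disjoint Zy (SH s w Z ω) := Zy_disj_SH hKy hS hρ' hC hdis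
  have hZy : Zy ⊆ st4_RR s w Zy (SH s w Z ω) ω := st4_Zy_sub hKy hdZ hL
  have hX := st4_X_congr (s := s) (w := w) (Z := Z) (i := st4_X s w Z Zy ω) h rfl
  refine ⟨hX, ?_⟩
  have h1 : SH s w Z ω' = SH s w Z ω := congrArg Prod.fst hX
  obtain ⟨hy, hF, hconf⟩ := hC
  obtain ⟨u, hu, huv, hyu⟩ := hL
  refine ⟨⟨⟨?_, ?_, ?_⟩, ⟨u, hu, huv, ?_⟩, ?_⟩, ?_⟩
  · rw [h1]
    exact hy
  · rw [h1]
    refine fence_congr (fun g hg => ?_) (fun g hg => ?_) hF
    · exact cut_congr (h g (Or.inl (Or.inr (vE_mono (hK.T_sub.trans hZ) hg))))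
    · exact cut_congr (h g (Or.inl (Or.inr (vE_mono Set.inter_subset_left hg))))
  · rw [h1]
    exact hconf
  · rw [h1]
    refine conn_of_sub (S := st4_RR s w Zy (SH s w Z ω) ω) (fun a ha => ?_)
      (fun g hg => h g (Or.inr (Or.inr hg))) hyu
    exact ⟨s.y, rfl, conn_mono (fun a ha => ⟨Or.inl ha.1, ha.2⟩) (fun e he => le_fillS he) ha⟩
  · rw [h1]
    exact hdis
  · exact locS_sit_inE hKy.loc ω ω' (fun g hg => h g (Or.inr (Or.inr (vE_mono hZy hg)))) hN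

private theorem st4_dom_sub (hK : CorrData w ρ v d Z Nev) (hKy : CorrData w ρ' v' d' Zy Ny) :
    dom d d' (4 * w) ⊆ ball 0 (160 * w) := by
  rintro a (h | h | h)
  · exact ball_mono' (by omega) h
  · exact corr_sub160 hK (hK.T_sub h)
  · exact corr_sub160 hKy (hKy.T_sub h)

private theorem st4_corr_dom_left (hK : CorrData w ρ v d Z Nev) :
    ball 0 (8 * w) ∪ Z ⊆ dom d d' (4 * w) := by
  have hb : ball (0 : Vert) (128 * w) ⊆ dom d d' (4 * w) := fun a ha =>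
    Or.inl (ball_mono' (by omega) ha)
  rintro a (h | h)
  · exact hb (ball_mono' (by omega) h)
  · rcases hK.sub h with h | h
    · exact hb h
    · exact Or.inr (Or.inl h)

private theorem st4_corr_dom_right (hKy : CorrData w ρ' v' d' Zy Ny) :
    ball 0 (8 * w) ∪ Zy ⊆ dom d d' (4 * w) := by
  have hb : ball (0 : Vert) (128 * w) ⊆ dom d d' (4 * w) := fun a ha =>
    Or.inl (ball_mono' (by omega) ha)
  rintro a (h | h)
  · exact hb (ball_mono' (by omega) h)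
  · rcases hKy.sub h with h | h
    · exact hb h
    · exact Or.inr (Or.inr h)

/-- Deterministic part of stage 4. -/
private theorem st4_det (hK : CorrData w ρ v d Z Nev) (hKy : CorrData w ρ' v' d' Zy Ny)
    (hS : CorrSep w ρ' v' Z Zy) (hρ' : 4 ≤ ρ') (hρ : 64 * ρ' ≤ ρ)
    (hw : 64 * ρ ≤ w) {K : ℕ} (hwK : w ≤ K * ρ') (hv' : v' ∈ sphere 0 (8 * w)) {ω : Config}
    (h3 : ω ∈ Ev3 s w ρ' v' d Z) (hN : sit ω ∈ Ny)
    (hs : ω ∈ Seal (grid (ρ' - 1) (320 * K)) (ρ' - 1) (st4_t w Zy (st4_X s w Z Zy ω))) :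
    ω ∈ Sep s d d' (4 * w) := by
  have hρ'1 : 1 ≤ ρ' := by omega
  have hw1 : 1 ≤ w := by omega
  have hw' : 64 * ρ' ≤ w := by omega
  obtain ⟨hC, hL, hdis⟩ := h3
  have hZ : Z ⊆ SH s w Z ω := Z_sub_SH_of_conf hK hC
  have hdZ : Disjoint Zy (SH s w Z ω) := Zy_disj_SH hKy hS hρ'1 hC hdis
  have hZy : Zy ⊆ st4_RR s w Zy (SH s w Z ω) ω := st4_Zy_sub hKy hdZ hL
  have hfarH : ∀ {z z' : Vert}, z ∈ Zy → z' ∈ ball z 1 → z' ∉ SH s w Z ω := fun hz hz' =>
    conf_far hKy hS hρ'1 hC.2.2 hdis hz hz'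
  obtain ⟨hy, hF, hconf⟩ := hC
  obtain ⟨u, hu, huv, hyu⟩ := hL
  -- the points of the source are open
  have hxo : s.cut ω (sv s.x) = true := open_of_fence (by omega) s.hx hF
  have hyo : s.cut ω (sv s.y) = true := open_of_conn hyu (src_ne s.hy hw1 hu)
  set H : Set Vert := SH s w Z ω with hH
  set R : Set Vert := st4_RR s w Zy H ω with hR
  have hHo : ∀ a ∈ H, fillS Z (s.cut ω) (sv a) = true := fun a ha =>
    open_of_clus (le_fillS hxo) ha
  have hRo : ∀ a ∈ R, fillS Zy (s.cut ω) (sv a) = true := fun a ha =>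
    open_of_clus (le_fillS hyo) ha
  have hRsub : ∀ a ∈ R, a ∈ ball 0 (8 * w) ∪ Zy ∧ a ∉ H := fun a ha => clus_sub ha
  have hHsub : H ⊆ ball 0 (160 * w) := clus_sub
  have hZyH : ∀ a ∈ Zy, a ∉ H := fun a ha h => Set.disjoint_left.1 hdZ ha h
  have hDW : ball (0 : Vert) (8 * w) ∪ Zy ⊆ ball 0 (160 * w) :=
    (st4_corr_dom_right (d := d) hKy).trans (st4_dom_sub hK hKy)
  have hor : ∀ {a : Vert}, fillS (Z ∪ Zy) (s.cut ω) (sv a) = true →
      s.cut ω (sv a) = true ∨ a ∈ Z ∨ a ∈ Zy := fun h => fill_sv.1 h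
  -- `H` is closed
  have hclosed : ∀ {e : Edge} {a b : Vert}, Joins e a b →
      fillS (Z ∪ Zy) (s.cut ω) (sv b) = true → b ∈ ball 0 (160 * w) → a ∈ H → b ∈ H := by
    intro e a b hj hob hb haH
    refine clus_adj haH (hHo a haH) ?_ hj hb
    rcases hor hob with h | h | h
    · exact le_fillS h
    · exact fill_sv.2 (Or.inr h)
    · exact absurd haH (hfarH h (Pool.Agent.H59.EX.ball_of_joins hj))
  have hxH : s.x ∈ H := ⟨s.x, rfl, Conn.refl (ball_mono' (by omega) (src_mem s.hx hw1))⟩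
  have hconnH : ∀ z, Conn (sit (fillS (Z ∪ Zy) (s.cut ω))) (ball 0 (160 * w)) s.x z → z ∈ H := by
    intro z hz
    refine hz.induction_right (P := fun z => z ∈ H) hxH ?_
    rintro a b _ ⟨_, hb, e, hj, ho⟩ ih
    exact hclosed hj ((sit_joins hj).1 ho).2 hb ih
  -- from the separated event to `W`
  have hTT : T d (4 * w) ∪ T d' (4 * w) ⊆ Z ∪ Zy := by
    rintro a (h | h)
    · exact Or.inl (hK.T_sub h)
    · exact Or.inr (hKy.T_sub h)
  have hlift : ∀ {a b : Vert},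
      Conn (sit (s.ful d d' (4 * w) ω)) (dom d d' (4 * w)) a b →
      Conn (sit (fillS (Z ∪ Zy) (s.cut ω))) (ball 0 (160 * w)) a b := by
    intro a b h
    exact conn_mono (st4_dom_sub hK hKy) (fun e he => fillS_mono hTT he) h
  have hyR : s.y ∈ R := ⟨s.y, rfl, Conn.refl ⟨Or.inl (src_mem s.hy hw1), hy⟩⟩
  -- open sites of `D ∪ Zy` off `H` which are adjacent to `R` belong to `R`
  have hstepR : ∀ {e : Edge} {a b : Vert}, Joins e a b →
      fillS (Z ∪ Zy) (s.cut ω) (sv b) = true → b ∈ ball 0 (8 * w) ∪ Zy → b ∉ H → a ∈ R →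
      b ∈ R := by
    intro e a b hj hob hb hbH haR
    refine clus_adj haR (hRo a haR) ?_ hj ⟨hb, hbH⟩
    rcases hor hob with h | h | h
    · exact le_fillS h
    · exact absurd (hZ h) hbH
    · exact fill_sv.2 (Or.inr h)
  -- open sites off the clusters are not determined
  have free : ∀ b, fillS (Z ∪ Zy) (s.cut ω) (sv b) = true → b ∉ R → b ∉ H →
      sv b ∉ st4_t w Zy (st4_X s w Z Zy ω) := by
    intro b hob hb1 hb2 h
    rcases h with (h | h) | (h | h)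
    · obtain ⟨a, e, hj, haD, hbD, h1⟩ := of_mem_rv h
      rcases h1 with h1 | h1
      · exact hb2 (hclosed hj hob hbD h1)
      · exact hb2 h1
    · exact hb2 (sv_mem_vE.1 h)
    · obtain ⟨a, e, hj, haD, hbD, h1⟩ := of_mem_rv h
      rcases h1 with h1 | h1
      · exact hb1 (hstepR hj hob hbD.1 hbD.2 h1)
      · exact hb1 h1
    · exact hb1 (sv_mem_vE.1 h)
  set Ex : Set Vert := {a | a ∈ R ∧ ∃ b e, Joins e a b ∧ b ∉ ball 0 (8 * w) ∪ Zy} with hEx
  have conf : ∀ z, Conn (sit (fillS (Z ∪ Zy) (s.cut ω))) (ball 0 (160 * w)) s.y z →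
      z ∈ R ∨ (z ∉ H ∧ ∃ a ∈ Ex, z ∈ ball a (4 * (ρ' - 1) + 1)) := by
    intro z hz
    refine seal_confine (w := ω) (F := H) (t := st4_t w Zy (st4_X s w Z Zy ω))
      (G := grid (ρ' - 1) (320 * K)) ?_ hs ?_ ?_ ?_ ?_ hyR hz
    · intro a ha ho
      rcases hor ho with h | h | h
      · exact cut_le h
      · exact absurd (Or.inl (Or.inr (sv_mem_vE.2 (hZ h)))) ha
      · exact absurd (Or.inr (Or.inr (sv_mem_vE.2 (hZy h)))) ha
    · rintro a ⟨ha, -⟩ b hb
      refine exists_grid (by omega) ?_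
      have h1 := hDW (hRsub a ha).1
      have hK1 : 1 ≤ K := by
        rcases Nat.eq_zero_or_pos K with h | h
        · subst h
          omega
        · exact h
      have h2 : (160 * w + 1 : ℕ) ≤ 320 * K * (ρ' - 1) := by
        obtain ⟨r, rfl⟩ : ∃ r, ρ' = r + 1 := ⟨ρ' - 1, by omega⟩
        have h4 : 3 ≤ r := by omega
        have h5 : w ≤ K * (r + 1) := hwK
        have h6 : 3 ≤ K * r := by nlinarith
        rw [Nat.add_sub_cancel]
        have h7 : K * (r + 1) = K * r + K := by ring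
        have h8 : 3 * K ≤ K * r := by nlinarith
        have h9 : 320 * K * r = 320 * (K * r) := by ring
        rw [h9]
        omega
      have h3 : ((160 * w + 1 : ℕ) : ℤ) ≤ ((320 * K * (ρ' - 1) : ℕ) : ℤ) := by exact_mod_cast h2
      simp only [mem_ball, Prod.fst_zero, Prod.snd_zero] at h1 hb ⊢
      push_cast at h1 hb h3
      omega
    · intro a b e hj hoa hob haW hbW ha hb
      have hbH : b ∉ H := fun h => (hRsub a ha).2 (hclosed hj.symm hoa haW h)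
      have hb' : b ∉ ball 0 (8 * w) ∪ Zy := fun h => hb (hstepR hj hob h hbH ha)
      exact ⟨⟨ha, b, e, hj, hb'⟩, hbH, free b hob hb hbH⟩
    · intro a b e hj hoa _ haW _ _ ha2 hb
      exact absurd (hclosed hj.symm hoa haW hb) ha2
    · intro a b e hj _ hob _ _ _ _ hb1 hb2
      exact free b hob hb1 hb2
  have h128 : ∀ {z : Vert}, z ∈ sphere 0 (32 * (4 * w)) → z ∈ sphere 0 (128 * w) := by
    intro z hz
    have e : 32 * (4 * w) = 128 * w := by ring
    rwa [e] at hz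
  have hnear : ∀ {z a : Vert}, z ∈ sphere 0 (128 * w) → z ∈ ball a (4 * ρ') →
      a ∉ ball 0 (8 * w) := by
    intro z a hz hza ha
    have hz2 := hz.2
    simp only [mem_ball, Prod.fst_zero, Prod.snd_zero] at hza ha hz2
    push_cast at hza ha hz2
    omega
  have hball : ∀ {z a : Vert}, z ∈ ball a (4 * ρ') → z ∈ ball a w := fun h =>
    ball_mono' (by omega) h
  have hself : ∀ {z : Vert} {r : ℕ}, z ∈ ball z r := self_mem_ball
  refine ⟨?_, ?_, ?_, ?_, ?_⟩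
  · exact fence_mono (fun a ha => st4_corr_dom_left hK ha.2) (fun _ h => h) hF
  · -- the fence of `y`
    obtain ⟨z, hz, hf⟩ := hKy.hook (sit ω) hN (sit (s.cut ω)) (ball 0 (8 * w) \ H) u s.y hyu.symm
      huv (src_far s.hy hρ'1 hw' hv')
    have hcut : ∀ g ∈ vE Zy, ω g = s.cut ω g := fun g hg =>
      (corr_cut hKy hρ'1 hw' hv' hg).symm
    have hf' : Fence d' (4 * w) (sit (s.cut ω)) Zy z :=
      fence_congr (fun g hg => hcut g (vE_mono hKy.T_sub hg)) hcut hf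
    have hsub := st4_corr_dom_right (d := d) hKy
    have hyz : Conn (sit (s.cut ω)) (dom d d' (4 * w)) s.y z :=
      (hyu.trans hz).mono_set fun a ha => hsub (Or.inl ha.1)
    exact fence_trans hyz (fence_mono (fun a ha => hsub (Or.inr ha)) (fun _ h => h) hf')
  · intro h
    exact hy (hconnH _ (hlift h))
  · intro z hz h
    have hz' := h128 hz
    rcases hconf z (hconnH z (hlift h)) with h1 | ⟨a, ha, h1⟩ | ⟨a, _, ha, h1⟩
    · exact absurd h1 (hnear hz' hself)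
    · exact hK.mouth z hz' a ha (hball (mem_of_near h1))
    · exact absurd ha.1 (hnear hz' (mem_of_near h1))
  · intro z hz h
    have hz' := h128 hz
    rcases conf z (hlift h) with h1 | ⟨-, a, ha, h1⟩
    · rcases (hRsub z h1).1 with h2 | h2
      · exact absurd h2 (hnear hz' hself)
      · exact hKy.mouth z hz' z h2 hself
    · have h1' : z ∈ ball a (4 * ρ') := ball_mono' (by omega) h1
      rcases (hRsub a ha.1).1 with h2 | h2
      · exact absurd h2 (hnear hz' h1')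
      · exact hKy.mouth z hz' a h2 (hball h1')

/-- Stage 4: seal the cluster of `y`. -/
theorem stage4 (c : ℝ) (hc : 0 < c) (K : ℕ) : ∃ c' : ℝ, 0 < c' ∧ ∀ (s : Src) (w ρ ρ' : ℕ)
    (v v' : Vert) (d d' : Side) (Z Zy : Set Vert) (Nev Ny : Set Config) (n : ℕ) (q : I),
    CorrData w ρ v d Z Nev → CorrData w ρ' v' d' Zy Ny → CorrSep w ρ' v' Z Zy → 4 ≤ ρ' →
    64 * ρ' ≤ ρ → 64 * ρ ≤ w → w ≤ K * ρ' → v' ∈ sphere 0 (8 * w) →
    w ≤ n → RSWreg c n q →
      c' * Pr q (Ev3 s w ρ' v' d Z ∩ {ω | sit ω ∈ Ny}) ≤ Pr q (Sep s d d' (4 * w)) := by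
  classical
  obtain ⟨c', hc', hlow⟩ := seal_lower c hc 1 ((2 * (320 * K) + 1) ^ 2)
  refine ⟨c', hc', fun s w ρ ρ' v v' d d' Z Zy Nev Ny n q hK hKy hS hρ' hρ hw hwK hv' hn hR =>
    ?_⟩
  have hρ'1 : 1 ≤ ρ' := by omega
  have hw1 : 1 ≤ w := by omega
  -- the finite set of sites
  obtain ⟨Λ1, hΛ1⟩ := exists_fin (160 * w)
  obtain ⟨Λ2, hΛ2⟩ := localOn_seal (grid (ρ' - 1) (320 * K)) (ρ' - 1)
  have hDW : ball (0 : Vert) (8 * w) ∪ Zy ⊆ ball 0 (160 * w) :=
    (st4_corr_dom_right (d := d) hKy).trans (st4_dom_sub hK hKy)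
  have hΛ : ∀ e ∈ vE (ball 0 (160 * w)), e ∈ Λ1 ∪ Λ2 := fun e he =>
    Finset.mem_union_left _ (hΛ1 e he)
  have htΛ : ∀ ω : Config, ∀ e ∈ st4_t w Zy (st4_X s w Z Zy ω), e ∈ Λ1 ∪ Λ2 := by
    rintro ω e ((he | he) | (he | he))
    · exact hΛ e (rv_sub he)
    · exact hΛ e (vE_mono clus_sub he)
    · exact hΛ e (vE_mono (Set.sdiff_subset.trans hDW) (rv_sub he))
    · exact hΛ e (vE_mono (fun a ha => hDW (clus_sub ha).1) he)
  have main := markov_indep (Λ := Λ1 ∪ Λ2) (q := q) (c := c')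
    (fun ω => st4_X s w Z Zy ω)
    (fun i => Z ⊆ i.1 ∧ Zy ⊆ i.2) (fun i => st4_t w Zy i)
    (fun i => {ω | st4_X s w Z Zy ω = i} ∩ (Ev3 s w ρ' v' d Z ∩ {ω | sit ω ∈ Ny}))
    (fun i => Seal (grid (ρ' - 1) (320 * K)) (ρ' - 1) (st4_t w Zy i))
    ?_ ?_ ?_ ?_ ?_ ?_ ?_ hc'.le
  · have e1 : Ev3 s w ρ' v' d Z ∩ {ω | sit ω ∈ Ny} ⊆
        {ω | (Z ⊆ (st4_X s w Z Zy ω).1 ∧ Zy ⊆ (st4_X s w Z Zy ω).2) ∧
          ω ∈ {ω' | st4_X s w Z Zy ω' = st4_X s w Z Zy ω} ∩
            (Ev3 s w ρ' v' d Z ∩ {ω | sit ω ∈ Ny})} := by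
      intro ω hω
      have hC := hω.1.1
      exact ⟨⟨Z_sub_SH_of_conf hK hC,
        st4_Zy_sub hKy (Zy_disj_SH hKy hS hρ'1 hC hω.1.2.2) hω.1.2.1⟩, rfl, hω⟩
    refine le_trans (mul_le_mul_of_nonneg_left (Pr_mono e1) hc'.le) (le_trans main (Pr_mono ?_))
    rintro ω ⟨_, ⟨_, h3, hN⟩, hs⟩
    exact st4_det hK hKy hS hρ' hρ hw hwK hv' h3 hN hs
  · intro i ω ω' h hω
    have hω' : st4_X s w Z Zy ω = i := hω
    subst hω'
    exact st4_X_congr (fun e he => h e (htΛ ω e he)) rfl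
  · intro i hi ω ω' h hω
    exact st4_X_congr h hω
  · rintro i ω ω' h ⟨hω, hA⟩
    obtain ⟨h1, h2⟩ := st4_A_congr (ω' := ω') hK hKy hS hρ'1
      (fun e he => h e (htΛ ω e he)) hA
    exact ⟨h1.trans hω, h2⟩
  · rintro i hi ω ω' h ⟨hω, hA⟩
    obtain ⟨h1, h2⟩ := st4_A_congr (ω' := ω') hK hKy hS hρ'1
      (fun e he => h e (by
        have hω' : st4_X s w Z Zy ω = i := hω
        rw [← hω']
        exact he)) hA
    exact ⟨h1.trans hω, h2⟩
  · intro i ω ω' h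
    exact hΛ2 _ ω ω' fun e he => h e (Finset.mem_union_right _ he)
  · intro i _
    exact locS_seal _ _ _
  · intro i _
    exact hlow n (ρ' - 1) q _ _ (by omega) hR (by omega) (by omega) (card_grid _ _)

end Pool.Agent.H38.N59
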