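import Pool.Agent.H38.SK.N59.Bad
import Pool.Agent.H38.SK.N59.St1
import Pool.Agent.H38.SK.N59.St2
import Pool.Agent.H38.SK.N59.St3
import Pool.Agent.H38.SK.N59.St4
import Pool.Agent.H38.SK.N59.GeoAll
import Pool.Agent.H59.EX.OutE

/-!
# Outward separation for sites: assembly
-/

set_option autoImplicit false

open MeasureTheory ProbabilityTheory unitInterval

namespace Pool.Agent.H38.N59

open Pool.Agent.H89.Perc
open Pool.Agent.H61.NC hiding RSWreg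
open Pool.Agent.H83.SK (sv sit sit_true RSWreg BadIn)
open Pool.Agent.H59.EX (Side Gen CorrData CorrSep OnSide ZS NS corr_straight oute_netE oute_netS
  oute_pow oute_div oute_card oute_ball)
open Pool.Agent.H83.SK.NG (prob_straight exists_corr_y)

variable {s : Src} {w ρ ρ' : ℕ} {v v' : Vert} {d d' : Side} {Z Zy : Set Vert} {Nev Ny : Set Config}
  {q : I}

theorem oute_cover1 (hρ : 1 ≤ ρ) (hw : 64 * ρ ≤ w) {V : Finset Vert}
    (hV : ∀ v ∈ V, OnSide .E (8 * w) v)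
    (hV' : ∀ u, OnSide .E (8 * w) u → ∃ v ∈ V, u ∈ ball v ρ) :
    Four s (8 * w) ∩ Land .E s w ⊆
      (⋃ v ∈ V, Ev0 s w ρ v) ∪ (Four s (2 * w) ∩ BadZ w (11 * ρ) (4 * w)) := by
  rintro ω ⟨h1, u, hu, hc⟩
  obtain ⟨v, hv, huv⟩ := hV' u hu
  by_cases hd : Disjoint (SY s w ω) (ball v (11 * ρ))
  · left
    simp only [Set.mem_iUnion]
    exact ⟨v, hv, ⟨u, hu.1, huv, hc⟩, h1.2.1, h1.2.2, hd⟩
  · right
    exact bad0 hρ hw (hV v hv).1 h1 ⟨u, hu.1, huv, hc⟩ hd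

open scoped Classical in
theorem oute_cover2 (_hρ' : 1 ≤ ρ') (h1 : 64 * ρ' ≤ ρ) {V : Finset Vert}
    (hV' : ∀ u ∈ sphere 0 (8 * w), ∃ v' ∈ V, u ∈ ball v' ρ') :
    Ev2 s w ρ ρ' v d Z ⊆ ⋃ v' ∈ V.filter (fun v' => v' ∉ ball v (10 * ρ)), Ev3 s w ρ' v' d Z := by
  rintro ω ⟨h2, u, hu, huv, hc, hd⟩
  obtain ⟨v', hv', huv'⟩ := hV' u hu
  simp only [Set.mem_iUnion]
  refine ⟨v', Finset.mem_filter.2 ⟨hv', fun h => huv ?_⟩, h2, ⟨u, hu, huv', hc⟩, ?_⟩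
  · simp only [ball, rect, Set.mem_ofPred_eq] at h huv' ⊢
    push_cast at h huv' ⊢
    omega
  · refine hd.mono_right fun z hz => ?_
    have := oute_ball huv' hz
    have h8 : ρ' + 7 * ρ' = 8 * ρ' := by ring
    rwa [h8] at this

theorem bE_nonneg (q : I) (s : Src) (d : Side) (k : ℕ) : 0 ≤ ∑ d' : Side, Pr q (Sep s d d' k) :=
  Finset.sum_nonneg fun _ _ => Pr_nonneg

/-- Outward separation, landing of `x` on the east side. -/
theorem outE (hB : BadIn) (c ε : ℝ) (hc : 0 < c) (hε : 0 < ε) : ∃ (C : ℝ) (w₀ : ℕ), 0 < C ∧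
    ∀ (s : Src) (w n : ℕ) (q : I), w₀ ≤ w → 8 * w ≤ n → RSWreg c n q →
      Pr q (Four s (8 * w) ∩ Land .E s w) ≤
        C * (∑ d' : Side, Pr q (Sep s .E d' (4 * w))) + ε * Pr q (Four s (2 * w)) := by
  classical
  obtain ⟨CB, κ, hCB, hκ, hbad⟩ := hB c hc
  -- coarse scale
  obtain ⟨A₁, hA₁⟩ := oute_pow (a := 11 / 4) (κ := κ) (δ := ε / 2 / (CB * 2)) (by norm_num) hκ
    (by positivity)
  set K₁ : ℕ := max A₁ 128 with hK₁
  have hK₁A : A₁ ≤ K₁ := le_max_left _ _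
  have hK₁1 : 128 ≤ K₁ := le_max_right _ _
  obtain ⟨c₁, hc₁, hc₁'⟩ := prob_straight c hc (2 * K₁)
  -- fine scale
  obtain ⟨A₂, hA₂⟩ := oute_pow (a := 24 * K₁) (κ := κ)
    (δ := ε / 2 / ((32 * K₁ + 1) / c₁ * (CB * (16 * K₁)))) (by positivity) hκ (by positivity)
  set K₂ : ℕ := max A₂ (128 * K₁) with hK₂
  have hK₂A : A₂ ≤ K₂ := le_max_left _ _
  have hK₂1 : 128 * K₁ ≤ K₂ := le_max_right _ _
  obtain ⟨c₂, hc₂, hst2⟩ := stage2 c hc (2 * K₂)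
  obtain ⟨c₃, hc₃, hcy⟩ := exists_corr_y c hc (2 * K₂)
  obtain ⟨c₄, hc₄, hst4⟩ := stage4 c hc (2 * K₂)
  refine ⟨(32 * K₁ + 1) / c₁ * ((4 * (32 * K₂ + 1)) / (c₂ * c₃ * c₄)), 4 * K₂, by positivity, ?_⟩
  intro s w n q hw hwn hreg
  obtain ⟨r1, r2, r3⟩ := oute_div (w := w) (K := K₁) (by omega) (by omega)
  obtain ⟨r1', r2', r3'⟩ := oute_div (w := w) (K := K₂) (by omega) (by omega)
  set ρ : ℕ := w / K₁ with hρ
  set ρ' : ℕ := w / K₂ with hρ'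
  have hρ'4 : 4 ≤ ρ' := by
    rw [hρ', Nat.le_div_iff_mul_le (by omega)]
    omega
  have hwn' : w ≤ n := by omega
  have h64 : 64 * ρ ≤ w := by nlinarith
  have h64' : 64 * ρ' ≤ ρ := by
    have h1 : 128 * K₁ * ρ' ≤ w := (Nat.mul_le_mul_right ρ' hK₂1).trans r2'
    have h2 : w < K₁ * ρ + K₁ := by
      have := Nat.lt_mul_div_succ w (show 0 < K₁ by omega)
      rwa [Nat.mul_succ] at this
    have h3 : K₁ * (128 * ρ') < K₁ * (ρ + 1) := by nlinarith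
    have h4 : 128 * ρ' < ρ + 1 := Nat.lt_of_mul_lt_mul_left h3
    omega
  have hw1 : 1 ≤ w := by omega
  -- real versions
  have hwR : (0 : ℝ) < w := by exact_mod_cast hw1
  have hρR : (0 : ℝ) < ρ := by exact_mod_cast r1
  have hρ'R : (0 : ℝ) < ρ' := by exact_mod_cast r1'
  have hK₁R : (0 : ℝ) < K₁ := by exact_mod_cast (show 0 < K₁ by omega)
  have hK₂R : (0 : ℝ) < K₂ := by exact_mod_cast (show 0 < K₂ by omega)
  have e1 : (K₁ : ℝ) * ρ ≤ w := by exact_mod_cast r2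
  have e2 : (w : ℝ) ≤ 2 * K₁ * ρ := by exact_mod_cast r3
  have e3 : (K₂ : ℝ) * ρ' ≤ w := by exact_mod_cast r2'
  -- the bad events
  have hF0 : 0 ≤ Pr q (Four s (2 * w)) := Pr_nonneg
  have hb1 : Pr q (BadZ w (11 * ρ) (4 * w)) ≤ ε / 2 := by
    have h1 := hbad n (11 * ρ) (4 * w) (8 * w) q (by omega) (by omega) (by omega) hwn hreg
    refine h1.trans ?_
    have h2 : (((8 * w : ℕ) : ℝ) / ((4 * w : ℕ) : ℝ)) = 2 := by
      push_cast
      field_simp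
      norm_num
    have h3 : (((11 * ρ : ℕ) : ℝ) / ((4 * w : ℕ) : ℝ)) ≤ 11 / 4 / K₁ := by
      push_cast
      rw [div_le_div_iff₀ (by positivity) hK₁R]
      nlinarith
    have h4 : (((11 * ρ : ℕ) : ℝ) / ((4 * w : ℕ) : ℝ)) ^ κ ≤ ε / 2 / (CB * 2) :=
      (Real.rpow_le_rpow (by positivity) h3 hκ.le).trans (hA₁ K₁ hK₁A)
    rw [h2]
    calc CB * 2 * (((11 * ρ : ℕ) : ℝ) / ((4 * w : ℕ) : ℝ)) ^ κ
        ≤ CB * 2 * (ε / 2 / (CB * 2)) := mul_le_mul_of_nonneg_left h4 (by positivity)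
      _ = ε / 2 := by field_simp
  have hb2 : (32 * K₁ + 1) / c₁ * Pr q (BadZ w (12 * ρ') ρ) ≤ ε / 2 := by
    have h1 := hbad n (12 * ρ') ρ (8 * w) q (by omega) (by omega) (by omega) hwn hreg
    have h2 : (((8 * w : ℕ) : ℝ) / (ρ : ℝ)) ≤ 16 * K₁ := by
      push_cast
      rw [div_le_iff₀ hρR]
      nlinarith
    have h3 : (((12 * ρ' : ℕ) : ℝ) / (ρ : ℝ)) ≤ 24 * K₁ / K₂ := by
      push_cast
      rw [div_le_div_iff₀ hρR hK₂R]
      nlinarith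
    have h4 : (((12 * ρ' : ℕ) : ℝ) / (ρ : ℝ)) ^ κ ≤
        ε / 2 / ((32 * K₁ + 1) / c₁ * (CB * (16 * K₁))) :=
      (Real.rpow_le_rpow (by positivity) h3 hκ.le).trans (hA₂ K₂ hK₂A)
    have h5 : Pr q (BadZ w (12 * ρ') ρ) ≤
        CB * (16 * K₁) * (ε / 2 / ((32 * K₁ + 1) / c₁ * (CB * (16 * K₁)))) := by
      refine h1.trans ?_
      exact mul_le_mul (mul_le_mul_of_nonneg_left h2 hCB.le) h4 (by positivity) (by positivity)
    calc (32 * K₁ + 1) / c₁ * Pr q (BadZ w (12 * ρ') ρ)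
        ≤ (32 * K₁ + 1) / c₁ *
          (CB * (16 * K₁) * (ε / 2 / ((32 * K₁ + 1) / c₁ * (CB * (16 * K₁))))) :=
          mul_le_mul_of_nonneg_left h5 (by positivity)
      _ = ε / 2 := by field_simp
  -- nets
  obtain ⟨V₁, hV₁, hV₁c, hV₁'⟩ := oute_netE (w := w) (ρ := ρ) r1
  obtain ⟨V₂, hV₂, hV₂c, hV₂'⟩ := oute_netS (w := w) (ρ := ρ') r1'
  have hcard1 : (V₁.card : ℝ) ≤ 32 * K₁ + 1 := by
    exact_mod_cast hV₁c.trans (oute_card r1 r3)
  have hcard2 : (V₂.card : ℝ) ≤ 4 * (32 * K₂ + 1) := by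
    exact_mod_cast hV₂c.trans (Nat.mul_le_mul_left 4 (oute_card r1' r3'))
  set B : ℝ := ∑ d' : Side, Pr q (Sep s .E d' (4 * w)) with hBdef
  have hB0 : 0 ≤ B := bE_nonneg q s .E (4 * w)
  -- stage 3 and stage 4
  have step34 : ∀ v ∈ V₁, ∀ v' ∈ V₂.filter (fun v' => v' ∉ ball v (10 * ρ)),
      Pr q (Ev3 s w ρ' v' .E (ZS .E w ρ v)) ≤ B / (c₃ * c₄) := by
    intro v hv v' hv'
    rw [Finset.mem_filter] at hv'
    obtain ⟨d', Zy, Ny, -, hKy, hKS, hNy⟩ := hcy w ρ ρ' n v v' q r1' h64' h64 r3' hwn' (hV₁ v hv)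
      (hV₂ v' hv'.1) hv'.2 hreg
    have hK := corr_straight (d := .E) (w := w) (ρ := ρ) (v := v) r1 h64 (hV₁ v hv)
    have h3 := stage3 (s := s) (q := q) hK hKy hKS r1' hc₃.le hNy
    have h4 := hst4 s w ρ ρ' v v' .E d' (ZS .E w ρ v) Zy (NS .E w ρ v) Ny n q hK hKy hKS hρ'4 h64'
      h64 r3' (hV₂ v' hv'.1) hwn' hreg
    have h5 : Pr q (Sep s .E d' (4 * w)) ≤ B :=
      Finset.single_le_sum (f := fun d' => Pr q (Sep s .E d' (4 * w)))
        (fun _ _ => Pr_nonneg) (Finset.mem_univ d')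
    rw [le_div_iff₀ (by positivity)]
    calc Pr q (Ev3 s w ρ' v' .E (ZS .E w ρ v)) * (c₃ * c₄)
        = c₄ * (c₃ * Pr q (Ev3 s w ρ' v' .E (ZS .E w ρ v))) := by ring
      _ ≤ c₄ * Pr q (Ev3 s w ρ' v' .E (ZS .E w ρ v) ∩ {ω | sit ω ∈ Ny}) := mul_le_mul_of_nonneg_left h3 hc₄.le
      _ ≤ B := h4.trans h5
  -- stage 2
  have step2 : ∀ v ∈ V₁, Pr q (Ev0 s w ρ v ∩ {ω | sit ω ∈ NS .E w ρ v} ∩ Good12 s w ρ' (ZS .E w ρ v)) ≤
      4 * (32 * K₂ + 1) / (c₂ * c₃ * c₄) * B := by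
    intro v hv
    have hK := corr_straight (d := .E) (w := w) (ρ := ρ) (v := v) r1 h64 (hV₁ v hv)
    have h2 := hst2 s w ρ ρ' v .E (ZS .E w ρ v) (NS .E w ρ v) n q hK hρ'4 h64' h64 r3'
      (hV₁ v hv).1 hwn' hreg
    have h3 : Pr q (Ev2 s w ρ ρ' v .E (ZS .E w ρ v)) ≤ 4 * (32 * K₂ + 1) * (B / (c₃ * c₄)) := by
      refine (Pr_mono (oute_cover2 r1' h64' hV₂')).trans ((Pr_biUnion_le _ _).trans ?_)
      refine (Finset.sum_le_card_nsmul _ _ _ (step34 v hv)).trans ?_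
      rw [nsmul_eq_mul]
      refine mul_le_mul_of_nonneg_right ?_ (by positivity)
      refine le_trans ?_ hcard2
      exact_mod_cast Finset.card_filter_le _ _
    rw [div_mul_eq_mul_div, le_div_iff₀ (by positivity)]
    calc Pr q (Ev0 s w ρ v ∩ {ω | sit ω ∈ NS .E w ρ v} ∩ Good12 s w ρ' (ZS .E w ρ v)) * (c₂ * c₃ * c₄)
        = (c₂ * Pr q (Ev0 s w ρ v ∩ {ω | sit ω ∈ NS .E w ρ v} ∩ Good12 s w ρ' (ZS .E w ρ v))) * (c₃ * c₄) := by
          ring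
      _ ≤ (4 * (32 * K₂ + 1) * (B / (c₃ * c₄))) * (c₃ * c₄) :=
          mul_le_mul_of_nonneg_right (h2.trans h3) (by positivity)
      _ = 4 * (32 * K₂ + 1) * B := by field_simp
  -- stage 1
  have step1 : ∀ v ∈ V₁, Pr q (Ev0 s w ρ v) ≤
      (4 * (32 * K₂ + 1) / (c₂ * c₃ * c₄) * B +
        Pr q (Four s (2 * w)) * Pr q (BadZ w (12 * ρ') ρ)) / c₁ := by
    intro v hv
    have hK := corr_straight (d := .E) (w := w) (ρ := ρ) (v := v) r1 h64 (hV₁ v hv)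
    have hN := hc₁' .E w ρ n v q r1 (by omega) r3 hwn' (hV₁ v hv) hreg
    have h1 := stage1 (s := s) (q := q) hK r1 hc₁.le hN
    have h2 : Ev0 s w ρ v ∩ {ω | sit ω ∈ NS .E w ρ v} ⊆
        (Ev0 s w ρ v ∩ {ω | sit ω ∈ NS .E w ρ v} ∩ Good12 s w ρ' (ZS .E w ρ v)) ∪
          (Four s (2 * w) ∩ BadZ w (12 * ρ') ρ) := by
      rintro ω ⟨h3, h4⟩
      by_cases h5 : ω ∈ Good12 s w ρ' (ZS .E w ρ v)
      · exact Or.inl ⟨⟨h3, h4⟩, h5⟩
      · exact Or.inr (bad12 hK r1' h64' h64 h3 h5)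
    have h3 : Pr q (Four s (2 * w) ∩ BadZ w (12 * ρ') ρ) =
        Pr q (Four s (2 * w)) * Pr q (BadZ w (12 * ρ') ρ) :=
      four_bad_indep (by omega) hw1
    rw [le_div_iff₀ hc₁, mul_comm]
    refine h1.trans ((Pr_mono h2).trans (Pr_union_le.trans ?_))
    rw [h3]
    exact add_le_add (step2 v hv) le_rfl
  -- conclusion
  have h3 : Pr q (Four s (2 * w) ∩ BadZ w (11 * ρ) (4 * w)) =
      Pr q (Four s (2 * w)) * Pr q (BadZ w (11 * ρ) (4 * w)) :=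
    four_bad_indep (by omega) hw1
  have hcov := (Pr_mono (p := q) (oute_cover1 (s := s) r1 h64 hV₁ hV₁')).trans Pr_union_le
  rw [h3] at hcov
  have hsum : Pr q (⋃ v ∈ V₁, Ev0 s w ρ v) ≤ (32 * K₁ + 1) *
      ((4 * (32 * K₂ + 1) / (c₂ * c₃ * c₄) * B +
        Pr q (Four s (2 * w)) * Pr q (BadZ w (12 * ρ') ρ)) / c₁) := by
    refine (Pr_biUnion_le _ _).trans ((Finset.sum_le_card_nsmul _ _ _ step1).trans ?_)
    rw [nsmul_eq_mul]
    refine mul_le_mul_of_nonneg_right hcard1 ?_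
    have : 0 ≤ Pr q (BadZ w (12 * ρ') ρ) := Pr_nonneg
    positivity
  have hfin : (32 * (K₁ : ℝ) + 1) *
      ((4 * (32 * K₂ + 1) / (c₂ * c₃ * c₄) * B +
        Pr q (Four s (2 * w)) * Pr q (BadZ w (12 * ρ') ρ)) / c₁) =
      (32 * K₁ + 1) / c₁ * ((4 * (32 * K₂ + 1)) / (c₂ * c₃ * c₄)) * B +
        ((32 * K₁ + 1) / c₁ * Pr q (BadZ w (12 * ρ') ρ)) * Pr q (Four s (2 * w)) := by ring
  rw [hfin] at hsum
  have h4 := mul_le_mul_of_nonneg_right hb2 hF0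
  have h5 := mul_le_mul_of_nonneg_left hb1 hF0
  nlinarith [hcov, hsum, h4, h5]

/-- Transport of the bound by a symmetry. -/
theorem oute_transport {C ε : ℝ} {w : ℕ} {q : I} (g : Gen) (d : Side)
    (h : ∀ s : Src, Pr q (Four s (8 * w) ∩ Land (g.s d) s w) ≤
      C * (∑ d' : Side, Pr q (Sep s (g.s d) d' (4 * w))) + ε * Pr q (Four s (2 * w))) (s : Src) :
    Pr q (Four s (8 * w) ∩ Land d s w) ≤
      C * (∑ d' : Side, Pr q (Sep s d d' (4 * w))) + ε * Pr q (Four s (2 * w)) := by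
  have h1 := h (s.map g)
  rw [four_land_map, four_map] at h1
  have h2 : (∑ d' : Side, Pr q (Sep (s.map g) (g.s d) d' (4 * w))) =
      ∑ d' : Side, Pr q (Sep s d d' (4 * w)) := by
    refine Finset.sum_bij' (fun d' _ => g.s d') (fun d' _ => g.s d') (fun _ _ => Finset.mem_univ _)
      (fun _ _ => Finset.mem_univ _) (fun d' _ => g.s_s d') (fun d' _ => g.s_s d') ?_
    intro d' _
    have h3 := sep_map (q := q) (s := s) (d := d) (d' := g.s d') (k := 4 * w) g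
    rw [g.s_s] at h3
    exact h3
  rw [h2] at h1
  exact h1

/-- **One step of the outward separation.** -/
theorem out_step (hB : BadIn) (c ε : ℝ) (hc : 0 < c) (hε : 0 < ε) : ∃ (C : ℝ) (w₀ : ℕ), 0 < C ∧
    ∀ (s : Src) (w n : ℕ) (q : I), w₀ ≤ w → 8 * w ≤ n → RSWreg c n q →
      Pr q (Four s (8 * w)) ≤ C * bS q s (4 * w) + ε * Pr q (Four s (2 * w)) := by
  obtain ⟨C, w₀, hC, h⟩ := outE hB c (ε / 4) hc (by positivity)
  refine ⟨C, w₀, hC, ?_⟩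
  intro s w n q hw hwn hreg
  have hE : ∀ s : Src, Pr q (Four s (8 * w) ∩ Land .E s w) ≤
      C * (∑ d' : Side, Pr q (Sep s .E d' (4 * w))) + ε / 4 * Pr q (Four s (2 * w)) :=
    fun s => h s w n q hw hwn hreg
  have hN := oute_transport (g := .sw) (d := .N) hE
  have hW := oute_transport (g := .rx) (d := .W) hE
  have hS := oute_transport (g := .ry) (d := .S) hN
  have hall : ∀ d : Side, Pr q (Four s (8 * w) ∩ Land d s w) ≤
      C * (∑ d' : Side, Pr q (Sep s d d' (4 * w))) + ε / 4 * Pr q (Four s (2 * w)) := by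
    intro d
    cases d
    · exact hE s
    · exact hN s
    · exact hW s
    · exact hS s
  have h1 : Pr q (Four s (8 * w)) ≤ ∑ d : Side, Pr q (Four s (8 * w) ∩ Land d s w) := by
    have h2 := Pr_biUnion_le (p := q) (Finset.univ : Finset Side)
      (fun d => Four s (8 * w) ∩ Land d s w)
    refine (Pr_mono ?_).trans h2
    refine four_land.trans ?_
    simp
  refine h1.trans ((Finset.sum_le_sum fun d _ => hall d).trans ?_)
  rw [Finset.sum_add_distrib, ← Finset.mul_sum, Finset.sum_const, Finset.card_univ]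
  have h4 : Fintype.card Side = 4 := rfl
  rw [h4, nsmul_eq_mul]
  unfold bS
  push_cast
  linarith

end Pool.Agent.H38.N59
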