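import Pool.Agent.H38.SK.N59.Defs

/-!
# Outward separation for sites: definitions and elementary facts for the stages

The corridors and their crossing events are those of the bond setting, evaluated at the induced
configuration.
-/

set_option autoImplicit false

open MeasureTheory ProbabilityTheory unitInterval

namespace Pool.Agent.H38.N59

open Pool.Agent.H89.Perc
open Pool.Agent.H61.NC hiding RSWreg
open Pool.Agent.H83.SK (sv sit sit_true RSWreg)
open Pool.Agent.H59.EX (LocS inE touch clus closeS Side T Mouth Fence dom CorrData CorrSep clus_sub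
  clus_step clus_conn mem_clus_single conn_in_clus fence_mem corr_inter corr_far corr_sub160
  mem_sphere_of_joins)

/-- Cluster of the second point in `ball 0 (8 w)`. -/
def SY (s : Src) (w : ℕ) (ω : Config) : Set Vert := clus (sit (s.cut ω)) (ball 0 (8 * w)) {s.y}

/-- Cluster of the first point in `ball 0 (8 w) ∪ Z`, with `Z` filled. -/
noncomputable def S1 (s : Src) (w : ℕ) (Z : Set Vert) (ω : Config) : Set Vert :=
  clus (sit (fillS Z (s.cut ω))) (ball 0 (8 * w) ∪ Z) {s.x}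

/-- Cluster of the first point in `ball 0 (160 w)`, with `Z` filled. -/
noncomputable def SH (s : Src) (w : ℕ) (Z : Set Vert) (ω : Config) : Set Vert :=
  clus (sit (fillS Z (s.cut ω))) (ball 0 (160 * w)) {s.x}

/-- Stage 0: `x` lands near `v`, the cluster of `y` is far from `v`. -/
def Ev0 (s : Src) (w ρ : ℕ) (v : Vert) : Set Config :=
  {ω | (∃ u ∈ sphere 0 (8 * w), u ∈ ball v ρ ∧ Conn (sit (s.cut ω)) (ball 0 (8 * w)) s.x u) ∧
    (∃ u ∈ sphere 0 (8 * w), Conn (sit (s.cut ω)) (ball 0 (8 * w)) s.y u) ∧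
    ¬ Conn (sit (s.cut ω)) (ball 0 (8 * w)) s.x s.y ∧ Disjoint (SY s w ω) (ball v (11 * ρ))}

/-- The clusters of `x` (after gluing) and of `y` are nowhere both close to the same vertex of the
sphere. -/
def Good12 (s : Src) (w ρ' : ℕ) (Z : Set Vert) : Set Config :=
  {ω | ∀ z ∈ sphere 0 (8 * w), (S1 s w Z ω ∩ ball z (12 * ρ')).Nonempty →
    ¬ (SY s w ω ∩ ball z (12 * ρ')).Nonempty}

/-- The cluster of `x` is confined, contains a fence, and misses `y`. -/
def Conf (s : Src) (w ρ' : ℕ) (d : Side) (Z : Set Vert) : Set Config :=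
  {ω | s.y ∉ SH s w Z ω ∧
    Fence d (4 * w) (sit (s.cut ω)) (SH s w Z ω ∩ (ball 0 (8 * w) ∪ Z)) s.x ∧
    ∀ z ∈ SH s w Z ω, z ∈ ball 0 (8 * w) ∨ (∃ a ∈ Z, ball z 1 ⊆ ball a (4 * ρ')) ∨
      ∃ a ∈ SH s w Z ω, a ∈ sphere 0 (8 * w) ∧ ball z 1 ⊆ ball a (4 * ρ')}

/-- Stage 2 result. -/
def Ev2 (s : Src) (w ρ ρ' : ℕ) (v : Vert) (d : Side) (Z : Set Vert) : Set Config :=
  {ω | ω ∈ Conf s w ρ' d Z ∧ ∃ u ∈ sphere 0 (8 * w), u ∉ ball v (11 * ρ) ∧
    Conn (sit (s.cut ω)) (ball 0 (8 * w) \ SH s w Z ω) s.y u ∧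
    Disjoint (SH s w Z ω) (ball u (8 * ρ'))}

/-- Stage 3: `y` lands near `v'`. -/
def Ev3 (s : Src) (w ρ' : ℕ) (v' : Vert) (d : Side) (Z : Set Vert) : Set Config :=
  {ω | ω ∈ Conf s w ρ' d Z ∧ (∃ u ∈ sphere 0 (8 * w), u ∈ ball v' ρ' ∧
    Conn (sit (s.cut ω)) (ball 0 (8 * w) \ SH s w Z ω) s.y u) ∧
    Disjoint (SH s w Z ω) (ball v' (7 * ρ'))}

variable {ω : Config} {s : Src} {w ρ ρ' : ℕ} {v v' : Vert} {d d' : Side} {Z Zy : Set Vert}
  {Nev Ny : Set Config} {a b z : Vert}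

theorem ball_mono' {z : Vert} {r r' : ℕ} (h : r ≤ r') : ball z r ⊆ ball z r' := by
  intro a ha
  simp only [mem_ball] at ha ⊢
  omega

theorem ball_symm' {a b : Vert} {r : ℕ} (h : a ∈ ball b r) : b ∈ ball a r := by
  simp only [mem_ball] at h ⊢
  omega

/-- A vertex near `a`, with room for its neighbours. -/
theorem near_sub {r R : ℕ} (h : z ∈ ball a r) (hR : r + 1 ≤ R) : ball z 1 ⊆ ball a R := by
  intro b hb
  simp only [mem_ball] at h hb ⊢
  push_cast at hb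
  omega

theorem near_self {r : ℕ} (hr : 1 ≤ r) : ball z 1 ⊆ ball z r := ball_mono' hr

theorem mem_of_near {r : ℕ} (h : ball z 1 ⊆ ball a r) : z ∈ ball a r := h self_mem_ball

theorem corr_cut (hK : CorrData w ρ v d Z Nev) (hρ : 1 ≤ ρ) (hw : 64 * ρ ≤ w)
    (hv : v ∈ sphere 0 (8 * w)) {g : Edge} (hg : g ∈ vE Z) : s.cut ω g = ω g := by
  obtain ⟨h1, h2⟩ := hg
  have h3 : g = sv (src g) := by
    obtain ⟨x, y, t⟩ := g
    have h4 : t = false := h1
    simp [sv, src, h4]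
  rw [h3]
  exact cut_of_not_ball fun h => corr_far hK hρ hw hv h2 (ball_mono' (by omega) h)

/-- The cluster of `y` is closed under steps of the filled configuration in `D ∪ Z`. -/
theorem SY_closed (hK : CorrData w ρ v d Z Nev) (hρ : 1 ≤ ρ)
    (h : Disjoint (SY s w ω) (ball v (11 * ρ))) {a b : Vert} (ha : a ∈ SY s w ω)
    (hs : Step (sit (fillS Z (s.cut ω))) (ball 0 (8 * w) ∪ Z) a b) : b ∈ SY s w ω := by
  have haD : a ∈ ball 0 (8 * w) := clus_sub ha
  have hfar : a ∉ ball v (5 * ρ) := fun h1 =>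
    Set.disjoint_left.1 h ha (ball_mono' (by omega) h1)
  obtain ⟨_, h2, e, he, ho⟩ := hs
  obtain ⟨hoa, hob⟩ := (sit_joins he).1 ho
  rw [fill_sv] at hoa hob
  have haZ : a ∉ Z := fun h1 => hfar (corr_inter hK ⟨h1, haD⟩)
  have hbZ : b ∉ Z := fun h1 =>
    hfar (hK.inter b h1 a haD (ball_mono' hρ (Pool.Agent.H59.EX.ball_of_joins he)))
  exact clus_step ha ⟨haD, h2.resolve_right hbZ, e, he,
    (sit_joins he).2 ⟨hoa.resolve_right haZ, hob.resolve_right hbZ⟩⟩

/-- F1. -/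
theorem S1_disj_SY (hK : CorrData w ρ v d Z Nev) (hρ : 1 ≤ ρ)
    (h : Disjoint (SY s w ω) (ball v (11 * ρ)))
    (hxy : ¬ Conn (sit (s.cut ω)) (ball 0 (8 * w)) s.x s.y) :
    Disjoint (S1 s w Z ω) (SY s w ω) := by
  rw [Set.disjoint_left]
  intro z hz hz'
  have h1 : Conn (sit (fillS Z (s.cut ω))) (ball 0 (8 * w) ∪ Z) z s.x :=
    (mem_clus_single.1 hz).symm
  have h2 : s.x ∈ SY s w ω := h1.induction_right (P := fun b => b ∈ SY s w ω) hz'
    fun a b _ h3 h4 => SY_closed hK hρ h h4 h3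
  exact hxy (mem_clus_single.1 h2).symm

private theorem fact_sub160 (hK : CorrData w ρ v d Z Nev) :
    ball 0 (8 * w) ∪ Z ⊆ ball 0 (160 * w) :=
  Set.union_subset (ball_mono' (by omega)) (corr_sub160 hK)

theorem S1_sub_SH (hK : CorrData w ρ v d Z Nev) : S1 s w Z ω ⊆ SH s w Z ω :=
  Pool.Agent.H59.EX.clus_mono (fact_sub160 hK) fun _ h => h

/-- If the cluster of `x` meets the filled corridor it contains it. -/
theorem Z_sub_SH (hK : CorrData w ρ v d Z Nev) {a : Vert} (ha : a ∈ Z) (ha' : a ∈ SH s w Z ω) :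
    Z ⊆ SH s w Z ω := by
  intro b hb
  exact clus_conn ha' (conn_fillS (corr_sub160 hK) (hK.conn a ha b hb))

theorem Z_sub_S1 (hK : CorrData w ρ v d Z Nev) {a : Vert} (ha : a ∈ Z) (ha' : a ∈ S1 s w Z ω) :
    Z ⊆ S1 s w Z ω := by
  intro b hb
  exact clus_conn ha' (conn_fillS Set.subset_union_right (hK.conn a ha b hb))

theorem Z_sub_SH_of_conf (hK : CorrData w ρ v d Z Nev) (h : ω ∈ Conf s w ρ' d Z) :
    Z ⊆ SH s w Z ω := by
  obtain ⟨_, hF, _⟩ := h
  obtain ⟨u, hu, hc⟩ := fence_mem hF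
  exact Z_sub_SH hK (hK.T_sub hu) hc.mem_right.1

/-- The second corridor and its neighbours miss every confined set. -/
theorem conf_far (hKy : CorrData w ρ' v' d' Zy Ny) (hS : CorrSep w ρ' v' Z Zy)
    (hρ' : 1 ≤ ρ') {S : Set Vert}
    (hconf : ∀ z ∈ S, z ∈ ball 0 (8 * w) ∨ (∃ a ∈ Z, ball z 1 ⊆ ball a (4 * ρ')) ∨
      ∃ a ∈ S, a ∈ sphere 0 (8 * w) ∧ ball z 1 ⊆ ball a (4 * ρ'))
    (hd : Disjoint S (ball v' (7 * ρ'))) {z z' : Vert} (hz : z ∈ Zy) (hz' : z' ∈ ball z 1) :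
    z' ∉ S := by
  rw [Set.disjoint_left] at hd
  intro hS'
  rcases hconf z' hS' with h1 | ⟨a, ha, h1⟩ | ⟨a, ha, ha', h1⟩
  · exact hd hS' (ball_mono' (by omega) (hKy.inter z hz z' h1 (ball_mono' hρ' hz')))
  · exact hS.far a ha z hz (ball_mono' (by omega) (h1 (ball_symm' hz')))
  · exact hd ha (hS.fringe z hz a ha' (h1 (ball_symm' hz')))

/-- The second corridor misses the confined cluster. -/
theorem Zy_disj_SH (hKy : CorrData w ρ' v' d' Zy Ny) (hS : CorrSep w ρ' v' Z Zy)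
    (hρ' : 1 ≤ ρ') (h : ω ∈ Conf s w ρ' d Z) (hd : Disjoint (SH s w Z ω) (ball v' (7 * ρ'))) :
    Disjoint Zy (SH s w Z ω) := by
  rw [Set.disjoint_left]
  intro z hz
  exact conf_far hKy hS hρ' h.2.2 hd hz self_mem_ball

/-- The points of the source are far from the sphere. -/
theorem src_far (h : a ∈ ball 0 2) (hρ : 1 ≤ ρ) (hw : 64 * ρ ≤ w) (hv : v ∈ sphere 0 (8 * w)) :
    a ∉ ball v (3 * ρ) := by
  intro h1
  have h2 := hv.2
  simp only [mem_ball, Prod.fst_zero, Prod.snd_zero] at h h1 h2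
  push_cast at h h1 h2
  omega

theorem src_mem (h : a ∈ ball 0 2) (hw : 1 ≤ w) : a ∈ ball 0 (8 * w) := by
  simp only [mem_ball, Prod.fst_zero, Prod.snd_zero] at h ⊢
  push_cast at h ⊢
  omega

theorem src_ne (h : a ∈ ball 0 2) (hw : 1 ≤ w) {u : Vert} (hu : u ∈ sphere 0 (8 * w)) :
    a ≠ u := by
  rintro rfl
  have h2 := hu.2
  simp only [mem_ball, Prod.fst_zero, Prod.snd_zero] at h h2
  push_cast at h h2
  omega

/-- The point of a fence of the source is open. -/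
theorem open_of_fence {η : Config} {D : Set Vert} {k : ℕ} (hk : 1 ≤ k) (h : a ∈ ball 0 2)
    (hf : Fence d k (sit η) D a) : η (sv a) = true := by
  obtain ⟨u, hu, hc⟩ := fence_mem hf
  refine open_of_conn hc ?_
  rintro rfl
  cases d
  all_goals
    simp only [T, rect, Set.mem_ofPred_eq] at hu
    simp only [mem_ball, Prod.fst_zero, Prod.snd_zero] at h
    push_cast at h
    omega

/-- A finite set which contains all the sites of `ball 0 r`. -/
theorem exists_fin (r : ℕ) : ∃ Λ : Finset Edge, ∀ g ∈ vE (ball 0 r), g ∈ Λ := by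
  refine ⟨eRect (-(r : ℤ)) r (-(r : ℤ)) r, fun g hg => ?_⟩
  rw [mem_eRect]
  have h := hg.2
  unfold ball at h
  simp only [Prod.fst_zero, Prod.snd_zero, zero_sub, zero_add] at h
  exact h

/-- A path only looks at the sites of its cluster. -/
theorem conn_of_sub {D S : Set Vert} {ω' : Config} {x u : Vert}
    (hS : ∀ a, Conn (sit (s.cut ω)) D x a → a ∈ S) (h : ∀ g ∈ vE S, ω g = ω' g)
    (hc : Conn (sit (s.cut ω)) D x u) : Conn (sit (s.cut ω')) D x u :=
  conn_transfer hS (fun _ ha => cut_congr (h _ (sv_mem_vE.2 ha))) hc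

end Pool.Agent.H38.N59
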